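import Pool.Agent.P.MP_342f9e_an.Chain

set_option autoImplicit false

open Real Set

namespace Pool.Agent.P.MP_342f9e_an

lemma pf_132 : 0.96 ≤ pf 13.2 := by
  have := box (u := 13200) (by norm_num) (a := 0) (a' := 60000) (b := 57600) (b' := 60000)
    (by decide +kernel)
  norm_num at this
  unfold pf; rw [le_div_iff₀ (I0_pos _)]
  norm_num
  linarith [this.2.1, this.2.2.1]

lemma exp_lo : 0.185 ≤ exp (-1.6) := by
  have h := add_one_le_exp (-0.1)
  have e : exp (-1.6) = exp (-0.1) ^ 16 := by rw [← exp_nat_mul]; norm_num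
  rw [e]
  refine le_trans (by norm_num) (pow_le_pow_left₀ (by norm_num) h 16)

lemma exp_hi : exp (-1.6) ≤ 0.2024 := by
  have h := sum_le_exp_of_nonneg (x := 1.6) (by norm_num) 8
  simp only [Finset.sum_range_succ, Finset.range_zero, Finset.sum_empty, Nat.factorial] at h
  norm_num at h
  rw [exp_neg, inv_le_comm₀ (exp_pos _) (by norm_num)]
  norm_num at h ⊢
  linarith

lemma J_decay {t R : ℝ} (ht : 0 ≤ t) (htR : t ≤ R) :
    I0 R ^ 2 * exp (2 * (t - R)) ≤ I0 t ^ 2 := by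
  have h := le_of_deriv (f := fun x => -(I0 x ^ 2 * exp (2 * (t - x))))
    (f' := fun x => 2 * I0 x * (I0 x - I1 x) * exp (2 * (t - x))) htR
    (fun x _ => by
      have h1 : HasDerivAt (fun x => 2 * (t - x)) (-2) x := by
        simpa using ((hasDerivAt_id x).const_sub t).const_mul 2
      have := ((hasDerivAt_J x).mul h1.exp).neg
      refine this.congr_deriv ?_
      ring)
    (fun x hx => by
      have := I1_lt_I0 (ht.trans hx.1)
      have := I0_pos x
      have : 0 ≤ I0 x - I1 x := by linarith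
      positivity)
  simp only [sub_self, mul_zero, exp_zero, mul_one] at h
  linarith

lemma Mt_diff {s z R : ℝ} (hs : s ^ 2 ≤ 1) (hz : 0 ≤ z) (hzR : z ≤ R) :
    (1 - s ^ 2) * I0 R ^ 2 * (1 - exp (2 * (z - R))) / 2 - (R - z) ≤ Mt s R - Mt s z := by
  have h := le_of_deriv
    (f := fun x => Mt s x - (1 - s ^ 2) * I0 R ^ 2 * exp (2 * (x - R)) / 2 + x)
    (f' := fun x => nf s x - (1 - s ^ 2) * (I0 R ^ 2 * exp (2 * (x - R)))) hzR
    (fun x _ => by
      have h1 : HasDerivAt (fun x => 2 * (x - R)) 2 x := by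
        simpa using ((hasDerivAt_id x).sub_const R).const_mul 2
      have := ((hasDerivAt_Mt s x).sub
        ((h1.exp.const_mul ((1 - s ^ 2) * I0 R ^ 2)).div_const 2)).add (hasDerivAt_id x)
      refine this.congr_deriv ?_
      ring)
    (fun x hx => by
      have a := J_decay (hz.trans hx.1) hx.2
      have b := nf_ge s x
      have c := mul_le_mul_of_nonneg_left a (sub_nonneg.2 hs)
      linarith)
  simp only [sub_self, mul_zero, exp_zero, mul_one] at h
  linarith

lemma kappa_ge {R : ℝ} (hR : 0 < R) : pf R / R ≤ 1 - pf R ^ 2 := by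
  have h1 := pd_nonneg hR
  have e : Gf R / I0 R = pf R / R := by rw [← Gf_div R]; field_simp
  unfold pd at h1; linarith

lemma Tb_le {s : ℝ} (hs : 0 ≤ s) (hs1 : s ≤ 1) : Tb s ≤ 1.14 := by
  refine (Tb_mono hs hs1 le_rfl).trans ?_
  unfold Tb
  rw [max_eq_left (by norm_num)]; norm_num

theorem good_large {R : ℝ} (hR : 14 ≤ R) : Good R := by
  have hR0 : 0 < R := by linarith
  obtain ⟨q, hq⟩ : ∃ q : ℝ, q = 1 / R := ⟨_, rfl⟩
  have hq0 : 0 < q := by rw [hq]; positivity
  have hq1 : q ≤ 1 / 14 := by rw [hq]; exact one_div_le_one_div_of_le (by norm_num) hR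
  have hqR : q * R = 1 := by rw [hq]; field_simp
  obtain ⟨v, hv⟩ : ∃ v : ℝ, v = I0 R ^ 2 / R ^ 3 := ⟨_, rfl⟩
  have hJ : I0 R ^ 2 = v * R ^ 3 := by rw [hv]; field_simp
  have hv9 : 9 ≤ v := by
    have h1 := I0_ge R 3
    simp only [Finset.sum_range_succ, Finset.range_zero, Finset.sum_empty, c0, Nat.factorial] at h1
    norm_num at h1
    have h2 : R ^ 4 / 64 ≤ I0 R := by nlinarith [sq_nonneg R]
    have h3 : (R ^ 4 / 64) ^ 2 ≤ I0 R ^ 2 := pow_le_pow_left₀ (by positivity) h2 2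
    rw [hv, le_div_iff₀ (by positivity)]
    have h4 : (14 : ℝ) ^ 5 ≤ R ^ 5 := pow_le_pow_left₀ (by norm_num) hR 5
    have h5 : (R ^ 4 / 64) ^ 2 = R ^ 5 * R ^ 3 / 4096 := by ring
    have h6 : 0 < R ^ 3 := by positivity
    nlinarith
  have hp0 : 0.96 ≤ pf (R - 0.8) := pf_132.trans (pf_mono (by norm_num) (by linarith))
  have hσ : 0.96 ≤ pf R := hp0.trans (pf_mono (by linarith) (by linarith))
  have hσ1 := (pf_lt_one hR0.le).le
  have hκ : 0.96 * q ≤ 1 - pf R ^ 2 := by
    refine le_trans ?_ (kappa_ge hR0)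
    rw [hq, mul_one_div]; exact div_le_div_of_nonneg_right hσ hR0.le
  have hT := Tb_le (pf_nonneg hR0.le) hσ1
  have hvR : 126 ≤ v * R := by nlinarith
  have hvR2 : 14 * (v * R) ≤ v * R ^ 2 := by nlinarith
  have hD : 0.96 * (v * R ^ 2) ≤ Df R := by
    rw [Df_eq, hJ]
    have := mul_le_mul_of_nonneg_left hκ (by positivity : 0 ≤ v * R ^ 3)
    have e : v * R ^ 3 * (0.96 * q) = 0.96 * (v * R ^ 2) * (q * R) := by ring
    rw [e, hqR] at this; linarith
  have hE : Ef R * (2 * R - 1.6) ≤ v * R ^ 3 := by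
    have := vf_le (x := R) (by linarith)
    unfold vf at this
    rw [div_mul_eq_mul_div, div_le_one (pow_pos (I0_pos R) 2), hJ] at this
    exact this
  have hE0 := Ef_nonneg hR0.le
  have hE' : Ef R ≤ 0.531 * (v * R ^ 2) := by
    apply le_of_mul_le_mul_right _ (by linarith : 0 < 2 * R - 1.6)
    refine hE.trans ?_
    have : 0 ≤ v * R ^ 2 * (0.062 * R - 0.8496) := mul_nonneg (by positivity) (by linarith)
    nlinarith
  have ee : 2 * (R - 0.8 - R) = -1.6 := by ring
  refine ⟨10 / 33 * R ^ 2, by positivity,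
    by nlinarith [mul_le_mul_of_nonneg_left hσ (sq_nonneg R), sq_nonneg R], goodII_of (ν := 0.36 * (v * R))
    (z0 := R - 0.8) (tb := 0.25) (sp := 0.4 * q) (cp := 1.11) (sm := 0.8 * q) (b := 0.6 + 0.26 * v)
    (by linarith) (by linarith) (by positivity) ?_ ?_ (by norm_num) ?_ ?_ ?_ ?_ (by positivity)
    ?_ ?_ ?_⟩
  · have h1 := Mt_diff (s := pf R) (z := R - 0.8) (R := R) (by nlinarith [pf_nonneg hR0.le])
      (by linarith) (by linarith)
    rw [ee, mul_comm (1 - pf R ^ 2), ← Df_eq] at h1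
    have h2 := mul_le_mul hD (by linarith [exp_hi] : 0.7976 ≤ 1 - exp (-1.6)) (by norm_num)
      (by linarith [one_le_Df hR0.le])
    nlinarith
  · have h1 := J_decay (t := R - 0.8) (R := R) (by linarith) (by linarith)
    rw [ee] at h1
    have h2 := nf_ge (pf R) (R - 0.8)
    have h3 := mul_le_mul_of_nonneg_right h1 (by nlinarith : 0 ≤ 1 - pf R ^ 2)
    have h4 : I0 R ^ 2 * exp (-1.6) * (1 - pf R ^ 2) = Df R * exp (-1.6) := by rw [Df_eq]; ring
    have h5 := mul_le_mul hD exp_lo (by norm_num) (by linarith [one_le_Df hR0.le])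
    nlinarith
  · have h1 := vf_le (x := R - 0.8) (by linarith)
    rw [vf_eq] at h1
    have h2 := pd_nonneg (x := R - 0.8) (by linarith)
    have h3 : pd (R - 0.8) * (2 * R * pf R - 1) ≤ pd (R - 0.8) * (2 * R - 1) :=
      mul_le_mul_of_nonneg_left (by nlinarith) h2
    have h4 : 0.96 * q ≤ pf (R - 0.8) / R := by
      rw [hq, mul_one_div]; exact div_le_div_of_nonneg_right hp0 hR0.le
    have h5 : pd (R - 0.8) * (2 * R - 1) ≤ 1.2 * q := by
      apply le_of_mul_le_mul_right _ hR0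
      have : 0 ≤ pd (R - 0.8) * (0.4 * R ^ 2 - 4.76 * R + 3.072) :=
        mul_nonneg h2 (by nlinarith)
      nlinarith
    linarith
  · have h1 := mul_le_mul_of_nonneg_left hD hq0.le
    have e1 : q * (0.96 * (v * R ^ 2)) = 0.96 * (v * R) * (q * R) := by ring
    have e2 : q * (v * R) = v * (q * R) := by ring
    rw [hqR] at e1 e2
    nlinarith
  · apply le_of_mul_le_mul_right _ (by linarith : 0 < 2 * R - 1.6)
    have h1 := mul_le_mul_of_nonneg_right hD (by linarith : 0 ≤ 2 * R - 1.6)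
    have : 0 ≤ v * R ^ 2 * (0.1312 * R - 1.70496) := mul_nonneg (by positivity) (by linarith)
    nlinarith
  · nlinarith
  · have e2 : 0.36 * (v * R) * (0.8 * q) = 0.288 * v * (q * R) := by ring
    rw [e2, hqR]
    nlinarith
  · have e2 : 0.36 * (v * R) * (0.4 * q) = 0.144 * v * (q * R) := by ring
    rw [e2, hqR]
    nlinarith
  · have h1 : 0 ≤ (0.6 + 0.26 * v) * R := by positivity
    have h2 : R * 0.14 ≤ 0.01 * R ^ 2 := by nlinarith
    have h3 : 9 * R ^ 2 ≤ v * R ^ 2 := by nlinarith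
    have h4 := mul_le_mul_of_nonneg_left hT hR0.le
    linarith

theorem good_all {R : ℝ} (hR : 2.2 ≤ R) : Good R := by
  rcases lt_or_ge R 14 with h | h
  · exact good_mid hR h
  · exact good_large h

lemma pt2 : 2.279585 ≤ I0 2 ∧ I0 2 ≤ 2.279586 ∧ 1.590636 ≤ I1 2 ∧ I1 2 ≤ 1.590637 := by
  have := box (u := 2000) (by norm_num) (a := 2279585 / 1000000) (a' := 2279586 / 1000000)
    (b := 1590636 / 1000000) (b' := 1590637 / 1000000) (by decide +kernel)
  norm_num at this ⊢
  exact this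

lemma Ef_le_self {R : ℝ} (h0 : 0 ≤ R) (h : R ≤ 2.2) : Ef R ≤ R := by
  obtain ⟨a, b, c, d⟩ := pt22
  have h22 : Ef 2.2 ≤ 2.2 := by unfold Ef Df; nlinarith
  rcases le_total (I0 R * Gf R) 1 with h1 | h1
  · have := le_of_deriv (f := fun x => x - Ef x) (f' := fun x => 1 - I0 x * Gf x) h0
      (fun x _ => (hasDerivAt_id x).sub (hasDerivAt_Ef x)) (fun x hx => by
        have := mul_le_mul (I0_mono hx.1 hx.2) (Gf_mono hx.1 hx.2) (Gf_pos x).le (I0_pos R).le
        linarith)
    simp only [Ef_zero] at this; linarith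
  · have := le_of_deriv (f := fun x => Ef x - x) (f' := fun x => I0 x * Gf x - 1) h
      (fun x _ => (hasDerivAt_Ef x).sub (hasDerivAt_id x)) (fun x hx => by
        have := mul_le_mul (I0_mono h0 hx.1) (Gf_mono h0 hx.1) (Gf_pos R).le (I0_pos x).le
        linarith)
    linarith

/-- the one-dimensional alternative -/
theorem main_alt {R hb : ℝ} (hR : 0 < R) (hh : R ≤ hb) :
    (∃ w, 0 ≤ w ∧ w ≤ R ∧
      R ^ 2 + 2 * hb * (w * Df w - w - pf R * I0 w ^ 2) + w ^ 2 - 2 * w * Ef w ≤ 0) ∨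
    ∃ hc, hb ≤ hc ∧ GoodII R hc := by
  rcases le_total R 2.2 with h | h
  · left
    refine ⟨R, hR.le, le_rfl, ?_⟩
    have h1 := Ef_le_self hR.le h
    have e : R * Df R - R - pf R * I0 R ^ 2 = Ef R - R := by unfold Ef; rw [I1_eq R]; ring
    rw [e]
    nlinarith [mul_nonneg (sub_nonneg.2 hh) (sub_nonneg.2 h1)]
  · obtain ⟨hc, h0, h1, h2⟩ := good_all h
    rcases le_total hb hc with h3 | h3
    · exact Or.inr ⟨hc, h3, h2⟩
    left
    refine ⟨2, by norm_num, by linarith, ?_⟩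
    obtain ⟨a, b, c, d⟩ := pt2
    obtain ⟨a', b', c', d'⟩ := pt22
    have hσ : 0.7 ≤ pf R := by
      refine le_trans ?_ (pf_mono (by norm_num) h)
      unfold pf; rw [le_div_iff₀ (I0_pos _)]; linarith
    have k1 : 5.1965 ≤ I0 2 ^ 2 := by nlinarith
    have k2 : 2 * Df 2 - 2 ≤ 3.3328 := by unfold Df; nlinarith
    have k3 : 6.827 ≤ 4 * Ef 2 := by unfold Ef Df; nlinarith
    have k4 := mul_le_mul_of_nonneg_left k1 (by linarith : 0 ≤ pf R)
    have k5 : hb * (2 * Df 2 - 2 - pf R * I0 2 ^ 2) ≤ hb * (3.3328 - 5.1965 * pf R) :=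
      mul_le_mul_of_nonneg_left (by linarith) (by linarith)
    have k6 : hc * (5.1965 * pf R - 3.3328) ≤ hb * (5.1965 * pf R - 3.3328) :=
      mul_le_mul_of_nonneg_right h3 (by linarith)
    linarith

end Pool.Agent.P.MP_342f9e_an
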