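import Mathlib

set_option autoImplicit false

open Real Set Filter Topology

namespace Pool.Agent.P.MP_342f9e_an

noncomputable def PS (c : ℕ → ℝ) (z : ℝ) : ℝ := ∑' m, c m * z ^ m

def Small (c : ℕ → ℝ) : Prop := ∀ m, |c m| ≤ 1 / (m.factorial : ℝ)

def dc (c : ℕ → ℝ) (m : ℕ) : ℝ := (m + 1) * c (m + 1)

lemma Small.dc {c : ℕ → ℝ} (h : Small c) : Small (dc c) := by
  intro m
  have := h (m + 1)
  unfold Pool.Agent.P.MP_342f9e_an.dc
  rw [abs_mul, abs_of_nonneg (by positivity : (0 : ℝ) ≤ m + 1)]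
  rw [Nat.factorial_succ] at this
  push_cast at this
  have hf : (0 : ℝ) < m.factorial := by exact_mod_cast m.factorial_pos
  calc ((m : ℝ) + 1) * |c (m + 1)| ≤ (m + 1) * (1 / ((m + 1) * m.factorial)) := by gcongr
    _ = 1 / m.factorial := by field_simp

lemma Small.norm_le {c : ℕ → ℝ} (h : Small c) {z R : ℝ} (hz : |z| ≤ R) (m : ℕ) :
    ‖c m * z ^ m‖ ≤ R ^ m / m.factorial := by
  rw [Real.norm_eq_abs, abs_mul, abs_pow]
  calc |c m| * |z| ^ m ≤ (1 / m.factorial) * R ^ m := by gcongr; exact h m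
    _ = _ := by ring

lemma Small.summable {c : ℕ → ℝ} (h : Small c) (z : ℝ) : Summable fun m => c m * z ^ m :=
  .of_norm_bounded (Real.summable_pow_div_factorial |z|) (h.norm_le le_rfl)

lemma Small.hasDerivAt {c : ℕ → ℝ} (h : Small c) (z : ℝ) :
    HasDerivAt (PS c) (PS (Pool.Agent.P.MP_342f9e_an.dc c) z) z := by
  set R := |z| + 1 with hR
  have h1 := hasDerivAt_tsum_of_isPreconnected (u := fun m => R ^ m / m.factorial)
    (t := Ioo (-R) R) (g := fun m y => c (m + 1) * y ^ (m + 1))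
    (g' := fun m y => Pool.Agent.P.MP_342f9e_an.dc c m * y ^ m) (y₀ := z) (y := z)
    (Real.summable_pow_div_factorial R) isOpen_Ioo isPreconnected_Ioo
    (fun m y _ => by
      have := (hasDerivAt_pow (m + 1) y).const_mul (c (m + 1))
      refine this.congr_deriv ?_
      simp [Pool.Agent.P.MP_342f9e_an.dc]; ring)
    (fun m y hy => h.dc.norm_le (abs_le.2 ⟨hy.1.le, hy.2.le⟩) m)
    (by constructor <;> linarith [neg_abs_le z, le_abs_self z])
    ((summable_nat_add_iff 1).2 (h.summable z))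
    (by constructor <;> linarith [neg_abs_le z, le_abs_self z])
  have h2 : PS c = fun y => c 0 + ∑' m, c (m + 1) * y ^ (m + 1) := by
    funext y
    unfold PS
    rw [(h.summable y).tsum_eq_zero_add]; simp
  rw [h2]
  exact h1.const_add _

lemma Small.contDiff {c : ℕ → ℝ} (h : Small c) : ContDiff ℝ (⊤ : ℕ∞) (PS c) := by
  refine contDiff_infty.2 fun n => ?_
  induction n generalizing c with
  | zero => exact contDiff_zero.2 (continuous_iff_continuousAt.2 fun z =>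
      (h.hasDerivAt z).continuousAt)
  | succ n ih =>
    push_cast
    refine contDiff_succ_iff_deriv.2 ⟨fun z => (h.hasDerivAt z).differentiableAt, by simp, ?_⟩
    have : deriv (PS c) = PS (Pool.Agent.P.MP_342f9e_an.dc c) := by
      funext z; exact (h.hasDerivAt z).deriv
    rw [this]; exact ih h.dc

noncomputable def c0 (m : ℕ) : ℝ := 1 / (m.factorial * m.factorial)

noncomputable def c1 (m : ℕ) : ℝ := 1 / (m.factorial * (m + 1).factorial)

lemma c0_pos (m : ℕ) : 0 < c0 m := by unfold c0; positivity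

lemma c1_pos (m : ℕ) : 0 < c1 m := by unfold c1; positivity

lemma small_c0 : Small c0 := by
  intro m
  rw [abs_of_pos (c0_pos m)]; unfold c0
  have h1 : (1 : ℝ) ≤ m.factorial := by exact_mod_cast m.factorial_pos
  apply one_div_le_one_div_of_le (by linarith); nlinarith

lemma dc_c0 : dc c0 = c1 := by
  funext m; unfold dc c0 c1
  rw [Nat.factorial_succ]; push_cast
  have h1 : (0 : ℝ) < m.factorial := by exact_mod_cast m.factorial_pos
  field_simp

lemma small_c1 : Small c1 := dc_c0 ▸ small_c0.dc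

lemma mul_PS_dc_c1 (z : ℝ) : z * PS (dc c1) z = PS c0 z - PS c1 z := by
  unfold PS
  rw [← (small_c0.summable z).tsum_sub (small_c1.summable z),
    ((small_c0.summable z).sub (small_c1.summable z)).tsum_eq_zero_add, ← tsum_mul_left]
  have : c0 0 * z ^ 0 - c1 0 * z ^ 0 = 0 := by simp [c0, c1]
  rw [this, zero_add]
  congr 1; funext m
  unfold dc c0 c1
  rw [Nat.factorial_succ (m + 1)]; push_cast
  have h1 : (0 : ℝ) < (m + 1).factorial := by exact_mod_cast (m + 1).factorial_pos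
  field_simp; ring

/-- modified Bessel function of order zero -/
noncomputable def I0 (x : ℝ) : ℝ := PS c0 (x ^ 2 / 4)

noncomputable def Gf (x : ℝ) : ℝ := PS c1 (x ^ 2 / 4) / 2

/-- modified Bessel function of order one -/
noncomputable def I1 (x : ℝ) : ℝ := x * Gf x

lemma hasDerivAt_sq4 (x : ℝ) : HasDerivAt (fun x : ℝ => x ^ 2 / 4) (x / 2) x := by
  have := (hasDerivAt_pow 2 x).div_const 4
  refine this.congr_deriv ?_; simp; ring

lemma hasDerivAt_I0 (x : ℝ) : HasDerivAt I0 (I1 x) x := by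
  have := (small_c0.hasDerivAt (x ^ 2 / 4)).comp x (hasDerivAt_sq4 x)
  rw [dc_c0] at this
  refine this.congr_deriv ?_
  unfold I1 Gf; ring

lemma hasDerivAt_Gf (x : ℝ) : HasDerivAt Gf (x / 4 * PS (dc c1) (x ^ 2 / 4)) x := by
  have := ((small_c1.hasDerivAt (x ^ 2 / 4)).comp x (hasDerivAt_sq4 x)).div_const 2
  refine this.congr_deriv ?_
  ring

lemma mul_dGf (x : ℝ) : x * (x / 4 * PS (dc c1) (x ^ 2 / 4)) = I0 x - 2 * Gf x := by
  have := mul_PS_dc_c1 (x ^ 2 / 4)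
  unfold I0 Gf; linarith

lemma hasDerivAt_I1 (x : ℝ) : HasDerivAt I1 (I0 x - Gf x) x := by
  have := (hasDerivAt_id x).mul (hasDerivAt_Gf x)
  refine this.congr_deriv ?_
  have := mul_dGf x
  simp only [id]; linarith

lemma contDiff_I0 : ContDiff ℝ (⊤ : ℕ∞) I0 :=
  small_c0.contDiff.comp (by fun_prop)

@[fun_prop] lemma continuous_I0 : Continuous I0 :=
  continuous_iff_continuousAt.2 fun x => (hasDerivAt_I0 x).continuousAt

@[fun_prop] lemma continuous_Gf : Continuous Gf :=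
  continuous_iff_continuousAt.2 fun x => (hasDerivAt_Gf x).continuousAt

@[fun_prop] lemma continuous_I1 : Continuous I1 :=
  continuous_iff_continuousAt.2 fun x => (hasDerivAt_I1 x).continuousAt

lemma PS_ge {c : ℕ → ℝ} (h : Small c) (hp : ∀ m, 0 < c m) {z : ℝ} (hz : 0 ≤ z) (K : ℕ) :
    ∑ m ∈ Finset.range K, c m * z ^ m ≤ PS c z :=
  (h.summable z).sum_le_tsum _ fun m _ => mul_nonneg (hp m).le (pow_nonneg hz m)

lemma PS_le {c : ℕ → ℝ} (h : Small c) (hp : ∀ m, 0 < c m) {z : ℝ} (hz : 0 ≤ z) (K : ℕ)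
    (hr : ∀ m, K ≤ m → c (m + 1) * z ≤ c m / 2) :
    PS c z ≤ ∑ m ∈ Finset.range K, c m * z ^ m + 2 * (c K * z ^ K) := by
  unfold PS
  rw [← (h.summable z).sum_add_tsum_nat_add K]
  have h1 : ∀ m, c (m + K) * z ^ (m + K) ≤ c K * z ^ K * (1 / 2) ^ m := by
    intro m
    induction m with
    | zero => simp
    | succ m ih =>
      have a := hr (m + K) (by omega)
      have e : m + 1 + K = m + K + 1 := by ring
      rw [e, pow_succ, pow_succ]
      have b := mul_le_mul_of_nonneg_right a (pow_nonneg hz (m + K))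
      nlinarith
  have h2 := ((summable_nat_add_iff K).2 (h.summable z)).tsum_le_tsum h1
    (summable_geometric_two.mul_left _)
  rw [tsum_mul_left, tsum_geometric_two] at h2
  linarith

lemma PS_mono {c : ℕ → ℝ} (h : Small c) (hp : ∀ m, 0 < c m) {z w : ℝ} (hz : 0 ≤ z)
    (hzw : z ≤ w) : PS c z ≤ PS c w :=
  (h.summable z).tsum_le_tsum (fun m => mul_le_mul_of_nonneg_left (pow_le_pow_left₀ hz hzw m)
    (hp m).le) (h.summable w)

lemma c0_ratio {z : ℝ} (hz : 0 ≤ z) {K : ℕ} (hK : 2 * z ≤ (K + 1) ^ 2) (m : ℕ) (hm : K ≤ m) :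
    c0 (m + 1) * z ≤ c0 m / 2 := by
  have e : c0 (m + 1) = c0 m / (m + 1) ^ 2 := by
    unfold c0; rw [Nat.factorial_succ]; push_cast
    have h1 : (0 : ℝ) < m.factorial := by exact_mod_cast m.factorial_pos
    field_simp
  have hm' : (K : ℝ) ≤ m := by exact_mod_cast hm
  have hK0 : (0 : ℝ) ≤ K := Nat.cast_nonneg K
  have h2 : 2 * z ≤ ((m : ℝ) + 1) ^ 2 := by nlinarith
  rw [e, div_mul_eq_mul_div, div_le_div_iff₀ (by positivity) two_pos]
  nlinarith [c0_pos m]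

lemma c1_ratio {z : ℝ} (hz : 0 ≤ z) {K : ℕ} (hK : 2 * z ≤ (K + 1) ^ 2) (m : ℕ) (hm : K ≤ m) :
    c1 (m + 1) * z ≤ c1 m / 2 := by
  have e : c1 (m + 1) = c1 m / ((m + 1) * (m + 2)) := by
    unfold c1; rw [Nat.factorial_succ (m + 1), Nat.factorial_succ m]; push_cast
    have h1 : (0 : ℝ) < m.factorial := by exact_mod_cast m.factorial_pos
    field_simp; ring
  have hm' : (K : ℝ) ≤ m := by exact_mod_cast hm
  have hK0 : (0 : ℝ) ≤ K := Nat.cast_nonneg K
  have h2 : 2 * z ≤ ((m : ℝ) + 1) * (m + 2) := by nlinarith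
  rw [e, div_mul_eq_mul_div, div_le_div_iff₀ (by positivity) two_pos]
  nlinarith [c1_pos m]

lemma I0_ge (x : ℝ) (K : ℕ) : ∑ m ∈ Finset.range K, c0 m * (x ^ 2 / 4) ^ m ≤ I0 x :=
  PS_ge small_c0 c0_pos (by positivity) K

lemma I0_le (x : ℝ) (K : ℕ) (hK : 2 * (x ^ 2 / 4) ≤ (K + 1) ^ 2) :
    I0 x ≤ ∑ m ∈ Finset.range K, c0 m * (x ^ 2 / 4) ^ m + 2 * (c0 K * (x ^ 2 / 4) ^ K) :=
  PS_le small_c0 c0_pos (by positivity) K (c0_ratio (by positivity) hK)

lemma Gf_ge (x : ℝ) (K : ℕ) : (∑ m ∈ Finset.range K, c1 m * (x ^ 2 / 4) ^ m) / 2 ≤ Gf x := by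
  have := PS_ge small_c1 c1_pos (z := x ^ 2 / 4) (by positivity) K
  unfold Gf; linarith

lemma Gf_le (x : ℝ) (K : ℕ) (hK : 2 * (x ^ 2 / 4) ≤ (K + 1) ^ 2) :
    Gf x ≤ (∑ m ∈ Finset.range K, c1 m * (x ^ 2 / 4) ^ m + 2 * (c1 K * (x ^ 2 / 4) ^ K)) / 2 := by
  have := PS_le small_c1 c1_pos (z := x ^ 2 / 4) (by positivity) K (c1_ratio (by positivity) hK)
  unfold Gf; linarith

lemma one_le_I0 (x : ℝ) : 1 ≤ I0 x := by simpa [c0] using I0_ge x 1

lemma I0_pos (x : ℝ) : 0 < I0 x := by linarith [one_le_I0 x]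

lemma half_le_Gf (x : ℝ) : 1 / 2 ≤ Gf x := by simpa [c1] using Gf_ge x 1

lemma Gf_pos (x : ℝ) : 0 < Gf x := by linarith [half_le_Gf x]

lemma I0_zero : I0 0 = 1 := le_antisymm (by simpa [c0] using I0_le 0 1 (by norm_num)) (one_le_I0 0)

lemma I1_zero : I1 0 = 0 := by simp [I1]

lemma I1_nonneg {x : ℝ} (hx : 0 ≤ x) : 0 ≤ I1 x := mul_nonneg hx (Gf_pos x).le

lemma I0_mono {x y : ℝ} (hx : 0 ≤ x) (hxy : x ≤ y) : I0 x ≤ I0 y :=
  PS_mono small_c0 c0_pos (by positivity) (by nlinarith)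

lemma Gf_mono {x y : ℝ} (hx : 0 ≤ x) (hxy : x ≤ y) : Gf x ≤ Gf y := by
  have := PS_mono small_c1 c1_pos (z := x ^ 2 / 4) (w := y ^ 2 / 4) (by positivity) (by nlinarith)
  unfold Gf; linarith

lemma I1_mono {x y : ℝ} (hx : 0 ≤ x) (hxy : x ≤ y) : I1 x ≤ I1 y :=
  mul_le_mul hxy (Gf_mono hx hxy) (Gf_pos x).le (by linarith)

lemma le_of_deriv {f f' : ℝ → ℝ} {a b : ℝ} (hab : a ≤ b)
    (h : ∀ x ∈ Icc a b, HasDerivAt f (f' x) x) (h' : ∀ x ∈ Icc a b, 0 ≤ f' x) : f a ≤ f b := by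
  refine monotoneOn_of_deriv_nonneg (convex_Icc a b)
    (fun x hx => (h x hx).continuousAt.continuousWithinAt)
    (fun x hx => (h x (interior_subset hx)).differentiableAt.differentiableWithinAt)
    (fun x hx => ?_) (left_mem_Icc.2 hab) (right_mem_Icc.2 hab) hab
  rw [(h x (interior_subset hx)).deriv]
  exact h' x (interior_subset hx)

noncomputable def Df (x : ℝ) : ℝ := I0 x ^ 2 - I1 x ^ 2

noncomputable def Ef (x : ℝ) : ℝ := x * Df x - I0 x * I1 x

noncomputable def pf (x : ℝ) : ℝ := I1 x / I0 x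

noncomputable def pd (x : ℝ) : ℝ := 1 - pf x ^ 2 - Gf x / I0 x

noncomputable def nf (s x : ℝ) : ℝ := I0 x ^ 2 + I1 x ^ 2 - 2 * s * (I0 x * I1 x)

noncomputable def nd (s x : ℝ) : ℝ :=
  4 * I0 x * I1 x - 2 * I1 x * Gf x - 2 * s * (I0 x ^ 2 + I1 x ^ 2 - I0 x * Gf x)

noncomputable def Mt (s x : ℝ) : ℝ := x * Df x - s * (I0 x ^ 2 - 1) - x

noncomputable def Wf (x : ℝ) : ℝ := x * Ef x - x ^ 2 / 2

lemma hasDerivAt_J (x : ℝ) : HasDerivAt (fun x => I0 x ^ 2) (2 * (I0 x * I1 x)) x := by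
  have := (hasDerivAt_I0 x).pow 2
  refine this.congr_deriv ?_; simp; ring

lemma hasDerivAt_II (x : ℝ) :
    HasDerivAt (fun x => I0 x * I1 x) (I0 x ^ 2 + I1 x ^ 2 - I0 x * Gf x) x := by
  have := (hasDerivAt_I0 x).mul (hasDerivAt_I1 x)
  refine this.congr_deriv ?_; ring

lemma hasDerivAt_I1sq (x : ℝ) :
    HasDerivAt (fun x => I1 x ^ 2) (2 * I1 x * (I0 x - Gf x)) x := by
  have := (hasDerivAt_I1 x).pow 2
  refine this.congr_deriv ?_; simp

lemma hasDerivAt_Df (x : ℝ) : HasDerivAt Df (2 * I1 x * Gf x) x := by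
  have := (hasDerivAt_J x).sub (hasDerivAt_I1sq x)
  refine this.congr_deriv ?_; ring

lemma hasDerivAt_xD (x : ℝ) : HasDerivAt (fun x => x * Df x) (I0 x ^ 2 + I1 x ^ 2) x := by
  have := (hasDerivAt_id x).mul (hasDerivAt_Df x)
  refine this.congr_deriv ?_
  simp only [id, Df, I1]; ring

lemma hasDerivAt_Ef (x : ℝ) : HasDerivAt Ef (I0 x * Gf x) x := by
  have := (hasDerivAt_xD x).sub (hasDerivAt_II x)
  refine this.congr_deriv ?_; ring

lemma hasDerivAt_pf (x : ℝ) : HasDerivAt pf (pd x) x := by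
  have := (hasDerivAt_I1 x).div (hasDerivAt_I0 x) (I0_pos x).ne'
  refine this.congr_deriv ?_
  unfold pd pf
  have := I0_pos x
  field_simp; ring

lemma hasDerivAt_nf (s x : ℝ) : HasDerivAt (nf s) (nd s x) x := by
  have := ((hasDerivAt_J x).add (hasDerivAt_I1sq x)).sub ((hasDerivAt_II x).const_mul (2 * s))
  refine this.congr_deriv ?_; unfold nd; ring

lemma hasDerivAt_Mt (s x : ℝ) : HasDerivAt (Mt s) (nf s x - 1) x := by
  have := ((hasDerivAt_xD x).sub (((hasDerivAt_J x).sub_const 1).const_mul s)).sub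
    (hasDerivAt_id x)
  refine this.congr_deriv ?_; unfold nf; ring

lemma hasDerivAt_Wf (x : ℝ) : HasDerivAt Wf (x * Df x - x) x := by
  have := ((hasDerivAt_id x).mul (hasDerivAt_Ef x)).sub ((hasDerivAt_pow 2 x).div_const 2)
  refine this.congr_deriv ?_
  simp only [id, Ef, I1]; simp; ring

@[fun_prop] lemma continuous_Df : Continuous Df := by unfold Df; fun_prop

@[fun_prop] lemma continuous_Ef : Continuous Ef := by unfold Ef; fun_prop

@[fun_prop] lemma continuous_nf (s : ℝ) : Continuous (nf s) := by unfold nf; fun_prop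

@[fun_prop] lemma continuous_nd (s : ℝ) : Continuous (nd s) := by unfold nd; fun_prop

@[fun_prop] lemma continuous_Mt (s : ℝ) : Continuous (Mt s) := by unfold Mt; fun_prop

lemma continuous_pf : Continuous pf :=
  continuous_iff_continuousAt.2 fun x => (hasDerivAt_pf x).continuousAt

lemma Df_zero : Df 0 = 1 := by simp [Df, I0_zero, I1_zero]

lemma Ef_zero : Ef 0 = 0 := by simp [Ef, I1_zero]

lemma nf_zero (s : ℝ) : nf s 0 = 1 := by simp [nf, I0_zero, I1_zero]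

lemma Mt_zero (s : ℝ) : Mt s 0 = 0 := by simp [Mt, I0_zero]

lemma Wf_zero : Wf 0 = 0 := by simp [Wf]

lemma Df_mono {x y : ℝ} (hx : 0 ≤ x) (hxy : x ≤ y) : Df x ≤ Df y :=
  le_of_deriv hxy (fun t _ => hasDerivAt_Df t) fun t ht =>
    mul_nonneg (mul_nonneg two_pos.le (I1_nonneg (hx.trans ht.1))) (Gf_pos t).le

lemma one_le_Df {x : ℝ} (hx : 0 ≤ x) : 1 ≤ Df x := Df_zero ▸ Df_mono le_rfl hx

lemma Ef_mono {x y : ℝ} (hxy : x ≤ y) : Ef x ≤ Ef y :=
  le_of_deriv hxy (fun t _ => hasDerivAt_Ef t) fun t _ => (mul_pos (I0_pos t) (Gf_pos t)).le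

lemma Ef_nonneg {x : ℝ} (hx : 0 ≤ x) : 0 ≤ Ef x := Ef_zero ▸ Ef_mono hx

lemma I1_lt_I0 {x : ℝ} (hx : 0 ≤ x) : I1 x < I0 x := by
  have h1 := one_le_Df hx
  unfold Df at h1
  nlinarith [I0_pos x, I1_nonneg hx]

lemma pf_nonneg {x : ℝ} (hx : 0 ≤ x) : 0 ≤ pf x := div_nonneg (I1_nonneg hx) (I0_pos x).le

lemma pf_lt_one {x : ℝ} (hx : 0 ≤ x) : pf x < 1 := (div_lt_one (I0_pos x)).2 (I1_lt_I0 hx)

lemma I1_eq (x : ℝ) : I1 x = pf x * I0 x := by
  unfold pf; field_simp [(I0_pos x).ne']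

lemma Ef_eq (x : ℝ) : Ef x = x * pd x * I0 x ^ 2 := by
  have := I0_pos x
  unfold Ef pd pf Df I1; field_simp

lemma Gf_div (x : ℝ) : x * (Gf x / I0 x) = pf x := by unfold pf I1; ring

lemma pd_nonneg {x : ℝ} (hx : 0 < x) : 0 ≤ pd x := by
  have h := Ef_nonneg hx.le
  rw [Ef_eq] at h
  have h2 : 0 < I0 x ^ 2 := pow_pos (I0_pos x) 2
  exact nonneg_of_mul_nonneg_right (nonneg_of_mul_nonneg_left h h2) hx

lemma pd_nonneg' {x : ℝ} (hx : 0 ≤ x) : 0 ≤ pd x := by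
  rcases hx.eq_or_lt with h | h
  · subst h
    have := Gf_le 0 1 (by norm_num)
    simp [c1] at this
    simp [pd, pf, I1_zero, I0_zero]; linarith
  · exact pd_nonneg h

lemma pf_mono {x y : ℝ} (hx : 0 ≤ x) (hxy : x ≤ y) : pf x ≤ pf y :=
  le_of_deriv hxy (fun t _ => hasDerivAt_pf t) fun _ ht => pd_nonneg' (hx.trans ht.1)

end Pool.Agent.P.MP_342f9e_an
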