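import Pool.Agent.P.MP_342f9e_an.Num

set_option autoImplicit false

open Real Set Filter Topology MeasureTheory

namespace Pool.Agent.P.MP_342f9e_an

lemma barrier {f f' : ℝ → ℝ} {a : ℝ} (h : ∀ x, a ≤ x → HasDerivAt f (f' x) x) (ha : 0 ≤ f a)
    (hb : ∀ x, a ≤ x → f x = 0 → 0 < f' x) {x : ℝ} (hx : a ≤ x) : 0 ≤ f x := by
  have := image_le_of_deriv_right_lt_deriv_boundary (f := fun x => - f x) (f' := fun x => - f' x)
    (a := a) (b := x) (B := fun _ => 0) (B' := fun _ => 0)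
    (fun t ht => (h t ht.1).neg.continuousAt.continuousWithinAt)
    (fun t ht => (h t ht.1).neg.hasDerivWithinAt) (by simpa using ha)
    (fun t => hasDerivAt_const t 0)
    (fun t ht h0 => by simpa using hb t ht.1 (by simpa using h0)) (x := x) ⟨hx, le_rfl⟩
  simpa using this

noncomputable def vf (x : ℝ) : ℝ := Ef x / I0 x ^ 2

lemma vf_eq (x : ℝ) : vf x = x * pd x := by
  unfold vf; rw [Ef_eq]; field_simp [(I0_pos x).ne']

lemma hasDerivAt_vf (x : ℝ) : HasDerivAt vf (Gf x / I0 x - 2 * pf x * vf x) x := by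
  have := (hasDerivAt_Ef x).div (hasDerivAt_J x) (pow_pos (I0_pos x) 2).ne'
  refine this.congr_deriv ?_
  have := I0_pos x
  unfold vf pf; field_simp

lemma pf_one : 0.446 ≤ pf 1 := by
  obtain ⟨a, b, c, d⟩ := pt1
  unfold pf; rw [le_div_iff₀ (I0_pos 1)]; linarith

lemma pd_one : 0.35 ≤ pd 1 ∧ pd 1 ≤ 0.355 := by
  obtain ⟨a, b, c, d⟩ := pt1
  have h1 : 0.4463 ≤ pf 1 := by unfold pf; rw [le_div_iff₀ (I0_pos 1)]; linarith
  have h2 : pf 1 ≤ 0.4465 := by unfold pf; rw [div_le_iff₀ (I0_pos 1)]; linarith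
  have h3 := Gf_div 1
  unfold pd
  constructor <;> nlinarith

lemma concave_aux {x : ℝ} (hx : 1 ≤ x) : 0 ≤ 2 * x * pf x * vf x + vf x - pf x := by
  refine barrier (f := fun x => 2 * x * pf x * vf x + vf x - pf x) (a := 1)
    (f' := fun x => 2 * pf x * vf x + 2 * x * pd x * vf x
      + (2 * x * pf x + 1) * (Gf x / I0 x - 2 * pf x * vf x) - pd x) (fun x _ => ?_) ?_ ?_ hx
  · have := ((((hasDerivAt_id x).const_mul 2).mul (hasDerivAt_pf x)).mul (hasDerivAt_vf x)).add
      (hasDerivAt_vf x) |>.sub (hasDerivAt_pf x)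
    refine this.congr_deriv ?_
    simp only [id, Pi.mul_apply]; ring
  · have h1 := pf_one
    have h2 := pd_one.1
    have h3 := pf_lt_one (x := 1) zero_le_one
    have h4 : pf 1 ≤ 0.4465 := by
      obtain ⟨a, b, c, d⟩ := pt1
      unfold pf; rw [div_le_iff₀ (I0_pos 1)]; linarith
    simp only [vf_eq]; nlinarith
  · intro x hx h0
    have hp : 0 < pf x := by linarith [pf_one, pf_mono zero_le_one hx]
    have hq := Gf_div x
    have hv := vf_eq x
    set p := pf x
    set v := vf x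
    set q := Gf x / I0 x
    set d := pd x
    have hx0 : 0 < x := by linarith
    have hv0 : 0 < v := by
      by_contra hn
      push Not at hn
      nlinarith [mul_nonneg (mul_pos hx0 hp).le (neg_nonneg.2 hn)]
    have e1 : q - d = 2 * p * v := by
      apply mul_left_cancel₀ hx0.ne'
      linear_combination hq + hv - h0
    have e2 : (2 * x * p + 1) * (q - 2 * p * v) = q := by
      linear_combination 2 * p * hq - 2 * p * h0
    have e3 : 2 * x * d * v = 2 * v ^ 2 := by rw [hv]; ring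
    rw [e2, e3]
    nlinarith [mul_pos hp hv0]

lemma pd_anti {x y : ℝ} (hx : 1 ≤ x) (hxy : x ≤ y) : pd y ≤ pd x := by
  have h := le_of_deriv (f := fun t => -(vf t / t))
    (f' := fun t => (2 * t * pf t * vf t + vf t - pf t) / t ^ 2) hxy (fun t ht => ?_)
    (fun t ht => div_nonneg (concave_aux (hx.trans ht.1)) (sq_nonneg t))
  · simp only [vf_eq] at h
    rw [mul_div_cancel_left₀ _ (by linarith), mul_div_cancel_left₀ _ (by linarith)] at h
    linarith
  · have ht0 : t ≠ 0 := by linarith [ht.1]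
    have := ((hasDerivAt_vf t).div (hasDerivAt_id t) ht0).neg
    refine this.congr_deriv ?_
    have hq := Gf_div t
    simp only [id]
    rw [← neg_div]; congr 1
    linear_combination (-1 : ℝ) * hq

lemma pf_sub_le {x y : ℝ} (hx : 1 ≤ x) (hxy : x ≤ y) : pf y - pf x ≤ (y - x) * pd x := by
  have h := le_of_deriv (f := fun t => t * pd x - pf t) (f' := fun t => pd x - pd t) hxy
    (fun t _ => by
      have := ((hasDerivAt_id t).mul_const (pd x)).sub (hasDerivAt_pf t)
      exact this.congr_deriv (by ring))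
    (fun t ht => sub_nonneg.2 (pd_anti hx ht.1))
  linarith

lemma II_deriv_nonneg (x : ℝ) (hx : 0 ≤ x) : 0 ≤ I0 x ^ 2 + I1 x ^ 2 - I0 x * Gf x := by
  have h1 := pd_nonneg' hx
  have h2 := I0_pos x
  have h3 : Gf x / I0 x ≤ 1 := by unfold pd at h1; nlinarith [sq_nonneg (pf x)]
  rw [div_le_one h2] at h3
  nlinarith [sq_nonneg (I1 x)]

lemma nd_anti {s t x : ℝ} (hx : 0 ≤ x) (hst : s ≤ t) : nd t x ≤ nd s x := by
  have := II_deriv_nonneg x hx
  unfold nd; nlinarith

lemma nd_nonneg {s x : ℝ} (hs : s ≤ 1) (hx : 1.6 ≤ x) : 0 ≤ nd s x := by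
  have h1 : 0 ≤ I1 x + Gf x - I0 x := by
    refine barrier (f := fun x => I1 x + Gf x - I0 x) (a := 1.6)
      (f' := fun x => I0 x - Gf x + x / 4 * PS (dc c1) (x ^ 2 / 4) - I1 x) (fun x _ => ?_) ?_ ?_ hx
    · exact ((hasDerivAt_I1 x).add (hasDerivAt_Gf x)).sub (hasDerivAt_I0 x)
    · obtain ⟨a, b, c, d⟩ := pt16
      have : I1 1.6 = 1.6 * Gf 1.6 := rfl
      linarith
    · intro x hx h0
      have e := mul_dGf x
      have e1 : I1 x = x * Gf x := rfl
      have hg := Gf_pos x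
      have hx0 : 0 < x := by linarith
      have : x * (I0 x - Gf x + x / 4 * PS (dc c1) (x ^ 2 / 4) - I1 x) = (x - 1) * Gf x := by
        linear_combination e - (x + 1) * h0 + e1
      have h2 : 0 < (x - 1) * Gf x := mul_pos (by linarith) hg
      rw [← this] at h2
      exact (mul_pos_iff_of_pos_left hx0).1 h2
  have h2 := I1_lt_I0 (x := x) (by linarith)
  refine le_trans ?_ (nd_anti (by linarith) hs)
  have : nd 1 x = 2 * (I0 x - I1 x) * (I1 x + Gf x - I0 x) := by unfold nd; ring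
  rw [this]
  exact mul_nonneg (by linarith) h1

lemma nd_mid {x : ℝ} (hx : 1 ≤ x) : 0 ≤ nd 0.885 x := by
  have hp : 0.446 ≤ pf x := pf_one.trans (pf_mono zero_le_one hx)
  have hd := (pd_anti le_rfl hx).trans pd_one.2
  have hd0 := pd_nonneg' (x := x) (by linarith)
  have h0 := I0_pos x
  have e : nd 0.885 x = 2 * I0 x ^ 2 * (pf x * (1 + pf x ^ 2 - 2 * 0.885 * pf x)
      - (0.885 - pf x) * pd x) := by
    unfold nd pd pf; field_simp; ring
  rw [e]
  refine mul_nonneg (by positivity) ?_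
  set p := pf x
  have h1 : 0 ≤ 1 + p ^ 2 - 2 * 0.885 * p := by nlinarith [sq_nonneg (p - 0.885)]
  rcases le_total p 0.885 with h | h
  · have : (0.885 - p) * pd x ≤ (0.885 - p) * 0.355 := mul_le_mul_of_nonneg_left hd (by linarith)
    nlinarith [mul_nonneg (sub_nonneg.2 hp) (sq_nonneg (p - 0.66))]
  · nlinarith [mul_nonneg (sub_nonneg.2 h) hd0, mul_nonneg (by linarith : 0 ≤ p) h1]

lemma nd_mid' {s x : ℝ} (hx : 1 ≤ x) (hx' : x ≤ 1.6) : -(7.1 * max (s - 0.885) 0) ≤ nd s x := by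
  rcases le_total s 0.885 with h | h
  · rw [max_eq_right (by linarith)]
    have := (nd_mid hx).trans (nd_anti (by linarith) h)
    linarith
  · rw [max_eq_left (by linarith)]
    have h1 := nd_mid hx
    obtain ⟨a, b, c, d⟩ := pt1
    obtain ⟨a', b', c', d'⟩ := pt16
    have i0 := I0_mono (by linarith) hx'
    have i1 := I1_mono (by linarith) hx'
    have i2 := I0_mono zero_le_one hx
    have i3 := Gf_mono zero_le_one hx
    have i4 : I1 1 = Gf 1 := by simp [I1]
    have i5 := I1_nonneg (x := x) (by linarith)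
    have hA : I0 x ^ 2 + I1 x ^ 2 - I0 x * Gf x ≤ 3.55 := by nlinarith
    have e : nd s x = nd 0.885 x - 2 * (s - 0.885) * (I0 x ^ 2 + I1 x ^ 2 - I0 x * Gf x) := by
      unfold nd; ring
    nlinarith

lemma nd_small {s x : ℝ} (hs : 0 ≤ s) (hx : 0 ≤ x) (hx' : x ≤ 1) :
    (3 / 2 - 0.72 * s ^ 2) * x - s ≤ nd s x := by
  have hz0 : 0 ≤ x ^ 2 := sq_nonneg x
  have hz1 : x ^ 2 ≤ 1 := by nlinarith
  have a0 := I0_ge x 3
  have a1 := I0_le x 3 (by push_cast; linarith)
  have g0 := Gf_ge x 3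
  have g1 := Gf_le x 3 (by push_cast; linarith)
  simp only [Finset.sum_range_succ, Finset.range_zero, Finset.sum_empty, c0, c1,
    Nat.factorial] at a0 a1 g0 g1
  have e1 : I1 x = x * Gf x := rfl
  have e : nd s x = x * (4 * Gf x * I0 x - 2 * Gf x ^ 2)
      - s * (2 * I0 x ^ 2 + 2 * x ^ 2 * Gf x ^ 2 - 2 * I0 x * Gf x) := by
    unfold nd; rw [e1]; ring
  rw [e]
  generalize I0 x = a at *
  generalize Gf x = g at *
  generalize hz : x ^ 2 = z at *
  have zz : 0 ≤ z ^ 2 := sq_nonneg z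
  have z30 : 0 ≤ z ^ 3 := by positivity
  have z40 : 0 ≤ z ^ 4 := by positivity
  have z2 : z ^ 2 ≤ z := by linarith [mul_le_mul_of_nonneg_left hz1 hz0]
  have z3 : z ^ 3 ≤ z ^ 2 := by linarith [mul_le_mul_of_nonneg_left hz1 zz]
  have z4 : z ^ 4 ≤ z ^ 2 := by linarith [mul_le_mul_of_nonneg_left hz1 z30]
  have z5 : z ^ 5 ≤ z ^ 2 := by linarith [mul_le_mul_of_nonneg_left hz1 z40]
  have A0 : 1 + z / 4 + z ^ 2 / 64 ≤ a := by norm_num at a0; linarith
  have A1 : a ≤ 1 + z / 4 + z ^ 2 / 60 := by norm_num at a1; linarith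
  have G0 : 1 / 2 + z / 16 + z ^ 2 / 384 ≤ g := by norm_num at g0; linarith
  have G1 : g ≤ 1 / 2 + z / 16 + z ^ 2 / 365 := by norm_num at g1; linarith
  clear a0 a1 g0 g1 e e1
  have hB : 3 / 2 + 5 / 8 * z + 11 / 128 * z ^ 2 ≤ 4 * g * a - 2 * g ^ 2 := by
    have t1 : g * (1 + z / 4 + z ^ 2 / 64) ≤ g * a := mul_le_mul_of_nonneg_left A0 (by linarith)
    have t2 : 0 ≤ (g - (1 / 2 + z / 16)) * (4 * (1 + z / 4 + z ^ 2 / 64) - 2 * g
        - 2 * (1 / 2 + z / 16)) := mul_nonneg (by linarith) (by linarith)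
    linarith
  have hA : 2 * a ^ 2 + 2 * z * g ^ 2 - 2 * a * g ≤ 1 + 9 / 8 * z + 3 / 10 * z ^ 2 := by
    have t1 : 0 ≤ ((1 + z / 4 + z ^ 2 / 60) - a) * (2 * (1 + z / 4 + z ^ 2 / 60) + 2 * a - 2 * g) :=
      mul_nonneg (by linarith) (by linarith)
    have t2 : (1 + z / 4 + z ^ 2 / 60) * (1 / 2 + z / 16 + z ^ 2 / 384)
        ≤ (1 + z / 4 + z ^ 2 / 60) * g := mul_le_mul_of_nonneg_left G0 (by linarith)
    have t3 : g ^ 2 ≤ (1 / 2 + z / 16 + z ^ 2 / 365) ^ 2 :=
      pow_le_pow_left₀ (by linarith) G1 2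
    have t4 := mul_le_mul_of_nonneg_left t3 hz0
    linarith
  have t1 := mul_le_mul_of_nonneg_left hB hx
  have t2 := mul_le_mul_of_nonneg_left hA hs
  have key : s * x * (9 / 8 + 3 / 10 * z) ≤ 0.72 * s ^ 2 + z * (5 / 8 + 11 / 128 * z) := by
    have q : 0 ≤ (1.44 * s - x * (9 / 8 + 3 / 10 * z)) ^ 2 := sq_nonneg _
    have q2 : (x * (9 / 8 + 3 / 10 * z)) ^ 2 ≤ 2.88 * (z * (5 / 8 + 11 / 128 * z)) := by
      rw [mul_pow, hz]; linarith
    linarith
  have t3 := mul_le_mul_of_nonneg_left key hx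
  have t4 : x * (s * x * (9 / 8 + 3 / 10 * z)) = s * (9 / 8 * z + 3 / 10 * z ^ 2) := by
    rw [← hz]; ring
  linarith

/-- bound for the total decrease of `nf s` -/
noncomputable def Tb (s : ℝ) : ℝ := s ^ 2 / (2 * (3 / 2 - 0.72 * s ^ 2)) + 4.3 * max (s - 0.885) 0

lemma integral_neg_nd {s T : ℝ} (hs : 0 ≤ s) (hs1 : s ≤ 1) (hT : 0 ≤ T) :
    ∫ t in (0 : ℝ)..T, max (-nd s t) 0 ≤ Tb s := by
  have hc : Continuous fun t => max (-nd s t) 0 := by fun_prop
  have hi : ∀ a b, IntervalIntegrable (fun t => max (-nd s t) 0) volume a b :=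
    fun a b => hc.intervalIntegrable a b
  obtain ⟨l, hl⟩ : ∃ l, l = 3 / 2 - 0.72 * s ^ 2 := ⟨_, rfl⟩
  have hl0 : 0 < l := by nlinarith
  have hsm : ∀ x, 0 ≤ x → x ≤ 1 → l * x - s ≤ nd s x := fun x h1 h2 => hl ▸ nd_small hs h1 h2
  have h0 : ∫ t in (0 : ℝ)..T, max (-nd s t) 0 ≤ ∫ t in (0 : ℝ)..(T + 2), max (-nd s t) 0 := by
    rw [← intervalIntegral.integral_add_adjacent_intervals (hi 0 T) (hi T (T + 2))]
    have := intervalIntegral.integral_nonneg (μ := volume) (f := fun t => max (-nd s t) 0)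
      (by linarith : T ≤ T + 2) (fun t _ => le_max_right _ _)
    linarith
  rw [← intervalIntegral.integral_add_adjacent_intervals (hi 0 1) (hi 1 (T + 2)),
    ← intervalIntegral.integral_add_adjacent_intervals (hi 1 1.6) (hi 1.6 (T + 2))] at h0
  have h3 : ∫ t in (1.6 : ℝ)..(T + 2), max (-nd s t) 0 ≤ 0 := by
    have := intervalIntegral.integral_mono_on (by linarith : (1.6 : ℝ) ≤ T + 2) (hi _ _)
      (intervalIntegrable_const (c := (0 : ℝ)))
      (fun t ht => max_le (by linarith [nd_nonneg hs1 ht.1]) le_rfl)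
    simpa using this
  have h2 : ∫ t in (1 : ℝ)..1.6, max (-nd s t) 0 ≤ 4.3 * max (s - 0.885) 0 := by
    have hm : 0 ≤ max (s - 0.885) 0 := le_max_right _ _
    have := intervalIntegral.integral_mono_on (by norm_num : (1 : ℝ) ≤ 1.6) (hi _ _)
      (intervalIntegrable_const (c := 7.1 * max (s - 0.885) 0))
      (fun t ht => max_le (by linarith [nd_mid' (s := s) ht.1 ht.2]) (by positivity))
    rw [intervalIntegral.integral_const, smul_eq_mul] at this
    linarith
  have lin : ∀ b, 0 ≤ b → b ≤ 1 → l * b ≤ s →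
      ∫ t in (0 : ℝ)..b, max (-nd s t) 0 ≤ s ^ 2 / (2 * l) := by
    intro b hb0 hb1 hb
    have := intervalIntegral.integral_mono_on hb0 (hi _ _)
      ((by fun_prop : Continuous fun t : ℝ => s - l * t).intervalIntegrable 0 b)
      (fun t ht => max_le (by linarith [hsm t ht.1 (ht.2.trans hb1)])
        (by nlinarith [ht.2]))
    rw [intervalIntegral.integral_sub intervalIntegrable_const
      ((by fun_prop : Continuous fun t : ℝ => l * t).intervalIntegrable 0 b),
      intervalIntegral.integral_const_mul, integral_id, intervalIntegral.integral_const] at this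
    refine this.trans ?_
    rw [le_div_iff₀ (by positivity), smul_eq_mul]
    nlinarith [sq_nonneg (s - l * b)]
  have h1 : ∫ t in (0 : ℝ)..1, max (-nd s t) 0 ≤ s ^ 2 / (2 * l) := by
    rcases le_total l s with h | h
    · exact lin 1 zero_le_one le_rfl (by linarith)
    · have hb0 : 0 ≤ s / l := by positivity
      have hb1 : s / l ≤ 1 := (div_le_one hl0).2 h
      have e : l * (s / l) = s := by field_simp
      rw [← intervalIntegral.integral_add_adjacent_intervals (hi 0 (s / l)) (hi (s / l) 1)]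
      have a := lin (s / l) hb0 hb1 e.le
      have b := intervalIntegral.integral_mono_on hb1 (hi _ _)
        (intervalIntegrable_const (c := (0 : ℝ)))
        (fun t ht => max_le (by
          have := hsm t (hb0.trans ht.1) ht.2
          nlinarith [ht.1]) le_rfl)
      simp only [intervalIntegral.integral_zero] at b
      linarith
  unfold Tb
  rw [← hl]
  linarith

lemma vf_le {x : ℝ} (hx : 5 ≤ x) : vf x * (2 * x - 1.6) ≤ 1 := by
  obtain ⟨a, b, c, d⟩ := pt5
  have hp5 : 0.89 ≤ pf 5 := by unfold pf; rw [le_div_iff₀ (I0_pos 5)]; linarith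
  have := barrier (f := fun x => 1 - vf x * (2 * x - 1.6)) (a := 5)
    (f' := fun x => -((Gf x / I0 x - 2 * pf x * vf x) * (2 * x - 1.6) + vf x * 2))
    (fun x _ => ?_) ?_ ?_ hx
  · linarith
  · have := ((hasDerivAt_vf x).mul (((hasDerivAt_id x).const_mul 2).sub_const 1.6)).const_sub 1
    refine this.congr_deriv ?_
    simp only [id]; ring
  · have h1 : vf 5 ≤ 0.119 := by
      unfold vf Ef Df
      rw [div_le_iff₀ (pow_pos (I0_pos 5) 2)]
      nlinarith
    nlinarith
  · intro x hx h0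
    have hp : 0.89 ≤ pf x := hp5.trans (pf_mono (by norm_num) hx)
    have hq := Gf_div x
    set p := pf x
    set v := vf x
    set q := Gf x / I0 x
    have hx0 : 0 < x := by linarith
    have hw : 0 < 2 * x - 1.6 := by linarith
    have e : x * (2 * x - 1.6) * -((q - 2 * p * v) * (2 * x - 1.6) + v * 2)
        = 1.6 * p * (2 * x - 1.6) - 2 * x := by
      linear_combination (-(2 * x - 1.6) ^ 2) * hq - (2 * p * x * (2 * x - 1.6) - 2 * x) * h0
    have h2 : 0 < 1.6 * p * (2 * x - 1.6) - 2 * x := by nlinarith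
    rw [← e] at h2
    exact (mul_pos_iff_of_pos_left (mul_pos hx0 hw)).1 h2

end Pool.Agent.P.MP_342f9e_an
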