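import Pool.Agent.P.MP_342f9e_an.Check

set_option autoImplicit false

namespace Pool.Agent.P.MP_342f9e_an

lemma chain0 : chain 2200
   [(2265, 1725), (2315, 1765), (2365, 1815), (2415, 1865), (2465, 1890), (2505, 1940), (2545,
    1980), (2585, 1995), (2625, 2035), (2665, 2075), (2697, 2090), (2729, 2122), (2761, 2154),
    (2793, 2186), (2825, 2193), (2857, 2225), (2889, 2257), (2914, 2289), (2939, 2314), (2964,
    2314), (2989, 2339), (3014, 2364), (3039, 2389), (3064, 2414), (3089, 2439), (3114, 2439),
    (3139, 2464), (3164, 2489), (3189, 2514), (3214, 2539), (3239, 2564), (3264, 2564), (3289,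
    2589), (3314, 2614), (3339, 2639), (3364, 2664), (3389, 2689), (3414, 2689), (3439, 2714),
    (3464, 2739), (3489, 2764)]
    3489 = true := by decide +kernel

lemma chain1 : chain 3489
   [(3514, 2789), (3539, 2814), (3564, 2839), (3589, 2864), (3614, 2889), (3639, 2914), (3664,
    2939), (3689, 2964), (3714, 2989), (3739, 3014), (3771, 3039), (3803, 3021), (3835, 3053),
    (3867, 3085), (3899, 3117), (3931, 3149), (3963, 3181), (4003, 3213), (4043, 3253), (4083,
    3293), (4123, 3333), (4163, 3373), (4203, 3413), (4243, 3403), (4283, 3443), (4333, 3483),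
    (4383, 3533), (4433, 3583), (4483, 3633), (4533, 3683), (4583, 3733), (4633, 3783), (4683,
    3833), (4733, 3833), (4783, 3883), (4848, 3933), (4913, 3998), (4978, 4063), (5043, 4128),
    (5108, 4193), (5173, 4258)]
    5173 = true := by decide +kernel

lemma chain2 : chain 5173
   [(5238, 4323), (5303, 4388), (5368, 4403), (5448, 4468), (5528, 4548), (5608, 4628), (5688,
    4708), (5768, 4788), (5848, 4868), (5928, 4948), (6008, 5028), (6088, 5058), (6168, 5138),
    (6248, 5218), (6348, 5298), (6448, 5398), (6548, 5498), (6648, 5598), (6748, 5698), (6848,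
    5798), (6948, 5848), (7048, 5948), (7148, 6048), (7248, 6148), (7348, 6248), (7448, 6348),
    (7548, 6448), (7648, 6548), (7748, 6648), (7848, 6748), (7948, 6848), (8048, 6948), (8148,
    7048), (8248, 7148), (8348, 7248), (8448, 7348), (8548, 7448), (8678, 7548), (8808, 7678),
    (8938, 7808), (9068, 7938)]
    9068 = true := by decide +kernel

lemma chain3 : chain 9068
   [(9198, 8068), (9328, 8198), (9458, 8328), (9588, 8458), (9718, 8588), (9848, 8718), (9978,
    8848), (10108, 8978), (10238, 9108), (10368, 9238), (10498, 9368), (10628, 9498), (10758,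
    9628), (10888, 9758), (11018, 9888), (11148, 10018), (11278, 10148), (11408, 10278), (11538,
    10408), (11668, 10538), (11798, 10668), (11928, 10798), (12058, 10928), (12188, 11058),
    (12318, 11188), (12448, 11318), (12578, 11448), (12708, 11578), (12838, 11708), (12968,
    11838), (13098, 11968), (13228, 12098), (13358, 12228), (13488, 12358), (13618, 12488),
    (13748, 12618), (13878, 12748), (14008, 12878)]
    14000 = true := by decide +kernel

theorem good_mid {R : ℝ} (h1 : 2.2 ≤ R) (h2 : R < 14) : Good R := by
  rcases lt_or_ge R ((3489 : ℕ) / 1000) with g0 | g0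
  · exact good_of_chain chain0 (by push_cast; linarith) g0
  rcases lt_or_ge R ((5173 : ℕ) / 1000) with g1 | g1
  · exact good_of_chain chain1 g0 g1
  rcases lt_or_ge R ((9068 : ℕ) / 1000) with g2 | g2
  · exact good_of_chain chain2 g1 g2
  exact good_of_chain chain3 g2 (by push_cast; linarith)

end Pool.Agent.P.MP_342f9e_an
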