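import Pool.Agent.P.MP_342f9e_an.OneD

set_option autoImplicit false

open Real Set

namespace Pool.Agent.P.MP_342f9e_an

def Good (R : ℝ) : Prop :=
  ∃ hc : ℝ, 0 ≤ hc ∧ R ^ 2 - 2.827 ≤ hc * (2 * (5.1965 * pf R - 3.3328)) ∧ GoodII R hc

lemma Tb_mono {s t : ℝ} (hs : 0 ≤ s) (hst : s ≤ t) (ht : t ≤ 1) : Tb s ≤ Tb t := by
  unfold Tb
  have h1 : s ^ 2 ≤ t ^ 2 := by nlinarith
  have h2 : t ^ 2 ≤ 1 := by nlinarith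
  have h3 : max (s - 0.885) 0 ≤ max (t - 0.885) 0 := max_le_max (by linarith) le_rfl
  have h4 : s ^ 2 / (2 * (3 / 2 - 0.72 * s ^ 2)) ≤ t ^ 2 / (2 * (3 / 2 - 0.72 * t ^ 2)) :=
    div_le_div₀ (sq_nonneg _) h1 (by linarith) (by linarith)
  linarith

theorem good_of_bounds {R R1 R2 z0 ν a1 a1' b1 b1' a2 a2' b2 b2' a0 a0' b0 b0' s1 s2 T p0 tb sp
    cp sm b hc : ℝ} (hR1 : R1 ≤ R) (hR2 : R ≤ R2)
    (B1 : a1 ≤ I0 R1 ∧ I0 R1 ≤ a1' ∧ b1 ≤ I1 R1 ∧ I1 R1 ≤ b1')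
    (B2 : a2 ≤ I0 R2 ∧ I0 R2 ≤ a2' ∧ b2 ≤ I1 R2 ∧ I1 R2 ≤ b2')
    (B0 : a0 ≤ I0 z0 ∧ I0 z0 ≤ a0' ∧ b0 ≤ I1 z0 ∧ I1 z0 ≤ b0')
    (n1 : 0 ≤ a1) (n2 : 0 ≤ a2) (n2' : 0 ≤ b2) (n0 : 0 ≤ a0) (n0' : 0 ≤ b0)
    (hz : 1.6 ≤ z0) (hz1 : z0 < R1) (hν : 0 < ν)
    (cs1 : s1 * a1' ≤ b1) (cs1' : 0 ≤ s1) (cs2 : b2' ≤ s2 * a2) (cs2' : 0 ≤ s2) (cs2'' : s2 ≤ 1)
    (cT : s2 ^ 2 / (2 * (3 / 2 - 0.72 * s2 ^ 2)) + 4.3 * max (s2 - 0.885) 0 ≤ T)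
    (c2 : ν * (R2 + 2 / 3 * (R2 - z0)) ≤ (R1 * (a1 ^ 2 - b1' ^ 2) - s2 * (a1' ^ 2 - 1) - R1)
      - (z0 * (a0' ^ 2 - b0 ^ 2) - s2 * (a0 ^ 2 - 1) - z0))
    (c3 : 8 / 3 * ν ≤ a0 ^ 2 + b0 ^ 2 - 2 * s2 * (a0' * b0') - 1)
    (c5 : p0 * a0' ≤ b0) (c5' : 0 ≤ p0) (htb : 0 ≤ tb)
    (c5'' : (1 - p0 ^ 2 - p0 / z0) * (2 * R2 * s2 - 1) - p0 / R2 ≤ tb * (1 - s2 ^ 2))
    (c6 : ν ≤ sp * (a1 ^ 2 - b1' ^ 2 - 1 - 2 / 3 * ν)) (hsp : 0 ≤ sp)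
    (c6' : 2 * (R2 * (a2' ^ 2 - b2 ^ 2) - a2 * b2) ≤ cp * (a1 ^ 2 - b1' ^ 2)) (hcp : 0 ≤ cp)
    (c7 : R2 - z0 ≤ sm * R2) (hsm : sm ≤ 1) (hb : 0 ≤ b)
    (c8 : T / 2 + ν * sm * (2 / 3 + tb / 2 * (1 + 2 / 3 * sm)) + sm ^ 2 / 2 * (1 + tb) ≤ b)
    (c8' : T / 2 + ν * sp * (2 / 3 + cp * (1 + 2 / 3 * sp)) + cp * sp ^ 2 / 2 ≤ b)
    (c9 : b * (1.34 * hc - 0.66 * R1) ≤ R1 * (1 - T + 2 * ν) - (R2 * (a2' ^ 2 - b2 ^ 2) - a2 * b2))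
    (c9' : 0 ≤ 1 - T + 2 * ν)
    (c10 : R2 ^ 2 - 2.827 ≤ hc * (2 * (5.1965 * s1 - 3.3328))) (hhc : 0 ≤ hc) : Good R := by
  have hz0 : 0 < z0 := by linarith
  have hR10 : 0 < R1 := by linarith
  have hR0 : 0 < R := by linarith
  have hR20 : 0 < R2 := by linarith
  have sq : ∀ {x y : ℝ}, 0 ≤ x → x ≤ y → x ^ 2 ≤ y ^ 2 := fun hx hxy => pow_le_pow_left₀ hx hxy 2
  have i1 := I1_nonneg hR10.le
  have i2 := I1_nonneg hR20.le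
  have i0 := I1_nonneg hz0.le
  have J1 := sq n1 B1.1
  have J1' := sq (I0_pos R1).le B1.2.1
  have K1' := sq i1 B1.2.2.2
  have J2' := sq (I0_pos R2).le B2.2.1
  have K2 := sq n2' B2.2.2.1
  have J0 := sq n0 B0.1
  have J0' := sq (I0_pos z0).le B0.2.1
  have K0 := sq n0' B0.2.2.1
  have P0 : I0 z0 * I1 z0 ≤ a0' * b0' :=
    mul_le_mul B0.2.1 B0.2.2.2 i0 ((I0_pos z0).le.trans B0.2.1)
  have P2 : a2 * b2 ≤ I0 R2 * I1 R2 := mul_le_mul B2.1 B2.2.2.1 n2' (I0_pos R2).le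
  have hs1 : s1 ≤ pf R := by
    refine le_trans ?_ (pf_mono hR10.le hR1)
    unfold pf; rw [le_div_iff₀ (I0_pos R1)]
    linarith only [mul_le_mul_of_nonneg_left B1.2.1 cs1', cs1, B1.2.2.1]
  have hs2 : pf R ≤ s2 := by
    refine (pf_mono hR0.le hR2).trans ?_
    unfold pf; rw [div_le_iff₀ (I0_pos R2)]
    linarith only [mul_le_mul_of_nonneg_left B2.1 cs2', cs2, B2.2.2.2]
  have hp0 : p0 ≤ pf z0 := by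
    unfold pf; rw [le_div_iff₀ (I0_pos z0)]
    linarith only [mul_le_mul_of_nonneg_left B0.2.1 c5', c5, B0.2.2.1]
  have hσ0 := pf_nonneg hR0.le
  have hσ1 := (pf_lt_one hR0.le).le
  have hT : Tb (pf R) ≤ T := (Tb_mono hσ0 hs2 cs2'').trans cT
  have hD1 : a1 ^ 2 - b1' ^ 2 ≤ Df R := by
    refine le_trans ?_ (Df_mono hR10.le hR1)
    unfold Df; linarith only [J1, K1']
  have hE2 : Ef R ≤ R2 * (a2' ^ 2 - b2 ^ 2) - a2 * b2 := by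
    refine (Ef_mono hR2).trans ?_
    unfold Ef Df
    have : R2 * (I0 R2 ^ 2 - I1 R2 ^ 2) ≤ R2 * (a2' ^ 2 - b2 ^ 2) :=
      mul_le_mul_of_nonneg_left (by linarith only [J2', K2]) hR20.le
    linarith only [this, P2]
  have h3 : 8 / 3 * ν ≤ nf (pf R) z0 - 1 := by
    unfold nf
    have t1 : pf R * (I0 z0 * I1 z0) ≤ s2 * (a0' * b0') :=
      mul_le_mul hs2 P0 (mul_nonneg (I0_pos z0).le i0) cs2'
    linarith only [t1, c3, J0, K0]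
  refine ⟨hc, hhc, ?_, goodII_of (ν := ν) (z0 := z0) (tb := tb) (sp := sp) (cp := cp) (sm := sm)
    (b := b) hz (by linarith) hν ?_ h3 htb ?_ ?_ ?_ ?_ hb (by linarith only [hT, c8])
    (by linarith only [hT, c8']) ?_⟩
  · have t1 := sq hR0.le hR2
    have t2 := mul_le_mul_of_nonneg_left hs1 hhc
    linarith only [t1, t2, c10]
  · have t1 := Mt_lower hσ1 (by linarith : (1.6 : ℝ) ≤ R1) hR1
    have t2 := nf_mono hσ1 hz hz1.le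
    have t3 : 0 ≤ (R - R1) * (nf (pf R) R1 - 1) :=
      mul_nonneg (by linarith only [hR1]) (by linarith only [t2, h3, hν])
    have t4 : ν * (R + 2 / 3 * (R - z0)) ≤ ν * (R2 + 2 / 3 * (R2 - z0)) :=
      mul_le_mul_of_nonneg_left (by linarith only [hR2]) hν.le
    have t5 : R1 * (a1 ^ 2 - b1' ^ 2) ≤ R1 * Df R1 :=
      mul_le_mul_of_nonneg_left (by unfold Df; linarith only [J1, K1']) hR10.le
    have t6 : z0 * Df z0 ≤ z0 * (a0' ^ 2 - b0 ^ 2) :=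
      mul_le_mul_of_nonneg_left (by unfold Df; linarith only [J0', K0]) hz0.le
    have t7 : pf R * (I0 R1 ^ 2 - I0 z0 ^ 2) ≤ s2 * (a1' ^ 2 - a0 ^ 2) :=
      mul_le_mul hs2 (by linarith only [J1', J0])
        (sub_nonneg.2 (sq (I0_pos z0).le (I0_mono hz0.le hz1.le))) cs2'
    have t8 : Mt (pf R) R1 - Mt (pf R) z0
        = R1 * Df R1 - z0 * Df z0 - pf R * (I0 R1 ^ 2 - I0 z0 ^ 2) - R1 + z0 := by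
      unfold Mt; ring
    linarith only [t1, t3, t4, t5, t6, t7, t8, c2]
  · have t1 : pd z0 ≤ 1 - p0 ^ 2 - p0 / z0 := by
      have e : Gf z0 / I0 z0 = pf z0 / z0 := by rw [← Gf_div z0]; field_simp
      have := div_le_div_of_nonneg_right hp0 hz0.le
      unfold pd; linarith only [e, this, sq c5' hp0]
    have t2 := pd_nonneg hz0
    have t3 : 0.446 ≤ pf R := pf_one.trans (pf_mono zero_le_one (by linarith))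
    have t4 : 0 ≤ 2 * R * pf R - 1 := by nlinarith only [t3, hz, hz1, hR1]
    have t5 : R * pf R ≤ R2 * s2 := mul_le_mul hR2 hs2 hσ0 hR20.le
    have t6 : pd z0 * (2 * R * pf R - 1) ≤ (1 - p0 ^ 2 - p0 / z0) * (2 * R2 * s2 - 1) :=
      mul_le_mul t1 (by linarith only [t5]) t4 (t2.trans t1)
    have t7 : p0 / R2 ≤ pf z0 / R := div_le_div₀ (c5'.trans hp0) hp0 hR0 hR2
    have t8 := mul_le_mul_of_nonneg_left (sq hσ0 hs2) htb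
    linarith only [t6, t7, t8, c5'']
  · linarith only [c6, mul_le_mul_of_nonneg_left hD1 hsp]
  · linarith only [c6', hE2, mul_le_mul_of_nonneg_left hD1 hcp]
  · linarith only [c7, mul_le_mul_of_nonneg_left hR2 (sub_nonneg.2 hsm)]
  · have t1 := mul_le_mul_of_nonneg_left hR1 hb
    have t2 := mul_le_mul_of_nonneg_left hR1 c9'
    have t3 := mul_le_mul_of_nonneg_left hT hR0.le
    linarith only [t1, t2, t3, c9, hE2]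

def up (q : ℚ) : ℚ := (⌊q * 1000000⌋ + 1 : ℤ) / 1000000

def down (q : ℚ) : ℚ := (⌊q * 1000000⌋ : ℤ) / 1000000

def cond (R1 R2 z0 ν a1 a1' b1 b1' a2 a2' b2 b2' a0 a0' b0 b0' s1 s2 T p0 tb sp cp sm b hc : ℚ) :
    Prop :=
  0 ≤ a1 ∧ 0 ≤ a2 ∧ 0 ≤ b2 ∧ 0 ≤ a0 ∧ 0 ≤ b0 ∧ 8 / 5 ≤ z0 ∧ z0 < R1 ∧ 0 < ν ∧
  s1 * a1' ≤ b1 ∧ 0 ≤ s1 ∧ b2' ≤ s2 * a2 ∧ 0 ≤ s2 ∧ s2 ≤ 1 ∧
  s2 ^ 2 / (2 * (3 / 2 - 18 / 25 * s2 ^ 2)) + 43 / 10 * max (s2 - 177 / 200) 0 ≤ T ∧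
  ν * (R2 + 2 / 3 * (R2 - z0)) ≤ (R1 * (a1 ^ 2 - b1' ^ 2) - s2 * (a1' ^ 2 - 1) - R1)
      - (z0 * (a0' ^ 2 - b0 ^ 2) - s2 * (a0 ^ 2 - 1) - z0) ∧
  8 / 3 * ν ≤ a0 ^ 2 + b0 ^ 2 - 2 * s2 * (a0' * b0') - 1 ∧
  p0 * a0' ≤ b0 ∧ 0 ≤ p0 ∧ 0 ≤ tb ∧
  (1 - p0 ^ 2 - p0 / z0) * (2 * R2 * s2 - 1) - p0 / R2 ≤ tb * (1 - s2 ^ 2) ∧
  ν ≤ sp * (a1 ^ 2 - b1' ^ 2 - 1 - 2 / 3 * ν) ∧ 0 ≤ sp ∧
  2 * (R2 * (a2' ^ 2 - b2 ^ 2) - a2 * b2) ≤ cp * (a1 ^ 2 - b1' ^ 2) ∧ 0 ≤ cp ∧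
  R2 - z0 ≤ sm * R2 ∧ sm ≤ 1 ∧ 0 ≤ b ∧
  T / 2 + ν * sm * (2 / 3 + tb / 2 * (1 + 2 / 3 * sm)) + sm ^ 2 / 2 * (1 + tb) ≤ b ∧
  T / 2 + ν * sp * (2 / 3 + cp * (1 + 2 / 3 * sp)) + cp * sp ^ 2 / 2 ≤ b ∧
  b * (67 / 50 * hc - 33 / 50 * R1) ≤ R1 * (1 - T + 2 * ν) - (R2 * (a2' ^ 2 - b2 ^ 2) - a2 * b2) ∧
  0 ≤ 1 - T + 2 * ν ∧
  R2 ^ 2 - 2827 / 1000 ≤ hc * (2 * (51965 / 10000 * s1 - 33328 / 10000)) ∧ 0 ≤ hc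

instance (R1 R2 z0 ν a1 a1' b1 b1' a2 a2' b2 b2' a0 a0' b0 b0' s1 s2 T p0 tb sp cp sm b hc : ℚ) :
    Decidable (cond R1 R2 z0 ν a1 a1' b1 b1' a2 a2' b2 b2' a0 a0' b0 b0' s1 s2 T p0 tb sp cp sm
      b hc) := by
  unfold cond; infer_instance

lemma good_of_cond {R : ℝ} {u1 u2 u0 : ℕ} {ν s1 s2 T p0 tb sp cp sm b hc : ℚ}
    (h1 : u1 ≤ 20000) (h2 : u2 ≤ 20000) (h0 : u0 ≤ 20000)
    (hR1 : (u1 : ℝ) / 1000 ≤ R) (hR2 : R ≤ (u2 : ℝ) / 1000)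
    (h : cond (u1 / 1000) (u2 / 1000) (u0 / 1000) ν (aLo u1) (aHi u1) (bLo u1) (bHi u1)
      (aLo u2) (aHi u2) (bLo u2) (bHi u2) (aLo u0) (aHi u0) (bLo u0) (bHi u0)
      s1 s2 T p0 tb sp cp sm b hc) : Good R := by
  have B1 := box h1 ⟨le_rfl, le_rfl, le_rfl, le_rfl⟩
  have B2 := box h2 ⟨le_rfl, le_rfl, le_rfl, le_rfl⟩
  have B0 := box h0 ⟨le_rfl, le_rfl, le_rfl, le_rfl⟩
  unfold cond at h
  simp only [← Rat.cast_le (K := ℝ), ← Rat.cast_lt (K := ℝ)] at h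
  push_cast at h
  obtain ⟨q1, q2, q3, q4, q5, q6, q7, q8, q9, q10, q11, q12, q13, q14, q15, q16, q17, q18, q19,
    q20, q21, q22, q23, q24, q25, q26, q27, q28, q29, q30, q31, q32, q33⟩ := h
  refine good_of_bounds (T := T) hR1 hR2 B1 B2 B0 q1 q2 q3 q4 q5 (by linarith only [q6]) q7 q8
    q9 q10 q11 q12 q13 ?_ q15 q16 q17 q18 q19 q20 q21 q22 q23 q24 q25 q26 q27 q28 q29
    (by linarith only [q30]) q31 (by linarith only [q32]) q33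
  rw [show (0.72 : ℝ) = 18 / 25 by norm_num, show (4.3 : ℝ) = 43 / 10 by norm_num,
    show (0.885 : ℝ) = 177 / 200 by norm_num]
  exact q14

def chkAux (R1 R2 z0 ν a1 a1' b1 b1' a2 a2' b2 b2' a0 a0' b0 b0' s1 s2 T p0 tb sp cp sm : ℚ) :
    Bool :=
  decide (cond R1 R2 z0 ν a1 a1' b1 b1' a2 a2' b2 b2' a0 a0' b0 b0' s1 s2 T p0 tb sp cp sm
    (up (max (T / 2 + ν * sm * (2 / 3 + tb / 2 * (1 + 2 / 3 * sm)) + sm ^ 2 / 2 * (1 + tb))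
      (T / 2 + ν * sp * (2 / 3 + cp * (1 + 2 / 3 * sp)) + cp * sp ^ 2 / 2)))
    (up ((R2 ^ 2 - 2827 / 1000) / (2 * (51965 / 10000 * s1 - 33328 / 10000)))))

def chkAux2 (R1 R2 z0 a1 a1' b1 b1' a2 a2' b2 b2' a0 a0' b0 b0' s1 s2 p0 ν : ℚ) : Bool :=
  chkAux R1 R2 z0 ν a1 a1' b1 b1' a2 a2' b2 b2' a0 a0' b0 b0' s1 s2
    (up (s2 ^ 2 / (2 * (3 / 2 - 18 / 25 * s2 ^ 2)) + 43 / 10 * max (s2 - 177 / 200) 0)) p0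
    (up (max 0 (((1 - p0 ^ 2 - p0 / z0) * (2 * R2 * s2 - 1) - p0 / R2) / (1 - s2 ^ 2))))
    (up (ν / (a1 ^ 2 - b1' ^ 2 - 1 - 2 / 3 * ν)))
    (up (2 * (R2 * (a2' ^ 2 - b2 ^ 2) - a2 * b2) / (a1 ^ 2 - b1' ^ 2)))
    (up ((R2 - z0) / R2))

def chkAux3 (R1 R2 z0 a1 a1' b1 b1' a2 a2' b2 b2' a0 a0' b0 b0' s2 : ℚ) : Bool :=
  chkAux2 R1 R2 z0 a1 a1' b1 b1' a2 a2' b2 b2' a0 a0' b0 b0' (down (b1 / a1')) s2 (down (b0 / a0'))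
    (down (((R1 * (a1 ^ 2 - b1' ^ 2) - s2 * (a1' ^ 2 - 1) - R1)
      - (z0 * (a0' ^ 2 - b0 ^ 2) - s2 * (a0 ^ 2 - 1) - z0)) / (R2 + 2 / 3 * (R2 - z0))))

def chk (u1 u2 u0 : ℕ) : Bool :=
  decide (u1 ≤ 20000 ∧ u2 ≤ 20000 ∧ u0 ≤ 20000) &&
  chkAux3 (u1 / 1000) (u2 / 1000) (u0 / 1000) (aLo u1) (aHi u1) (bLo u1) (bHi u1)
    (aLo u2) (aHi u2) (bLo u2) (bHi u2) (aLo u0) (aHi u0) (bLo u0) (bHi u0) (up (bHi u2 / aLo u2))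

lemma good_of_chk {R : ℝ} {u1 u2 u0 : ℕ} (h : chk u1 u2 u0 = true)
    (hR1 : (u1 : ℝ) / 1000 ≤ R) (hR2 : R ≤ (u2 : ℝ) / 1000) : Good R := by
  unfold chk chkAux3 chkAux2 chkAux at h
  rw [Bool.and_eq_true, decide_eq_true_eq, decide_eq_true_eq] at h
  exact good_of_cond h.1.1 h.1.2.1 h.1.2.2 hR1 hR2 h.2

def chain : ℕ → List (ℕ × ℕ) → ℕ → Bool
  | u, [], e => decide (e ≤ u)
  | u, (v, w) :: l, e => chk u v w && chain v l e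

lemma good_of_chain {l : List (ℕ × ℕ)} {u e : ℕ} (h : chain u l e = true) {R : ℝ}
    (hR1 : (u : ℝ) / 1000 ≤ R) (hR2 : R < (e : ℝ) / 1000) : Good R := by
  induction l generalizing u with
  | nil =>
    simp only [chain, decide_eq_true_eq] at h
    have : (e : ℝ) ≤ u := by exact_mod_cast h
    linarith
  | cons x l ih =>
    obtain ⟨v, w⟩ := x
    simp only [chain, Bool.and_eq_true] at h
    rcases le_total R ((v : ℝ) / 1000) with h1 | h1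
    · exact good_of_chk h.1 hR1 h1
    · exact ih h.2 h1

end Pool.Agent.P.MP_342f9e_an
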