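import Pool.Agent.P.MP_342f9e_an.CoreC

set_option autoImplicit false

open Real MeasureTheory Set Filter Topology

namespace Pool.Agent.P.MP_342f9e_an

lemma cake {X : Type*} [MeasurableSpace X] (μ : Measure X) [IsFiniteMeasure μ]
    {r : X → ℝ} (hr : Measurable r) {G φ : ℝ → ℝ} (hG : ∀ t, HasDerivAt G (φ t) t)
    (hφ : Continuous φ) {T : ℝ} (hT : 0 ≤ T) :
    ∫ t in (0 : ℝ)..T, φ t * μ.real {x | t < r x}
      = ∫ x, (G (max 0 (min (r x) T)) - G 0) ∂μ := by
  rw [layer_cake μ hr hφ hT]
  congr 1; funext x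
  exact intervalIntegral.integral_eq_sub_of_hasDerivAt (fun t _ => hG t)
    (hφ.intervalIntegrable _ _)

lemma ii_tail {X : Type*} [MeasurableSpace X] (μ : Measure X) [IsFiniteMeasure μ]
    (r : X → ℝ) {φ : ℝ → ℝ} (hφ : Continuous φ) (a b : ℝ) :
    IntervalIntegrable (fun t => φ t * μ.real {x | t < r x}) volume a b := by
  have : Antitone fun t => μ.real {x | t < r x} := fun s t hst =>
    measureReal_mono (fun x hx => lt_of_le_of_lt hst hx)
  exact this.intervalIntegrable.continuousOn_mul hφ.continuousOn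

lemma Jd_nonneg {t : ℝ} (ht : 0 ≤ t) : 0 ≤ Jd t :=
  mul_nonneg two_pos.le (mul_nonneg (I0_pos t).le (I1_nonneg ht))

lemma Jd_zero : Jd 0 = 0 := by simp [Jd, I1_zero]

lemma Ff_mono {x y : ℝ} (hx : 0 ≤ x) (hxy : x ≤ y) : Ff x ≤ Ff y := by
  have a := pow_le_pow_left₀ (I0_pos x).le (I0_mono hx hxy) 2
  have b := pow_le_pow_left₀ (I1_nonneg hx) (I1_mono hx hxy) 2
  unfold Ff; linarith

lemma J_le_Ff (x : ℝ) : I0 x ^ 2 ≤ Ff x := by unfold Ff; nlinarith [sq_nonneg (I1 x)]

lemma one_le_J (x : ℝ) : 1 ≤ I0 x ^ 2 := by nlinarith [one_le_I0 x]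

lemma Jd_le_Ff (x : ℝ) : Jd x ≤ Ff x := by unfold Ff Jd; nlinarith [sq_nonneg (I0 x - I1 x)]

lemma Jd_mono {x y : ℝ} (hx : 0 ≤ x) (hxy : x ≤ y) : Jd x ≤ Jd y :=
  mul_le_mul_of_nonneg_left (mul_le_mul (I0_mono hx hxy) (I1_mono hx hxy) (I1_nonneg hx)
    (I0_pos y).le) two_pos.le

lemma J_conv {a b : ℝ} (ha : 0 ≤ a) (hab : a ≤ b) : (b - a) * Jd a ≤ I0 b ^ 2 - I0 a ^ 2 := by
  have h := le_of_deriv (f := fun t => I0 t ^ 2 - t * Jd a) (f' := fun t => Jd t - Jd a) hab
    (fun t _ => ((hasDerivAt_J t).sub ((hasDerivAt_id t).mul_const _)).congr_deriv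
      (by unfold Jd; ring))
    (fun t ht => sub_nonneg.2 (Jd_mono ha ht.1))
  linarith

lemma J_lip {a b T : ℝ} (ha : 0 ≤ a) (hab : a ≤ b) (hT : b ≤ T) :
    I0 b ^ 2 - I0 a ^ 2 ≤ (b - a) * Ff T := by
  have h := le_of_deriv (f := fun t => t * Ff T - I0 t ^ 2) (f' := fun t => Ff T - Jd t) hab
    (fun t _ => (((hasDerivAt_id t).mul_const _).sub (hasDerivAt_J t)).congr_deriv
      (by unfold Jd; ring))
    (fun t ht => sub_nonneg.2 ((Jd_le_Ff t).trans (Ff_mono (ha.trans ht.1) (ht.2.trans hT))))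
  linarith

lemma Jd_lip {a b T : ℝ} (ha : 0 ≤ a) (hab : a ≤ b) (hT : b ≤ T) :
    Jd b - Jd a ≤ (b - a) * (2 * Ff T) := by
  have h := le_of_deriv (f := fun t => t * (2 * Ff T) - Jd t)
    (f' := fun t => 2 * Ff T - 2 * (I0 t ^ 2 + I1 t ^ 2 - I0 t * Gf t)) hab
    (fun t _ => (((hasDerivAt_id t).mul_const _).sub
      ((hasDerivAt_II t).const_mul 2)).congr_deriv (by ring))
    (fun t ht => by
      have a := Ff_mono (ha.trans ht.1) (ht.2.trans hT)
      have b := mul_pos (I0_pos t) (Gf_pos t)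
      unfold Ff at a ⊢; linarith)
  linarith

lemma J_quot {r ε T : ℝ} (hr : 0 ≤ r) (hT : r ≤ T) (hε : 0 ≤ ε) :
    ε * (Jd r - 4 * ε * Ff T) ≤ I0 (max 0 (min (r - ε) T)) ^ 2
      - I0 (max 0 (min (r - 2 * ε) T)) ^ 2 := by
  rw [min_eq_left (by linarith : r - ε ≤ T), min_eq_left (by linarith : r - 2 * ε ≤ T)]
  have hF : 0 ≤ Ff T := by unfold Ff; positivity
  rcases le_total r (2 * ε) with h | h
  · rw [max_eq_left (by linarith : r - 2 * ε ≤ 0), I0_zero]
    have a := Jd_lip le_rfl hr hT
    rw [Jd_zero] at a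
    have b := one_le_J (max 0 (r - ε))
    have c := mul_le_mul_of_nonneg_right h hF
    have d : Jd r - 4 * ε * Ff T ≤ 0 := by linarith
    nlinarith
  · rw [max_eq_right (by linarith : 0 ≤ r - 2 * ε), max_eq_right (by linarith : 0 ≤ r - ε)]
    have a := J_conv (a := r - 2 * ε) (b := r - ε) (by linarith) (by linarith)
    have b := Jd_lip (a := r - 2 * ε) (b := r) (by linarith) (by linarith) hT
    have c := mul_le_mul_of_nonneg_left b hε
    linarith

variable {N : ℕ} [NeZero N]

/-- the gauge of the test function -/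
noncomputable def rho (e0 : ℂ) (g : ZMod N → ℝ) (x : ℂ) : ℝ :=
  max 0 (Finset.univ.sup' Finset.univ_nonempty fun j => dot (dir e0 j) x - g j)

lemma rho_nonneg (e0 : ℂ) (g : ZMod N → ℝ) (x : ℂ) : 0 ≤ rho e0 g x := le_max_left _ _

lemma rho_le_iff (e0 : ℂ) (g : ZMod N → ℝ) (x : ℂ) {t : ℝ} (ht : 0 ≤ t) :
    rho e0 g x ≤ t ↔ x ∈ K e0 (fun j => g j + t) := by
  unfold rho K
  simp only [max_le_iff, ht, true_and, Finset.sup'_le_iff, Finset.mem_univ, forall_true_left,
    Set.mem_ofPred_eq, sub_le_iff_le_add']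

lemma le_rho (e0 : ℂ) (g : ZMod N → ℝ) (x : ℂ) (j : ZMod N) :
    dot (dir e0 j) x - g j ≤ rho e0 g x := by
  have := (rho_le_iff e0 g x (rho_nonneg e0 g x)).1 le_rfl j
  linarith

lemma rho_lip {e0 : ℂ} (he : ‖e0‖ = 1) (g : ZMod N → ℝ) (x y : ℂ) :
    rho e0 g x ≤ rho e0 g y + ‖x - y‖ := by
  rw [rho_le_iff _ _ _ (add_nonneg (rho_nonneg _ _ _) (norm_nonneg _))]
  intro j
  have a := le_rho e0 g y j
  have b := dot_le (dir e0 j) (x - y)
  rw [norm_dir he, dot_sub] at b
  linarith

lemma continuous_rho {e0 : ℂ} (he : ‖e0‖ = 1) (g : ZMod N → ℝ) : Continuous (rho e0 g) := by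
  refine (LipschitzWith.of_le_add (f := rho e0 g) fun x y => ?_).continuous
  rw [dist_eq_norm]; exact rho_lip he g x y

lemma K_mt (e0 : ℂ) (h g : ZMod N → ℝ) (t : ℝ) :
    K e0 (mt h g t) = K e0 h ∩ K e0 (fun j => g j + t) := by
  ext x; simp [K, mt, forall_and]

lemma S_mt_nonneg (hN : 16 ≤ N) {h g : ZMod N → ℝ} (h0 : 0 ≤ S (mt h g 0)) {t : ℝ} (ht : 0 ≤ t) :
    0 ≤ S (mt h g t) :=
  h0.trans (S_mono hN fun j => min_le_min le_rfl (by linarith))

lemma bt_ge (hN : 16 ≤ N) {e0 : ℂ} (he : ‖e0‖ = 1) {Ω : Set ℂ} (ho : IsOpen Ω)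
    (hf : μH[1] (frontier Ω) < ⊤) {h g : ZMod N → ℝ} (hK : Ω ⊆ K e0 h) (h0 : 0 ≤ S (mt h g 0))
    {ε t : ℝ} (hε : 0 < ε) (ht : 0 ≤ t) :
    volume.real Ω - volume.real (K e0 (fun j => h j - ε)) - ε * S (mt h g (t + 2 * ε))
      + (volume.restrict Ω).real {x | t < rho e0 g x - ε}
      - (volume.restrict Ω).real {x | t < rho e0 g x - 2 * ε}
      ≤ ε * (μH[1].restrict (frontier Ω)).real {x | t < rho e0 g x} := by
  have hρ := continuous_rho he g
  have fin : ∀ A : Set ℂ, A ⊆ Ω → volume A ≠ ⊤ := fun A hA =>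
    ne_top_of_le_ne_top (vol_K_ne_top hN he h) (measure_mono (hA.trans hK))
  have mρ : ∀ c : ℝ, MeasurableSet {x | t < rho e0 g x - c} := fun c =>
    measurableSet_lt measurable_const (hρ.measurable.sub_const c)
  have mρ0 : MeasurableSet {x | t < rho e0 g x} :=
    measurableSet_lt measurable_const hρ.measurable
  rw [measureReal_restrict_apply (mρ _), measureReal_restrict_apply (mρ _),
    measureReal_restrict_apply mρ0]
  set Ke := K e0 (fun j => h j - ε) with hKe
  set U1 := {x | t < rho e0 g x - ε} with hU1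
  set U2 := {x | t < rho e0 g x - 2 * ε} with hU2
  have a1 : volume.real ((Ω \ Ke) ∩ U1)
      ≤ ε * μH[1].real ({x | t < rho e0 g x} ∩ frontier Ω) := by
    have := layer_le he ho hK hε mρ0 (A := (Ω \ Ke) ∩ U1) (fun x hx => hx.1.1) (fun x hx => hx.1.2)
      (fun x hx y hy => by
        have a := rho_lip he g x y
        rw [mem_closedBall_iff_norm'] at hy
        have b : t < rho e0 g x - ε := hx.2
        show t < rho e0 g y
        linarith)
    have := ENNReal.toReal_mono (ENNReal.mul_ne_top ENNReal.ofReal_ne_top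
      ((measure_mono inter_subset_left).trans_lt hf).ne) this
    rw [ENNReal.toReal_mul, ENNReal.toReal_ofReal hε.le, inter_comm (frontier Ω)] at this
    exact this
  have a2 : volume.real Ω ≤ volume.real ((Ω \ Ke) ∩ U1) + volume.real ((Ω \ Ke) \ U1)
      + volume.real Ke := by
    refine le_trans (measureReal_mono (s₂ := ((Ω \ Ke) ∩ U1 ∪ (Ω \ Ke) \ U1) ∪ Ke) ?_ ?_)
      ((measureReal_union_le _ _).trans (add_le_add_left (measureReal_union_le _ _) _))
    · rw [inter_union_diff]; exact subset_diff_union _ _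
    · rw [inter_union_diff]
      exact measure_union_ne_top (fin _ diff_subset) (vol_K_ne_top hN he _)
  have a3 : volume.real (U1 ∩ Ω) ≤ volume.real (U2 ∩ Ω) + volume.real ((U1 ∩ Ω) \ U2) := by
    refine le_trans (measureReal_mono (s₂ := U2 ∩ Ω ∪ (U1 ∩ Ω) \ U2) ?_ ?_)
      (measureReal_union_le _ _)
    · intro x hx
      by_cases h2 : x ∈ U2
      · exact Or.inl ⟨h2, hx.2⟩
      · exact Or.inr ⟨hx, h2⟩
    · exact measure_union_ne_top (fin _ inter_subset_right)
        (fin _ (diff_subset.trans inter_subset_right))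
  have a4 := vol_inner hN he (S_mt_nonneg hN h0 (by linarith : 0 ≤ t + 2 * ε)) hε.le
  have a5 : volume.real ((Ω \ Ke) \ U1) + volume.real ((U1 ∩ Ω) \ U2)
      + volume.real (K e0 (fun j => mt h g (t + 2 * ε) j - ε))
      ≤ volume.real (K e0 (mt h g (t + 2 * ε))) := by
    rw [← measureReal_union (Set.disjoint_left.2 fun x hx hx' => hx.2 hx'.1.1)
      (((mρ _).inter ho.measurableSet).diff (mρ _)) (fin _ (diff_subset.trans diff_subset))
      (fin _ (diff_subset.trans inter_subset_right)),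
      ← measureReal_union _ (measurableSet_K _ _) (measure_union_ne_top
        (fin _ (diff_subset.trans diff_subset)) (fin _ (diff_subset.trans inter_subset_right)))
        (vol_K_ne_top hN he _)]
    · refine measureReal_mono (union_subset ?_ (K_mono e0 fun j => by linarith))
        (vol_K_ne_top hN he _)
      rw [K_mt]
      rintro x (hx | hx)
      · refine ⟨hK hx.1.1, (rho_le_iff _ _ _ (by linarith)).1 ?_⟩
        have : ¬ t < rho e0 g x - ε := hx.2
        linarith
      · refine ⟨hK hx.1.2, (rho_le_iff _ _ _ (by linarith)).1 ?_⟩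
        have : ¬ t < rho e0 g x - 2 * ε := hx.2
        linarith
    · refine Set.disjoint_left.2 ?_
      rintro x (hx | hx) hx'
      · exact hx.1.2 fun j => (hx' j).trans (sub_le_sub_right (min_le_left _ _) _)
      · have a : rho e0 g x ≤ t + ε := (rho_le_iff _ _ _ (by linarith)).2 fun j => by
          have := (hx' j).trans (sub_le_sub_right (min_le_right _ _) _)
          linarith
        have : t < rho e0 g x - ε := hx.1.1
        linarith
  linarith

lemma len_ge (hN : 16 ≤ N) {e0 : ℂ} (he : ‖e0‖ = 1) {Ω : Set ℂ} (ho : IsOpen Ω)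
    (hf : μH[1] (frontier Ω) < ⊤) {h : ZMod N → ℝ} (hK : Ω ⊆ K e0 h) {ε : ℝ} (hε : 0 < ε) :
    volume.real Ω - volume.real (K e0 (fun j => h j - ε)) ≤ ε * μH[1].real (frontier Ω) := by
  have := layer_le he ho hK hε MeasurableSet.univ (A := Ω \ K e0 (fun j => h j - ε))
    diff_subset (fun x hx => hx.2) (fun x _ => subset_univ _)
  rw [inter_univ] at this
  have := ENNReal.toReal_mono (ENNReal.mul_ne_top ENNReal.ofReal_ne_top hf.ne) this
  rw [ENNReal.toReal_mul, ENNReal.toReal_ofReal hε.le] at this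
  have a2 := (measureReal_mono (subset_diff_union Ω (K e0 (fun j => h j - ε)))
    (measure_union_ne_top (ne_top_of_le_ne_top (vol_K_ne_top hN he h)
      (measure_mono (diff_subset.trans hK))) (vol_K_ne_top hN he _))).trans
    (measureReal_union_le _ _)
  unfold Measure.real at *
  linarith

lemma integrableOn_of_cont {μ : Measure ℂ} {s : Set ℂ} (hs : μ s < ⊤) (hm : MeasurableSet s)
    (hb : Bornology.IsBounded s) {f : ℂ → ℝ} (hf : Continuous f) : IntegrableOn f s μ := by
  obtain ⟨C, hC⟩ := hb.isCompact_closure.exists_bound_of_continuousOn hf.continuousOn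
  exact Measure.integrableOn_of_bounded hs.ne hf.aestronglyMeasurable
    ((ae_restrict_iff' hm).2 (Eventually.of_forall fun x hx => hC x (subset_closure hx)))

theorem lemA (hN : 16 ≤ N) {e0 : ℂ} (he : ‖e0‖ = 1) {Ω : Set ℂ} (ho : IsOpen Ω)
    (hf : μH[1] (frontier Ω) < ⊤) {h g : ZMod N → ℝ} (hK : closure Ω ⊆ K e0 h)
    (h0 : 0 ≤ S (mt h g 0)) {ε T e1 : ℝ} (hε : 0 < ε) (hT : 0 ≤ T) (hgT : ∀ j, h j ≤ g j + T)
    (he1 : 0 ≤ e1)
    (hL : ε * (S h - e1) ≤ volume.real Ω - volume.real (K e0 (fun j => h j - ε))) :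
    S h + (∫ t in (0 : ℝ)..T, Jd t * (S h - S (mt h g t))) + (∫ x in Ω, Jd (rho e0 g x))
      - Ff T * (e1 + 16 * ε + 4 * ε * volume.real Ω)
      ≤ ∫ x in frontier Ω, I0 (rho e0 g x) ^ 2 ∂μH[1] := by
  have hρ := continuous_rho he g
  have hK' : Ω ⊆ K e0 h := subset_closure.trans hK
  have hΩ : volume Ω < ⊤ := (measure_mono hK').trans_lt (vol_K_ne_top hN he h).lt_top
  have hb : Bornology.IsBounded (closure Ω) := (isCompact_K hN he h).isBounded.subset hK
  haveI : IsFiniteMeasure (volume.restrict Ω) := isFiniteMeasure_restrict.2 hΩ.ne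
  haveI : IsFiniteMeasure (μH[1].restrict (frontier Ω)) := isFiniteMeasure_restrict.2 hf.ne
  have hρT : ∀ x ∈ closure Ω, rho e0 g x ≤ T := fun x hx =>
    (rho_le_iff _ _ _ hT).2 fun j => (hK hx j).trans (hgT j)
  have iΩ : ∀ f : ℂ → ℝ, Continuous f → IntegrableOn f Ω := fun f hf =>
    integrableOn_of_cont hΩ ho.measurableSet (hb.subset subset_closure) hf
  have iF : ∀ f : ℂ → ℝ, Continuous f → IntegrableOn f (frontier Ω) μH[1] := fun f hf' =>
    integrableOn_of_cont hf isClosed_frontier.measurableSet (hb.subset frontier_subset_closure) hf'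
  have c0 := cake (μH[1].restrict (frontier Ω)) hρ.measurable (φ := Jd) hasDerivAt_J continuous_Jd hT
  have c1 := cake (volume.restrict Ω) (hρ.measurable.sub_const ε) (φ := Jd) hasDerivAt_J
    continuous_Jd hT
  have c2 := cake (volume.restrict Ω) (hρ.measurable.sub_const (2 * ε)) (φ := Jd) hasDerivAt_J
    continuous_Jd hT
  rw [setIntegral_congr_fun isClosed_frontier.measurableSet
    (g := fun x => I0 (rho e0 g x) ^ 2 - 1) (fun x hx => by
      simp only [min_eq_left (hρT x (frontier_subset_closure hx)), max_eq_right (rho_nonneg e0 g x),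
        I0_zero, one_pow]),
    integral_sub (iF _ (by fun_prop)) (integrable_const _), integral_const, smul_eq_mul, mul_one,
    measureReal_restrict_apply_univ] at c0
  have cS := continuous_S_mt h g
  have hp := pN_le hN
  have m1 := intervalIntegral.integral_mono_on (μ := volume) hT
    (f := fun t => ε * (Jd t * (S h - S (mt h g t))) - ε * (e1 + 16 * ε) * Jd t
      + Jd t * (volume.restrict Ω).real {x | t < rho e0 g x - ε}
      - Jd t * (volume.restrict Ω).real {x | t < rho e0 g x - 2 * ε})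
    (g := fun t => ε * (Jd t * (μH[1].restrict (frontier Ω)).real {x | t < rho e0 g x}))
    (((Continuous.intervalIntegrable (by fun_prop) _ _).add
      (ii_tail _ _ continuous_Jd _ _)).sub (ii_tail _ _ continuous_Jd _ _))
    ((ii_tail _ _ continuous_Jd _ _).const_mul _)
    (fun t ht => by
      have a := bt_ge hN he ho hf hK' h0 hε ht.1
      have b : S (mt h g (t + 2 * ε)) ≤ S (mt h g t) + 16 * ε := by
        have := S_mono hN (f := mt h g (t + 2 * ε)) (g := fun j => mt h g t j + 2 * ε) fun j => by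
          unfold mt
          rw [← min_add_add_right]
          exact min_le_min (by linarith) (by linarith)
        rw [S_add_const] at this
        nlinarith
      have c := mul_le_mul_of_nonneg_left b hε.le
      have d := mul_le_mul_of_nonneg_left (show ε * (S h - S (mt h g t)) - ε * (e1 + 16 * ε)
        + (volume.restrict Ω).real {x | t < rho e0 g x - ε}
        - (volume.restrict Ω).real {x | t < rho e0 g x - 2 * ε}
        ≤ ε * (μH[1].restrict (frontier Ω)).real {x | t < rho e0 g x} by linarith)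
        (Jd_nonneg ht.1)
      linarith)
  rw [intervalIntegral.integral_sub ((Continuous.intervalIntegrable (by fun_prop) _ _).add
      (ii_tail _ _ continuous_Jd _ _)) (ii_tail _ _ continuous_Jd _ _),
    intervalIntegral.integral_add (Continuous.intervalIntegrable (by fun_prop) _ _)
      (ii_tail _ _ continuous_Jd _ _),
    intervalIntegral.integral_sub (Continuous.intervalIntegrable (by fun_prop) _ _)
      (Continuous.intervalIntegrable (by fun_prop) _ _),
    intervalIntegral.integral_const_mul, intervalIntegral.integral_const_mul,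
    intervalIntegral.integral_const_mul, c0, c1, c2,
    intervalIntegral.integral_eq_sub_of_hasDerivAt (f' := Jd) (fun t _ => hasDerivAt_J t)
      (continuous_Jd.intervalIntegrable _ _), I0_zero] at m1
  have m2 : ε * ((∫ x in Ω, Jd (rho e0 g x)) - 4 * ε * Ff T * volume.real Ω)
      ≤ (∫ x in Ω, (I0 (max 0 (min (rho e0 g x - ε) T)) ^ 2 - 1 ^ 2))
        - ∫ x in Ω, (I0 (max 0 (min (rho e0 g x - 2 * ε) T)) ^ 2 - 1 ^ 2) := by
    rw [← integral_sub (iΩ _ (by fun_prop)) (iΩ _ (by fun_prop))]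
    have := setIntegral_mono_on (μ := volume) (f := fun x => ε * (Jd (rho e0 g x) - 4 * ε * Ff T))
      (g := fun x => (I0 (max 0 (min (rho e0 g x - ε) T)) ^ 2 - 1 ^ 2)
        - (I0 (max 0 (min (rho e0 g x - 2 * ε) T)) ^ 2 - 1 ^ 2))
      (iΩ _ (by fun_prop)) (iΩ _ (by fun_prop)) ho.measurableSet (fun x hx => by
        have := J_quot (rho_nonneg e0 g x) (hρT x (subset_closure hx)) hε.le
        linarith)
    rw [integral_const_mul, integral_sub (iΩ _ (by fun_prop)) (integrable_const _),
      integral_const, smul_eq_mul, measureReal_restrict_apply_univ] at this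
    linarith
  have m3 := len_ge hN he ho hf hK' hε
  have m4 := mul_le_mul_of_nonneg_left (J_le_Ff T) (by positivity : 0 ≤ ε * (e1 + 16 * ε))
  apply le_of_mul_le_mul_left _ hε
  nlinarith

theorem lemB (hN : 16 ≤ N) {e0 : ℂ} (he : ‖e0‖ = 1) {Ω : Set ℂ} (ho : IsOpen Ω)
    {h g : ZMod N → ℝ} (hK : Ω ⊆ K e0 h) (ht : Tight e0 h)
    (h0 : 0 ≤ S (mt h g 0)) {T : ℝ} (hT : 0 ≤ T) (hgT : ∀ j, h j ≤ g j + T)
    {G φ : ℝ → ℝ} (hG : ∀ t, HasDerivAt G (φ t) t) (hφ : Continuous φ) {X : ℝ}
    (hX : ∀ t, 0 ≤ t → En2 (mt h g t) (mt h g t) ≤ X) :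
    ∫ x in Ω, G (rho e0 g x) ≤ G 0 * volume.real Ω
      + (∫ t in (0 : ℝ)..T, φ t * (V h - V (mt h g t)))
      + (∫ t in (0 : ℝ)..T, max (-φ t) 0) * (V h - volume.real Ω + X / 2) := by
  have hρ := continuous_rho he g
  have hΩ : volume Ω < ⊤ := (measure_mono hK).trans_lt (vol_K_ne_top hN he h).lt_top
  have hb : Bornology.IsBounded Ω := (isCompact_K hN he h).isBounded.subset hK
  haveI : IsFiniteMeasure (volume.restrict Ω) := isFiniteMeasure_restrict.2 hΩ.ne
  have hGc : Continuous G := continuous_iff_continuousAt.2 fun t => (hG t).continuousAt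
  have c0 := cake (volume.restrict Ω) hρ.measurable hG hφ hT
  rw [setIntegral_congr_fun ho.measurableSet (g := fun x => G (rho e0 g x) - G 0) (fun x hx => by
      simp only [min_eq_left ((rho_le_iff _ _ _ hT).2 fun j => (hK hx j).trans (hgT j)),
        max_eq_right (rho_nonneg e0 g x)]),
    integral_sub (integrableOn_of_cont hΩ ho.measurableSet hb (by fun_prop)) (integrable_const _),
    integral_const, smul_eq_mul, measureReal_restrict_apply_univ] at c0
  have cV := continuous_V_mt h g
  have m1 := intervalIntegral.integral_mono_on (μ := volume) hT (ii_tail (volume.restrict Ω)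
    (rho e0 g) hφ 0 T)
    (g := fun t => φ t * (V h - V (mt h g t)) + max (-φ t) 0 * (V h - volume.real Ω + X / 2))
    (Continuous.intervalIntegrable (by fun_prop) _ _)
    (fun t htt => by
      rw [measureReal_restrict_apply (measurableSet_lt measurable_const hρ.measurable)]
      have a1 := V_le_vol hN he (S_mt_nonneg hN h0 htt.1)
      have a2 := vol_le_V_add hN he (mt h g t)
      have a3 := vol_eq_V_of_tight hN he ht
      have a4 := hX t htt.1
      have b1 : volume.real ({x | t < rho e0 g x} ∩ Ω) + volume.real (K e0 (mt h g t))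
          ≤ volume.real (K e0 h) := by
        rw [← measureReal_union _ (measurableSet_K _ _)
          ((measure_mono inter_subset_right).trans_lt hΩ).ne (vol_K_ne_top hN he _)]
        · refine measureReal_mono (union_subset (inter_subset_right.trans hK) ?_)
            (vol_K_ne_top hN he _)
          rw [K_mt]; exact inter_subset_left
        · refine Set.disjoint_left.2 fun x hx hx' => ?_
          rw [K_mt] at hx'
          exact absurd ((rho_le_iff _ _ _ htt.1).2 hx'.2) (not_le.2 hx.1)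
      have b2 : volume.real Ω
          ≤ volume.real ({x | t < rho e0 g x} ∩ Ω) + volume.real (K e0 (mt h g t)) := by
        refine le_trans (measureReal_mono ?_ (measure_union_ne_top
          ((measure_mono inter_subset_right).trans_lt hΩ).ne (vol_K_ne_top hN he _)))
          (measureReal_union_le _ _)
        intro x hx
        rcases lt_or_ge t (rho e0 g x) with c | c
        · exact Or.inl ⟨c, hx⟩
        · right; rw [K_mt]; exact ⟨hK hx, (rho_le_iff _ _ _ htt.1).1 c⟩
      rcases le_total 0 (φ t) with c | c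
      · rw [max_eq_right (by linarith), zero_mul, add_zero]
        exact mul_le_mul_of_nonneg_left (by linarith) c
      · rw [max_eq_left (by linarith)]
        have := mul_le_mul_of_nonpos_left (show V h - V (mt h g t) - (V h - volume.real Ω + X / 2)
          ≤ volume.real ({x | t < rho e0 g x} ∩ Ω) by linarith) c
        linarith)
  rw [intervalIntegral.integral_add (Continuous.intervalIntegrable (by fun_prop) _ _)
    (Continuous.intervalIntegrable (by fun_prop) _ _), intervalIntegral.integral_mul_const,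
    c0] at m1
  linarith

end Pool.Agent.P.MP_342f9e_an
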