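import Pool.Agent.P.MP_342f9e_an.Layer

set_option autoImplicit false

open Real MeasureTheory Set Filter Topology

namespace Pool.Agent.P.MP_342f9e_an

lemma wirt1 {M : ℕ} (hM : 1 ≤ M) (a : ℕ → ℝ) (h0 : a 0 = 0) (h1 : a M = 0) :
    (2 - 2 * cos (π / M)) * ∑ i ∈ Finset.range M, a i ^ 2
      ≤ ∑ i ∈ Finset.range M, (a (i + 1) - a i) ^ 2 := by
  have hM0 : (0 : ℝ) < M := by exact_mod_cast hM
  set θ := π / M with hθ
  have hθ0 : 0 < θ := by positivity
  have hθM : M * θ = π := by rw [hθ]; field_simp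
  set u : ℕ → ℝ := fun i => a i ^ 2 * (1 - sin (((i : ℝ) - 1) * θ) / sin (i * θ)) with hu
  have spos : ∀ i : ℕ, 0 < i → i < M → 0 < sin (i * θ) := by
    intro i hi hiM
    have a1 : (0 : ℝ) < i := by exact_mod_cast hi
    have a2 : (i : ℝ) < M := by exact_mod_cast hiM
    exact sin_pos_of_pos_of_lt_pi (by positivity) (by nlinarith)
  have key : ∀ i ∈ Finset.range M,
      (2 - 2 * cos θ) * a i ^ 2 + (u (i + 1) - u i) ≤ (a (i + 1) - a i) ^ 2 := by
    intro i hi
    rw [Finset.mem_range] at hi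
    rcases Nat.eq_zero_or_pos i with h | h
    · subst h; simp [hu, h0]
    have hs := spos i h hi
    have e1 : sin (((i : ℝ) - 1) * θ) / sin (i * θ)
        = 2 * cos θ - sin (((i : ℝ) + 1) * θ) / sin (i * θ) := by
      rw [sub_mul, add_mul, one_mul, sin_sub, sin_add]; field_simp; ring
    simp only [hu, Nat.cast_add, Nat.cast_one, add_sub_cancel_right]
    rw [e1]
    rcases (Nat.succ_le_of_lt hi).eq_or_lt with h2 | h2
    · have e2 : ((i : ℝ) + 1) * θ = π := by rw [← hθM, ← h2]; push_cast; ring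
      have e3 : a (i + 1) = 0 := by rw [← h1, ← h2]
      rw [e2, e3, sin_pi]; simp only [zero_div]; nlinarith
    · have hs' := spos (i + 1) (by omega) h2
      push_cast at hs'
      set p := sin (i * θ)
      set q := sin ((i + 1) * θ)
      have : 0 ≤ (p * a (i + 1) - q * a i) ^ 2 / (p * q) := by positivity
      have e : (p * a (i + 1) - q * a i) ^ 2 / (p * q)
          = a (i + 1) ^ 2 * (p / q) - 2 * a (i + 1) * a i + a i ^ 2 * (q / p) := by
        field_simp; ring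
      nlinarith
  have := Finset.sum_le_sum key
  rw [Finset.sum_add_distrib, Finset.sum_range_sub, ← Finset.mul_sum] at this
  simpa [hu, h0, h1] using this

variable {N : ℕ} [NeZero N]

lemma sum_zmod (F : ZMod N → ℝ) : ∑ j, F j = ∑ i ∈ Finset.range N, F (i : ZMod N) := by
  symm
  refine Finset.sum_nbij' (fun i : ℕ => (i : ZMod N)) (fun j => j.val) ?_ ?_ ?_ ?_ ?_
  · simp
  · intro j _; simpa using ZMod.val_lt j
  · intro i hi; exact ZMod.val_cast_of_lt (by simpa using hi)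
  · intro j _; simp
  · simp

lemma wirt4 {M : ℕ} (hNM : N = 4 * M) (hN : 16 ≤ N) (f : ZMod N → ℝ)
    (h0 : ∀ q : ℕ, f ((q * M : ℕ) : ZMod N) = 0) :
    (2 + 2 * cos (dl N)) * S (fun j => f j ^ 2) ≤ En2 f f := by
  have hM : 1 ≤ M := by omega
  have hM0 : (0 : ℝ) < M := by exact_mod_cast hM
  have w : ∀ q : ℕ, (2 - 2 * cos (π / M)) * ∑ i ∈ Finset.range M, f ((q * M + i : ℕ) : ZMod N) ^ 2
      ≤ ∑ i ∈ Finset.range M,
        (f (((q * M + i : ℕ) : ZMod N) + 1) - f ((q * M + i : ℕ) : ZMod N)) ^ 2 := by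
    intro q
    have := wirt1 hM (fun i => f ((q * M + i : ℕ) : ZMod N)) (by simpa using h0 q)
      (by simpa [add_mul] using h0 (q + 1))
    simpa [add_assoc] using this
  have split : ∀ G : ℕ → ℝ, ∑ i ∈ Finset.range N, G i
      = ∑ i ∈ Finset.range M, G (0 * M + i) + ∑ i ∈ Finset.range M, G (1 * M + i)
        + ∑ i ∈ Finset.range M, G (2 * M + i) + ∑ i ∈ Finset.range M, G (3 * M + i) := by
    intro G
    have : N = M + M + M + M := by omega
    rw [this, Finset.sum_range_add, Finset.sum_range_add, Finset.sum_range_add]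
    simp only [zero_mul, zero_add, one_mul, two_mul, show 3 * M = M + M + M by ring]
  have h1 : (2 - 2 * cos (π / M)) * ∑ j, f j ^ 2 ≤ ∑ j, (f (j + 1) - f j) * (f (j + 1) - f j) := by
    simp only [← sq]
    rw [sum_zmod, sum_zmod (fun j => (f (j + 1) - f j) ^ 2),
      split (fun i => f (i : ZMod N) ^ 2), split (fun i => (f ((i : ZMod N) + 1) - f i) ^ 2)]
    linarith [w 0, w 1, w 2, w 3]
  have e : π / M = 2 * dl N := by
    unfold dl; rw [hNM]; push_cast; field_simp; norm_num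
  have hs := sin_dl_pos hN
  unfold S En2 ta
  rw [le_div_iff₀ hs]
  refine le_trans (le_of_eq ?_) h1
  rw [e, cos_two_mul]
  field_simp
  ring

lemma cos_dl_ge (hd : dl N ≤ 0.2) (hN : 16 ≤ N) : 0.98 ≤ cos (dl N) := by
  have := one_sub_sq_div_two_le_cos (x := dl N)
  nlinarith [dl_pos hN]

lemma En2_eq (h : ZMod N → ℝ) : En2 h h = S (fun j => h j ^ 2) - 2 * V h := by
  rw [V_eq]; ring

lemma S_sq_sub (h : ZMod N → ℝ) (c : ℝ) :
    S (fun j => (h j - c) ^ 2) = S (fun j => h j ^ 2) - 2 * c * S h + 2 * pN N * c ^ 2 := by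
  have h2 : (fun j => (h j - c) ^ 2) = fun j => (h j ^ 2 + (-2 * c) * h j) + c ^ 2 := by
    funext j; ring
  rw [h2, S_add_const, S_add, S_mul]; ring

lemma wirt_main {M : ℕ} (hNM : N = 4 * M) (hN : 16 ≤ N) (hd : dl N ≤ 0.2) {h : ZMod N → ℝ}
    {c R hb : ℝ} (h0 : ∀ q : ℕ, h ((q * M : ℕ) : ZMod N) = c) (hV : V h = pN N * R ^ 2)
    (hS : S h = 2 * pN N * hb) (hR : 0 ≤ R) (hRb : R ≤ hb) :
    S (fun j => (h j - R) ^ 2) ≤ 2 * pN N * (hb - R) * (0.34 * (hb + R) + hb - R) := by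
  have hp := pN_pos hN
  have h1 := wirt4 hNM hN (fun j => h j - c) (fun q => by simp only [h0 q, sub_self])
  have e1 : En2 (fun j => h j - c) (fun j => h j - c) = En2 h h := by
    unfold En2; congr 1; exact Finset.sum_congr rfl fun j _ => by ring
  have h2 : 0 ≤ S (fun j => (h j - hb) ^ 2) := S_nonneg hN fun j => sq_nonneg _
  have h3 := cos_dl_ge hd hN
  rw [e1, En2_eq, S_sq_sub, hV, hS] at h1
  rw [S_sq_sub, hS] at h2 ⊢
  set Y := S (fun j => h j ^ 2)
  have h4 : 0 ≤ pN N * (c - hb) ^ 2 := by positivity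
  have h5 : 0 ≤ Y - 2 * c * (2 * pN N * hb) + 2 * pN N * c ^ 2 := by nlinarith
  have h6 := mul_le_mul_of_nonneg_right h3 h5
  have h7 : 0 ≤ pN N * ((hb - R) * (hb + R)) :=
    mul_nonneg hp.le (mul_nonneg (by linarith) (by linarith))
  nlinarith

lemma pi_le_pN (hN : 16 ≤ N) : π ≤ pN N := by
  have hd := dl_pos hN
  have hd' := dl_le hN
  have h1 := le_tan (x := dl N / 2) (by linarith) (by linarith [pi_gt_three])
  have hc : 0 < cos (dl N / 2) := cos_pos_of_mem_Ioo ⟨by linarith [pi_gt_three], by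
    linarith [pi_gt_three]⟩
  have hs : 0 < sin (dl N / 2) := sin_pos_of_pos_of_lt_pi (by linarith) (by linarith [pi_gt_three])
  have e : ta N = 2 * tan (dl N / 2) := by
    unfold ta
    have a : sin (dl N) = 2 * sin (dl N / 2) * cos (dl N / 2) := by
      rw [← sin_two_mul]; congr 1; ring
    have b : cos (dl N) = 1 - 2 * sin (dl N / 2) ^ 2 := by
      have := cos_two_mul (dl N / 2)
      have h2 := sin_sq_add_cos_sq (dl N / 2)
      rw [show 2 * (dl N / 2) = dl N by ring] at this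
      linarith
    rw [a, b, tan_eq_sin_div_cos]; field_simp; ring
  have hm := dl_mul hN
  have : (0 : ℝ) ≤ N := Nat.cast_nonneg N
  unfold pN; rw [e]; nlinarith

lemma pN_le (hN : 16 ≤ N) : pN N ≤ 4 := by
  have hd := dl_pos hN
  have hd' := dl_le hN
  have h1 := one_sub_sq_div_two_le_cos (x := dl N)
  have h2 := sin_gt_sub_cube hd
  have h3 : ta N ≤ 1.1 * dl N := by
    unfold ta
    rw [div_le_iff₀ (sin_dl_pos hN)]
    have : dl N ^ 3 ≤ 0.16 * dl N := by nlinarith
    nlinarith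
  have hm := dl_mul hN
  have : (0 : ℝ) ≤ N := Nat.cast_nonneg N
  have := mul_le_mul_of_nonneg_left h3 this
  unfold pN; nlinarith [pi_lt_d2]

lemma dir_quarter {M : ℕ} (hNM : N = 4 * M) (hN : 16 ≤ N) (e0 : ℂ) (q : ℕ) :
    dir e0 ((q * M : ℕ) : ZMod N) = Complex.I ^ q * e0 := by
  have h := dir_add_int e0 (0 : ZMod N) ((q * M : ℕ) : ℤ)
  have h0 : dir e0 (0 : ZMod N) = e0 := by simp [dir]
  rw [zero_add, Int.cast_natCast, h0] at h
  rw [h]; congr 1
  have hM0 : (M : ℝ) ≠ 0 := by exact_mod_cast (by omega : M ≠ 0)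
  have e : (((q * M : ℕ) : ℤ) : ℝ) * dl N = q * (π / 2) := by
    unfold dl; rw [hNM]; push_cast; field_simp; norm_num
  have e2 : (((q : ℝ) * (π / 2) : ℝ) : ℂ) * Complex.I = q * ((π : ℂ) / 2 * Complex.I) := by
    push_cast; ring
  rw [e, e2, Complex.exp_nat_mul, Complex.exp_pi_div_two_mul_I]

end Pool.Agent.P.MP_342f9e_an
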