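import Pool.Agent.P.MP_342f9e_an.Asym
import Pool.Agent.P.MP_342f9e_an.Wirt

set_option autoImplicit false

open Real MeasureTheory Set Filter Topology

namespace Pool.Agent.P.MP_342f9e_an

noncomputable def Jd (t : ℝ) : ℝ := 2 * (I0 t * I1 t)

noncomputable def Ff (t : ℝ) : ℝ := I0 t ^ 2 + I1 t ^ 2

@[fun_prop] lemma continuous_Jd : Continuous Jd := by unfold Jd; fun_prop

@[fun_prop] lemma continuous_Ff : Continuous Ff := by unfold Ff; fun_prop

lemma integral_split {f g : ℝ → ℝ} (hf : Continuous f) {z T : ℝ} (h0 : 0 ≤ z) (hT : z ≤ T)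
    (h1 : ∀ t ∈ Icc 0 z, f t = g t) (h2 : ∀ t ∈ Icc z T, f t = 0) :
    ∫ t in (0 : ℝ)..T, f t = ∫ t in (0 : ℝ)..z, g t := by
  rw [← intervalIntegral.integral_add_adjacent_intervals (hf.intervalIntegrable 0 z)
    (hf.intervalIntegrable z T),
    intervalIntegral.integral_congr (g := g) (by rw [uIcc_of_le h0]; exact h1),
    intervalIntegral.integral_congr (a := z) (g := fun _ => 0) (by rw [uIcc_of_le hT]; exact h2)]
  simp

lemma C1 {s h z T : ℝ} (h0 : 0 ≤ z) (hT : z ≤ T) :
    ∫ t in (0 : ℝ)..T, (nd s t * ((h ^ 2 - min h (h - z + t) ^ 2) / 2)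
      - s * Jd t * (h - min h (h - z + t))) = h * Mt s z - Wf z := by
  rw [integral_split (g := fun t => nd s t * ((h ^ 2 - (h - z + t) ^ 2) / 2) - s * Jd t * (z - t))
    (by fun_prop) h0 hT
    (fun t ht => by rw [min_eq_right (by linarith [ht.2])]; ring)
    (fun t ht => by rw [min_eq_left (by linarith [ht.1])]; ring)]
  rw [intervalIntegral.integral_eq_sub_of_hasDerivAt
    (f := fun t => (nf s t - 1) * ((h ^ 2 - (h - z + t) ^ 2) / 2) + Mt s t * (h - z + t)
      - s * ((I0 t ^ 2 - 1) * (z - t)) - Wf t)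
    (fun t _ => by
      have h1 : HasDerivAt (fun t => h - z + t) 1 t := (hasDerivAt_id t).const_add _
      have := ((((hasDerivAt_nf s t).sub_const 1).mul (((h1.pow 2).const_sub (h ^ 2)).div_const 2)).add
        ((hasDerivAt_Mt s t).mul h1)).sub ((((hasDerivAt_J t).sub_const 1).mul
          ((hasDerivAt_id t).const_sub z)).const_mul s) |>.sub (hasDerivAt_Wf t)
      refine this.congr_deriv ?_
      simp only [id, Jd, Mt, Pi.pow_apply]; push_cast; ring)
    (Continuous.intervalIntegrable (by fun_prop) _ _)]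
  simp only [nf_zero, Mt_zero, I0_zero, Wf_zero]
  ring

lemma C2 {s ha hb a b T : ℝ} (hs : s ≤ 1) (h0 : 1.6 ≤ a) (hab : a ≤ b) (hT : b ≤ T) :
    (hb - ha - (b - a) / 2) * (Mt s b - Mt s a) ≤ ∫ t in (0 : ℝ)..T, nd s t *
      (((hb - ha) ^ 2 - (min hb (hb - b + t) - min ha (ha - a + t)) ^ 2) / 2) := by
  set d := hb - ha with hd
  have hc : Continuous fun t => nd s t * ((d ^ 2 - (d - b + max t a) ^ 2) / 2) := by fun_prop
  rw [integral_split (g := fun t => nd s t * ((d ^ 2 - (d - b + max t a) ^ 2) / 2))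
    (by fun_prop) (by linarith) hT
    (fun t ht => by
      rw [min_eq_right (by linarith [ht.2])]
      rcases le_total t a with h | h
      · rw [min_eq_right (by linarith), max_eq_right h]; congr 4; ring
      · rw [min_eq_left (by linarith), max_eq_left h]; congr 4; ring)
    (fun t ht => by
      rw [min_eq_left (by linarith [ht.1]), min_eq_left (by linarith [ht.1])]; ring),
    ← intervalIntegral.integral_add_adjacent_intervals (hc.intervalIntegrable 0 a)
      (hc.intervalIntegrable a b),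
    intervalIntegral.integral_congr (a := 0) (b := a)
      (g := fun t => nd s t * ((d ^ 2 - (d - b + a) ^ 2) / 2))
      (by rw [uIcc_of_le (by linarith)]; intro t ht; simp only [max_eq_right ht.2]),
    intervalIntegral.integral_mul_const,
    intervalIntegral.integral_eq_sub_of_hasDerivAt (fun t _ => hasDerivAt_nf s t)
      ((continuous_nd s).intervalIntegrable _ _), nf_zero]
  have h1 := intervalIntegral.integral_eq_sub_of_hasDerivAt (a := a) (b := b)
    (f := fun t => (nf s t - 1) * ((d ^ 2 - (d - b + t) ^ 2) / 2) + d * Mt s t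
      + (b - t) * (Mt s b - Mt s t) / 2)
    (f' := fun t => nd s t * ((d ^ 2 - (d - b + t) ^ 2) / 2)
      + ((b - t) * (nf s t - 1) - (Mt s b - Mt s t)) / 2)
    (fun t _ => by
      have h1 : HasDerivAt (fun t => d - b + t) 1 t := (hasDerivAt_id t).const_add _
      have := ((((hasDerivAt_nf s t).sub_const 1).mul (((h1.pow 2).const_sub (d ^ 2)).div_const 2)).add
        ((hasDerivAt_Mt s t).const_mul d)).add ((((hasDerivAt_id t).const_sub b).mul
          ((hasDerivAt_Mt s t).const_sub (Mt s b))).div_const 2)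
      refine this.congr_deriv ?_
      simp only [id, Pi.pow_apply]; push_cast; ring)
    (Continuous.intervalIntegrable (by fun_prop) _ _)
  have h2 := intervalIntegral.integral_mono_on (μ := volume) hab
    (f := fun t => nd s t * ((d ^ 2 - (d - b + t) ^ 2) / 2)
      + ((b - t) * (nf s t - 1) - (Mt s b - Mt s t)) / 2)
    (Continuous.intervalIntegrable (by fun_prop) _ _) (hc.intervalIntegrable a b)
    (fun t ht => by
      have := Mt_lower hs (h0.trans ht.1) ht.2
      simp only [max_eq_left ht.1]; linarith)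
  rw [h1] at h2
  linarith

variable {N : ℕ} [NeZero N]

/-- support numbers of the sublevel sets -/
noncomputable def mt (h g : ZMod N → ℝ) (t : ℝ) : ZMod N → ℝ := fun j => min (h j) (g j + t)

lemma continuous_V_mt (h g : ZMod N → ℝ) : Continuous fun t => V (mt h g t) := by
  unfold V Bf ell mt; fun_prop

lemma continuous_S_mt (h g : ZMod N → ℝ) : Continuous fun t => S (mt h g t) := by
  unfold S mt; fun_prop

lemma lemC (hN : 16 ≤ N) {h z : ZMod N → ℝ} {s ν T : ℝ} (hs : s ≤ 1) (hz : ∀ j, 1.6 ≤ z j)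
    (hT : ∀ j, z j ≤ T)
    (hmono : ∀ i j, h i ≤ h j → z i ≤ z j ∧
      ν * (h j - h i) ^ 2 ≤ (h j - h i - (z j - z i) / 2) * (Mt s (z j) - Mt s (z i))) :
    (∫ t in (0 : ℝ)..T, nd s t * (V h - V (mt h (fun j => h j - z j) t)))
      - s * ∫ t in (0 : ℝ)..T, Jd t * (S h - S (mt h (fun j => h j - z j) t))
      ≤ S (fun j => h j * Mt s (z j) - Wf (z j)) - ν * En2 h h := by
  have hsin := sin_dl_pos hN
  have c1 := continuous_V_mt h (fun j => h j - z j)
  have c2 := continuous_S_mt h (fun j => h j - z j)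
  rw [← intervalIntegral.integral_const_mul, ← intervalIntegral.integral_sub
    (Continuous.intervalIntegrable (by fun_prop) _ _)
    (Continuous.intervalIntegrable (by fun_prop) _ _)]
  have e : ∀ t, nd s t * (V h - V (mt h (fun j => h j - z j) t))
      - s * (Jd t * (S h - S (mt h (fun j => h j - z j) t)))
      = ta N * (∑ j, (nd s t * ((h j ^ 2 - min (h j) (h j - z j + t) ^ 2) / 2)
          - s * Jd t * (h j - min (h j) (h j - z j + t))))
        - (sin (dl N))⁻¹ * ∑ j, nd s t * (((h (j + 1) - h j) ^ 2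
          - (min (h (j + 1)) (h (j + 1) - z (j + 1) + t) - min (h j) (h j - z j + t)) ^ 2) / 2) := by
    intro t
    rw [V_eq, V_eq]
    unfold S En2 mt
    simp only [Finset.sum_sub_distrib, ← Finset.mul_sum, ← Finset.sum_div, sq]
    ring
  simp only [e]
  rw [intervalIntegral.integral_sub (Continuous.intervalIntegrable (by fun_prop) _ _)
    (Continuous.intervalIntegrable (by fun_prop) _ _), intervalIntegral.integral_const_mul,
    intervalIntegral.integral_const_mul,
    intervalIntegral.integral_finset_sum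
      (fun j _ => Continuous.intervalIntegrable (by fun_prop) _ _),
    intervalIntegral.integral_finset_sum
      (fun j _ => Continuous.intervalIntegrable (by fun_prop) _ _)]
  simp only [fun j => C1 (s := s) (h := h j) (by linarith [hz j]) (hT j)]
  have h2 : ν * En2 h h ≤ (sin (dl N))⁻¹ * ∑ j, ∫ t in (0 : ℝ)..T, nd s t *
      (((h (j + 1) - h j) ^ 2 - (min (h (j + 1)) (h (j + 1) - z (j + 1) + t)
        - min (h j) (h j - z j + t)) ^ 2) / 2) := by
    unfold En2
    rw [mul_div_assoc', div_eq_inv_mul, Finset.mul_sum]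
    refine mul_le_mul_of_nonneg_left (Finset.sum_le_sum fun j _ => ?_) (inv_nonneg.2 hsin.le)
    rw [← sq]
    rcases le_total (h j) (h (j + 1)) with hh | hh
    · obtain ⟨a, b⟩ := hmono _ _ hh
      exact b.trans (C2 hs (hz j) a (hT _))
    · obtain ⟨a, b⟩ := hmono _ _ hh
      have := b.trans (C2 hs (hz _) a (hT _))
      rw [← neg_sub (h j), neg_sq]
      refine this.trans (le_of_eq ?_)
      congr 1; funext t; ring
  unfold S at *
  linarith

lemma En2_mt_le (hN : 16 ≤ N) {h z : ZMod N → ℝ}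
    (hmono : ∀ i j, h i ≤ h j → z i ≤ z j ∧ z j - z i ≤ h j - h i) (t : ℝ) :
    En2 (mt h (fun j => h j - z j) t) (mt h (fun j => h j - z j) t) ≤ En2 h h := by
  have key : ∀ i j, h i ≤ h j → (min (h j) (h j - z j + t) - min (h i) (h i - z i + t)) ^ 2
      ≤ (h j - h i) ^ 2 := by
    intro i j hij
    obtain ⟨a, b⟩ := hmono i j hij
    refine pow_le_pow_left₀ (sub_nonneg.2 (min_le_min hij (by linarith))) ?_ 2
    rcases le_total (h i) (h i - z i + t) with c | c
    · rw [min_eq_left c]; linarith [min_le_left (h j) (h j - z j + t)]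
    · rw [min_eq_right c]; linarith [min_le_right (h j) (h j - z j + t)]
  unfold En2 mt
  refine div_le_div_of_nonneg_right (Finset.sum_le_sum fun j _ => ?_) (sin_dl_pos hN).le
  rw [← sq, ← sq]
  rcases le_total (h j) (h (j + 1)) with hh | hh
  · exact key _ _ hh
  · have := key _ _ hh
    nlinarith

/-- the algebraic conclusion of the delayed test -/
lemma mainII {M : ℕ} (hNM : N = 4 * M) (hN : 16 ≤ N) (hd : dl N ≤ 0.2) {h z : ZMod N → ℝ}
    {c R hb hc ν a b T : ℝ} (h0 : ∀ q : ℕ, h ((q * M : ℕ) : ZMod N) = c) (hV : V h = pN N * R ^ 2)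
    (hS : S h = 2 * pN N * hb) (hR : 0 ≤ R) (hRb : R ≤ hb) (hbc : hb ≤ hc) (hb0 : 0 ≤ b)
    (hab : b * (0.34 * (hc + R) + hc - R) ≤ a)
    (hpt : ∀ j, h j * Mt (pf R) (z j) - Wf (z j) - pf R * h j + R ^ 2 / 2
      - (ν - T / 2) * (h j ^ 2 - R ^ 2) ≤ -a * (h j - R) + b * (h j - R) ^ 2) :
    V h - pf R * S h + S (fun j => h j * Mt (pf R) (z j) - Wf (z j)) - ν * En2 h h
      + T * (En2 h h / 2) ≤ 0 := by
  have hp := pN_pos hN
  have h1 := S_mono hN hpt
  have h2 := wirt_main hNM hN hd h0 hV hS hR hRb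
  rw [S_sub, S_add_const, S_sub, S_mul, S_mul, S_sub_const, S_add, S_mul, S_mul, S_sub_const] at h1
  rw [En2_eq]
  have h3 := mul_le_mul_of_nonneg_left h2 hb0
  have h4 : 0 ≤ 2 * pN N * (hb - R) := mul_nonneg (by linarith) (by linarith)
  have h5 : b * (0.34 * (hb + R) + hb - R) ≤ a :=
    le_trans (mul_le_mul_of_nonneg_left (by linarith) hb0) hab
  have h6 := mul_le_mul_of_nonneg_left h5 h4
  rw [hV, hS] at *
  linarith

end Pool.Agent.P.MP_342f9e_an
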