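import Pool.Agent.P.MP_342f9e_an.CoreA

set_option autoImplicit false

open Real MeasureTheory Set Filter Topology

namespace Pool.Agent.P.MP_342f9e_an

lemma nd_zero_nonneg {t : ℝ} (ht : 0 ≤ t) : 0 ≤ nd 0 t := by
  have h1 := pd_nonneg' ht
  have h2 := I0_pos t
  have h3 : Gf t / I0 t ≤ 1 := by unfold pd at h1; nlinarith [sq_nonneg (pf t)]
  rw [div_le_one h2] at h3
  have := mul_nonneg (I1_nonneg ht) (by linarith : 0 ≤ 2 * I0 t - Gf t)
  unfold nd; linarith

lemma pf_add_le {x y : ℝ} (hx : 0 ≤ x) (hy : 0 ≤ y) : pf (x + y) ≤ pf x + y := by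
  have h := le_of_deriv (f := fun t => t - pf t) (f' := fun t => 1 - pd t)
    (by linarith : x ≤ x + y) (fun t _ => (hasDerivAt_id t).sub (hasDerivAt_pf t))
    (fun t _ => by
      have := div_pos (Gf_pos t) (I0_pos t)
      unfold pd; nlinarith [sq_nonneg (pf t)])
  linarith

variable {N : ℕ} [NeZero N]

theorem testI (hN : 16 ≤ N) {e0 : ℂ} (he : ‖e0‖ = 1) {Ω : Set ℂ} (ho : IsOpen Ω)
    (hf : μH[1] (frontier Ω) < ⊤) {h : ZMod N → ℝ} (hK : closure Ω ⊆ K e0 h) (ht : Tight e0 h)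
    {R hb w s0 e1 ε : ℝ} (hR : 0 ≤ R) (hV : V h = pN N * R ^ 2) (hS : S h = 2 * pN N * hb)
    (hw0 : 0 ≤ w) (hw : w ≤ hb) (hs0 : 0 ≤ s0) (hin : K e0 (fun j => h j - s0) ⊆ Ω) (hε : 0 < ε)
    (he1 : 0 ≤ e1)
    (hL : ε * (S h - e1) ≤ volume.real Ω - volume.real (K e0 (fun j => h j - ε)))
    (hmain : R ^ 2 + 2 * hb * (w * Df w - w - pf R * I0 w ^ 2) + w ^ 2 - 2 * w * Ef w ≤ 0) :
    (∫ x in Ω, Ff (rho e0 (fun j => h j - w) x))
      - pf R * ∫ x in frontier Ω, I0 (rho e0 (fun j => h j - w) x) ^ 2 ∂μH[1]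
      ≤ Ff w * (e1 + s0 * μH[1].real (frontier Ω)) := by
  have hp := pN_pos hN
  have hK' : Ω ⊆ K e0 h := subset_closure.trans hK
  have hbd : Bornology.IsBounded (closure Ω) := (isCompact_K hN he h).isBounded.subset hK
  have hρ := continuous_rho he (fun j => h j - w)
  have hm : ∀ t, t ≤ w → mt h (fun j => h j - w) t = fun j => h j - (w - t) := by
    intro t htw; funext j; unfold mt; rw [min_eq_right (by linarith)]; ring
  have b := lemB hN he ho hK' ht (g := fun j => h j - w) (by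
      rw [hm 0 hw0, S_sub_const, hS]; nlinarith) hw0 (fun j => by linarith)
    (hasDerivAt_nf 0) (continuous_nd 0)
    (fun t _ => En2_mt_le hN (z := fun _ => w) (fun i j hij => ⟨le_rfl, by linarith⟩) t)
  rw [intervalIntegral.integral_congr (f := fun t => max (-nd 0 t) 0) (g := fun _ => 0) (by
      rw [uIcc_of_le hw0]; intro t htt
      exact max_eq_right (by linarith [nd_zero_nonneg htt.1])),
    intervalIntegral.integral_congr (f := fun t => nd 0 t * (V h - V (mt h (fun j => h j - w) t)))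
      (g := fun t => nd 0 t * ((w - t) * S h - pN N * (w - t) ^ 2)) (by
      rw [uIcc_of_le hw0]; intro t htt
      simp only [hm t htt.2, V_sub_const]; ring),
    intervalIntegral.integral_eq_sub_of_hasDerivAt
      (f := fun t => (nf 0 t - 1) * ((w - t) * S h - pN N * (w - t) ^ 2)
        + Mt 0 t * (S h - 2 * pN N * (w - t)) - 2 * pN N * Wf t)
      (fun t _ => by
        have h1 : HasDerivAt (fun t => w - t) (-1) t := (hasDerivAt_id t).const_sub _
        have := ((((hasDerivAt_nf 0 t).sub_const 1).mul ((h1.mul_const (S h)).sub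
          ((h1.pow 2).const_mul (pN N)))).add ((hasDerivAt_Mt 0 t).mul
            ((h1.const_mul (2 * pN N)).const_sub (S h)))).sub
              ((hasDerivAt_Wf t).const_mul (2 * pN N))
        refine this.congr_deriv ?_
        simp only [Mt, Pi.pow_apply, Pi.sub_apply]; push_cast; ring)
      (Continuous.intervalIntegrable (by fun_prop) _ _)] at b
  simp only [nf_zero, Mt_zero, Wf_zero, intervalIntegral.integral_zero] at b
  have e : ∀ x, nf 0 x = Ff x := fun x => by unfold nf Ff; ring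
  simp only [e] at b
  have hF : 0 ≤ Ff w := by unfold Ff; positivity
  have c := setIntegral_mono_on (μ := μH[1]) (s := frontier Ω) (f := fun _ => I0 w ^ 2 - s0 * Ff w)
    (g := fun x => I0 (rho e0 (fun j => h j - w) x) ^ 2) (integrableOn_const hf.ne)
    (integrableOn_of_cont hf isClosed_frontier.measurableSet (hbd.subset frontier_subset_closure)
      (by fun_prop)) isClosed_frontier.measurableSet (fun x hx => by
      have h1 : w - s0 ≤ rho e0 (fun j => h j - w) x := by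
        rw [ho.frontier_eq] at hx
        have : x ∉ K e0 (fun j => h j - s0) := fun hh => hx.2 (hin hh)
        simp only [K, Set.mem_ofPred_eq, not_forall, not_le] at this
        obtain ⟨j, hj⟩ := this
        linarith [le_rho e0 (fun j => h j - w) x j]
      have h2 := rho_nonneg e0 (fun j => h j - w) x
      have h3 := J_lip (le_max_left 0 (w - s0)) (max_le hw0 (by linarith)) le_rfl
      have h4 := pow_le_pow_left₀ (I0_pos _).le (I0_mono (le_max_left 0 (w - s0)) (max_le h2 h1)) 2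
      have h5 := mul_le_mul_of_nonneg_right
        (show w - max 0 (w - s0) ≤ s0 by linarith [le_max_right 0 (w - s0)]) hF
      linarith)
  rw [setIntegral_const, smul_eq_mul] at c
  have d : S h - e1 ≤ μH[1].real (frontier Ω) :=
    le_of_mul_le_mul_left (hL.trans (len_ge hN he ho hf hK' hε)) hε
  have f : volume.real Ω ≤ V h := by
    rw [← vol_eq_V_of_tight hN he ht]; exact measureReal_mono hK' (vol_K_ne_top hN he _)
  have hσ0 := pf_nonneg hR
  have hσ1 := (pf_lt_one hR).le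
  have hL0 : 0 ≤ μH[1].real (frontier Ω) := measureReal_nonneg
  set L := μH[1].real (frontier Ω)
  have g1 := mul_le_mul_of_nonneg_left c hσ0
  have g2 := mul_le_mul_of_nonneg_left d (mul_nonneg hσ0 (sq_nonneg (I0 w)))
  have g3 := mul_le_mul_of_nonneg_left hmain hp.le
  have g4 : pf R * (I0 w ^ 2 * e1) ≤ 1 * (Ff w * e1) :=
    mul_le_mul hσ1 (mul_le_mul_of_nonneg_right (J_le_Ff w) he1) (by positivity) zero_le_one
  have g5 : pf R * (Ff w * (s0 * L)) ≤ 1 * (Ff w * (s0 * L)) :=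
    mul_le_mul_of_nonneg_right hσ1 (by positivity)
  unfold Mt Wf at b
  rw [hS] at b g2
  rw [hV] at f
  linarith

theorem testII {M : ℕ} (hNM : N = 4 * M) (hN : 16 ≤ N) (hd : dl N ≤ 0.2) {e0 : ℂ} (he : ‖e0‖ = 1)
    {Ω : Set ℂ} (ho : IsOpen Ω)
    (hf : μH[1] (frontier Ω) < ⊤) {h : ZMod N → ℝ} (hK : closure Ω ⊆ K e0 h) (ht : Tight e0 h)
    {R hb hc c C e1 ε : ℝ} (hR : 0 ≤ R) (hV : V h = pN N * R ^ 2) (hS : S h = 2 * pN N * hb)
    (hRb : R ≤ hb) (hbc : hb ≤ hc) (hRC : R ≤ C) (hh0 : ∀ j, 0 ≤ h j) (hhC : ∀ j, h j ≤ C)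
    (h0 : ∀ q : ℕ, h ((q * M : ℕ) : ZMod N) = c) (hε : 0 < ε) (he1 : 0 ≤ e1)
    (hL : ε * (S h - e1) ≤ volume.real Ω - volume.real (K e0 (fun j => h j - ε)))
    (hmain : GoodII R hc) :
    ∃ g : ZMod N → ℝ, (∀ j, h j ≤ g j + C) ∧ (∫ x in Ω, Ff (rho e0 g x))
      - pf R * ∫ x in frontier Ω, I0 (rho e0 g x) ^ 2 ∂μH[1]
      ≤ 1.14 * (V h - volume.real Ω) + Ff C * (e1 + 16 * ε + 4 * ε * volume.real Ω) := by
  obtain ⟨ν, a, b, s, Z, hb0, hab, hs0, hs1, hZ, hZm, hpt⟩ := hmain
  have hp := pN_pos hN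
  have hK' : Ω ⊆ K e0 h := subset_closure.trans hK
  have hΩ : volume Ω < ⊤ := (measure_mono hK').trans_lt (vol_K_ne_top hN he h).lt_top
  have hbd : Bornology.IsBounded Ω := (isCompact_K hN he h).isBounded.subset hK'
  have hC : 0 ≤ C := hR.trans hRC
  have hσ0 := pf_nonneg hR
  have hσ1 := (pf_lt_one hR).le
  have hZC : ∀ j, Z (h j) ≤ C := fun j => by
    have a1 := (hZ _ (hh0 j)).2
    nlinarith [mul_nonneg hs0 (sub_nonneg.2 (hhC j)),
      mul_nonneg (sub_nonneg.2 hs1) (sub_nonneg.2 hRC)]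
  set g : ZMod N → ℝ := fun j => h j - Z (h j) with hg
  have hgT : ∀ j, h j ≤ g j + C := fun j => by simp only [hg]; linarith [hZC j]
  have hm0 : 0 ≤ S (mt h g 0) := by
    have := S_mono hN (f := fun j => (1 - s) * (h j - R)) (g := mt h g 0) fun j => by
      obtain ⟨a1, a2⟩ := hZ _ (hh0 j)
      simp only [mt, hg]
      rw [min_eq_right (by linarith)]; linarith
    rw [S_mul, S_sub_const, hS] at this
    refine le_trans (mul_nonneg (by linarith) ?_) this
    nlinarith
  refine ⟨g, hgT, ?_⟩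
  have hρ := continuous_rho he g
  have A := lemA hN he ho hf hK hm0 hε hC hgT he1 hL
  have B := lemB hN he ho hK' ht hm0 hC hgT (hasDerivAt_nf (pf R)) (continuous_nd _)
    (fun t _ => En2_mt_le hN (z := fun j => Z (h j))
      (fun i j hij => ⟨(hZm _ _ (hh0 i) hij).1, (hZm _ _ (hh0 i) hij).2.1⟩) t)
  have Cc := lemC hN (h := h) (z := fun j => Z (h j)) (ν := ν) hσ1 (fun j => (hZ _ (hh0 j)).1) hZC
    (fun i j hij => ⟨(hZm _ _ (hh0 i) hij).1, (hZm _ _ (hh0 i) hij).2.2⟩)
  have D := mainII hNM hN hd h0 hV hS hR hRb hbc hb0 hab (fun j => hpt _ (hh0 j))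
  have f : volume.real Ω ≤ V h := by
    rw [← vol_eq_V_of_tight hN he ht]; exact measureReal_mono hK' (vol_K_ne_top hN he _)
  have E1 := mul_le_mul_of_nonneg_right (integral_neg_nd hσ0 hσ1 hC)
    (show 0 ≤ V h - volume.real Ω + En2 h h / 2 by linarith [En2_nonneg hN h])
  have E2 := mul_le_mul_of_nonneg_right (Tb_le hσ0 hσ1) (sub_nonneg.2 f)
  have e : ∫ x in Ω, nf (pf R) (rho e0 g x)
      = (∫ x in Ω, Ff (rho e0 g x)) - pf R * ∫ x in Ω, Jd (rho e0 g x) := by
    rw [← integral_const_mul, ← integral_sub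
      (integrableOn_of_cont hΩ ho.measurableSet hbd (by fun_prop))
      (integrableOn_of_cont hΩ ho.measurableSet hbd (by fun_prop))]
    congr 1; funext x; unfold nf Ff Jd; ring
  rw [e, nf_zero] at B
  have A' := mul_le_mul_of_nonneg_left A hσ0
  have hF : 0 ≤ Ff C := by unfold Ff; positivity
  have hA0 : 0 ≤ volume.real Ω := measureReal_nonneg
  have E3 : pf R * (Ff C * (e1 + 16 * ε + 4 * ε * volume.real Ω))
      ≤ 1 * (Ff C * (e1 + 16 * ε + 4 * ε * volume.real Ω)) :=
    mul_le_mul_of_nonneg_right hσ1 (by positivity)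
  linarith

end Pool.Agent.P.MP_342f9e_an
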