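import Pool.Agent.P.MP_342f9e_an.CoreD

set_option autoImplicit false

open Real MeasureTheory Set Filter Topology

namespace Pool.Agent.P.MP_342f9e_an

/-- `c` is the value of the support function in the direction `w` -/
def Sup (Ω : Set ℂ) (w : ℂ) (c : ℝ) : Prop :=
  (∀ x ∈ closure Ω, dot w x ≤ c) ∧ ∃ p ∈ closure Ω, dot w p = c

lemma Sup.unique {Ω : Set ℂ} {w : ℂ} {c d : ℝ} (h1 : Sup Ω w c) (h2 : Sup Ω w d) : c = d := by
  obtain ⟨p, hp, e⟩ := h1.2
  obtain ⟨q, hq, e'⟩ := h2.2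
  exact le_antisymm (e ▸ h2.1 p hp) (e' ▸ h1.1 q hq)

lemma exists_hs {Ω : Set ℂ} (hb : Bornology.IsBounded Ω) (hne : Ω.Nonempty) :
    ∃ H : ℂ → ℝ, Continuous H ∧ ∀ w, Sup Ω w (H w) := by
  have : ∀ w : ℂ, ∃ p ∈ closure Ω, IsMaxOn (dot w) (closure Ω) p := fun w =>
    hb.isCompact_closure.exists_isMaxOn hne.closure (continuous_dot w).continuousOn
  choose p hp hmax using this
  obtain ⟨C, hC0, hC⟩ := hb.closure.exists_pos_norm_le
  refine ⟨fun w => dot w (p w), ?_, fun w => ⟨fun x hx => hmax w hx, p w, hp w, rfl⟩⟩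
  refine (LipschitzWith.of_le_add_mul' C fun w v => ?_).continuous
  have a : dot v (p w) ≤ dot v (p v) := hmax v (hp w)
  have b := dot_le (w - v) (p w)
  have c := mul_le_mul_of_nonneg_left (hC _ (hp w)) (norm_nonneg (w - v))
  rw [dot_sub_left] at b
  rw [dist_eq_norm]; linarith

lemma exists_square {Ω : Set ℂ} (hb : Bornology.IsBounded Ω) (hne : Ω.Nonempty) :
    ∃ (e0 y : ℂ) (c : ℝ), ‖e0‖ = 1 ∧
      ∀ q : ℕ, Sup Ω (Complex.I ^ q * e0) (c + dot (Complex.I ^ q * e0) y) := by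
  obtain ⟨H, hH, hs⟩ := exists_hs hb hne
  set F : ℝ → ℝ := fun θ => H (Complex.exp (θ * Complex.I)) + H (-Complex.exp (θ * Complex.I))
    - H (Complex.I * Complex.exp (θ * Complex.I)) - H (-(Complex.I * Complex.exp (θ * Complex.I)))
    with hF
  have hFc : Continuous F := by rw [hF]; fun_prop
  have e : F (π / 2) = - F 0 := by
    simp only [hF]
    push_cast
    rw [Complex.exp_pi_div_two_mul_I]
    simp only [Complex.I_mul_I, neg_neg, zero_mul, Complex.exp_zero, mul_one]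
    ring
  obtain ⟨θ, hθ⟩ : ∃ θ, F θ = 0 := by
    have := intermediate_value_univ 0 (π / 2) hFc
    have h2 := intermediate_value_univ (π / 2) 0 hFc
    rcases le_total (F 0) 0 with h | h
    · exact this ⟨h, by linarith⟩
    · exact h2 ⟨by linarith, h⟩
  set e0 := Complex.exp (θ * Complex.I) with he0
  have he : ‖e0‖ = 1 := Complex.norm_exp_ofReal_mul_I θ
  obtain ⟨y, hy1, hy2⟩ := exists_coord he ((H e0 - H (-e0)) / 2)
    ((H (Complex.I * e0) - H (-(Complex.I * e0))) / 2)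
  refine ⟨e0, y, (H e0 + H (-e0)) / 2, he, fun q => ?_⟩
  simp only [hF] at hθ
  rw [← he0] at hθ
  have hq : Complex.I ^ q = Complex.I ^ (q % 4) := by
    conv_lhs => rw [← Nat.div_add_mod q 4, pow_add, pow_mul, Complex.I_pow_four, one_pow, one_mul]
  rw [hq]
  have : q % 4 < 4 := Nat.mod_lt _ (by norm_num)
  interval_cases q % 4
  · rw [pow_zero, one_mul, hy1]; convert hs e0 using 1; ring
  · rw [pow_one, dot_I_mul, hy2]; convert hs _ using 1; linarith
  · rw [Complex.I_sq, neg_one_mul, dot_neg_left, hy1]; convert hs _ using 1; ring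
  · rw [Complex.I_pow_three, neg_mul, dot_neg_left, dot_I_mul, hy2]; convert hs _ using 1; linarith

lemma exists_dot_nonneg {Ω : Set ℂ} {e0 : ℂ} (he : ‖e0‖ = 1) {c : ℝ}
    (hsq : ∀ q : ℕ, Sup Ω (Complex.I ^ q * e0) c) (w : ℂ) : ∃ p ∈ closure Ω, 0 ≤ dot w p := by
  have h0 := hsq 0
  have h1 := hsq 1
  have h2 := hsq 2
  have h3 := hsq 3
  unfold Sup at h0 h1 h2 h3
  simp only [pow_zero, one_mul, pow_one, Complex.I_sq, Complex.I_pow_three, neg_mul,
    dot_neg_left, dot_I_mul] at h0 h1 h2 h3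
  have key : ∀ p, dot w p = dot e0 w * dot e0 p + tang e0 w * tang e0 p := by
    intro p
    have h := dot_self e0
    rw [he] at h
    unfold dot tang at *
    linear_combination (-(w.re * p.re + w.im * p.im)) * h
  obtain ⟨p0, m0, e0'⟩ := h0.2
  obtain ⟨p1, m1, e1'⟩ := h1.2
  obtain ⟨p2, m2, e2'⟩ := h2.2
  obtain ⟨p3, m3, e3'⟩ := h3.2
  have hc : 0 ≤ c := by linarith [h0.1 p0 m0, h2.1 p0 m0]
  by_contra hn
  push Not at hn
  have k0 := hn p0 m0
  have k1 := hn p1 m1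
  have k2 := hn p2 m2
  have k3 := hn p3 m3
  rw [key] at k0 k1 k2 k3
  set a := dot e0 w
  set b := tang e0 w
  have t : ∀ (s u : ℝ), u ≤ c → -u ≤ c → -(|s| * c) ≤ s * u := fun s u h h' => by
    have := neg_abs_le (s * u)
    rw [abs_mul] at this
    nlinarith [abs_nonneg s, abs_le.2 (⟨by linarith, h⟩ : -c ≤ u ∧ u ≤ c)]
  have t0 := t b _ (h1.1 p0 m0) (h3.1 p0 m0)
  have t1 := t a _ (h0.1 p1 m1) (h2.1 p1 m1)
  have t2 := t b _ (h1.1 p2 m2) (h3.1 p2 m2)
  have t3 := t a _ (h0.1 p3 m3) (h2.1 p3 m3)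
  have e2 : dot e0 p2 = -c := by linarith
  have e3 : tang e0 p3 = -c := by linarith
  rw [e0'] at k0; rw [e1'] at k1; rw [e2] at k2; rw [e3] at k3
  rcases abs_cases a with ha | ha <;> rcases abs_cases b with hb | hb <;>
    rw [ha.1] at t1 t3 <;> rw [hb.1] at t0 t2 <;> linarith

theorem fixedN {N M : ℕ} [NeZero N] (hNM : N = 4 * M) (hN : 16 ≤ N) (hd : dl N ≤ 0.2) {e0 : ℂ}
    (he : ‖e0‖ = 1) {Ω : Set ℂ} (hc : Convex ℝ Ω) (ho : IsOpen Ω) {C r c ε : ℝ} {x0 : ℂ}
    (hC : 0 < C) (hb : ∀ x ∈ closure Ω, ‖x‖ ≤ C) (hr : Metric.closedBall x0 r ⊆ Ω)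
    (hsq : ∀ q : ℕ, Sup Ω (Complex.I ^ q * e0) c) (hε : 0 < ε) (hεr : ε ≤ r) (hε1 : ε ≤ 1)
    (hdε : dl N ≤ ε ^ 2) (hA : 0 < volume.real Ω) :
    ∃ (g : ZMod N → ℝ) (R : ℝ), 0 ≤ R ∧ π * R ^ 2 ≤ volume.real Ω + 32 * C ^ 2 * ε ∧
      (∀ x ∈ closure Ω, rho e0 g x ≤ C) ∧ (∫ x in Ω, Ff (rho e0 g x))
      - pf R * ∫ x in frontier Ω, I0 (rho e0 g x) ^ 2 ∂μH[1]
      ≤ ε * (37 * C ^ 2 + Ff C * (32 * C ^ 2 + 8 * C / r + 16 + 4 * volume.real Ω
        + 4 * C * μH[1].real (frontier Ω))) := by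
  have hr0 : 0 < r := by linarith
  have hne : Ω.Nonempty := ⟨x0, hr (Metric.mem_closedBall_self hr0.le)⟩
  have hbd : Bornology.IsBounded Ω :=
    (Metric.isBounded_closedBall (x := (0 : ℂ)) (r := C)).subset fun x hx =>
      mem_closedBall_zero_iff.2 (hb x (subset_closure hx))
  have hf := frontier_finite hc ho hne hbd
  obtain ⟨H, -, hs⟩ := exists_hs hbd hne
  set h : ZMod N → ℝ := fun j => H (dir e0 j) with hh
  have hK : closure Ω ⊆ K e0 h := fun x hx j => (hs _).1 x hx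
  have hK' : Ω ⊆ K e0 h := subset_closure.trans hK
  have ht : Tight e0 h := fun j => by
    obtain ⟨p, hp, e⟩ := (hs (dir e0 j)).2
    exact ⟨p, hK hp, e⟩
  have hhC : ∀ j, h j ≤ C := fun j => by
    obtain ⟨p, hp, e⟩ := (hs (dir e0 j)).2
    have := dot_le (dir e0 j) p
    rw [norm_dir he, one_mul, e] at this
    exact this.trans (hb p hp)
  have hh0 : ∀ j, 0 ≤ h j := fun j => by
    obtain ⟨p, hp, e⟩ := exists_dot_nonneg he hsq (dir e0 j)
    exact e.trans (hK hp j)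
  have h0 : ∀ q : ℕ, h ((q * M : ℕ) : ZMod N) = c := fun q => by
    simp only [hh]
    rw [dir_quarter hNM hN]; exact (hs _).unique (hsq q)
  have hd0 := dl_pos hN
  have hin : K e0 (fun j => h j - 4 * C * dl N) ⊆ Ω := by
    intro x hx
    by_contra hn
    obtain ⟨w, hw, hw'⟩ := exists_support hc ho hne hn
    obtain ⟨j, hj⟩ := exists_dir_near hN he hw
    obtain ⟨p, hp, e⟩ := (hs (dir e0 j)).2
    have a1 := hw' p hp
    have a2 := (abs_le.1 (abs_dot_le (w - dir e0 j) p)).1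
    have a3 := dot_le (w - dir e0 j) x
    have a4 : ‖x‖ ≤ 2 * C := norm_le_of_mem_K hN he hC.le
      (fun j => by nlinarith [hhC j, mul_pos hC hd0]) hx
    have a5 := mul_le_mul hj (hb p hp) (norm_nonneg _) hd0.le
    have a6 := mul_le_mul hj a4 (norm_nonneg _) hd0.le
    have a7 := hx j
    rw [dot_sub_left] at a2 a3
    simp only [hh] at a7
    nlinarith [mul_pos hC hd0]
  have hx0 : ∀ j, dot (dir e0 j) x0 + r ≤ h j := fun j => by
    have := hK' (hr (show x0 + (r : ℂ) * dir e0 j ∈ Metric.closedBall x0 r by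
      rw [mem_closedBall_iff_norm, add_sub_cancel_left, norm_mul, norm_dir he, mul_one,
        Complex.norm_real, Real.norm_of_nonneg hr0.le])) j
    rwa [dot_add, dot_smul, dot_self, norm_dir he, one_pow, mul_one] at this
  have hp := pN_pos hN
  have hp4 := pN_le hN
  have hS0 : 0 ≤ S h := S_nonneg hN hh0
  have hSC : S h ≤ 2 * pN N * C := S_const (N := N) C ▸ S_mono hN hhC
  have hS8 : S h ≤ 8 * C := by nlinarith
  have hVA : volume.real Ω ≤ V h := by
    rw [← vol_eq_V_of_tight hN he ht]; exact measureReal_mono hK' (vol_K_ne_top hN he _)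
  have hη : V h - volume.real Ω ≤ 32 * C ^ 2 * ε ^ 2 := by
    have a := vol_inner hN he hS0 (ε := 4 * C * dl N) (by positivity)
    have b : volume.real (K e0 (fun j => h j - 4 * C * dl N)) ≤ volume.real Ω :=
      measureReal_mono hin (ne_top_of_le_ne_top (vol_K_ne_top hN he h) (measure_mono hK'))
    have c := mul_le_mul hdε hS8 hS0 (sq_nonneg ε)
    rw [vol_eq_V_of_tight hN he ht] at a
    nlinarith [mul_le_mul_of_nonneg_left c hC.le]
  have hε2 : ε ^ 2 ≤ ε := by nlinarith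
  have hη' : V h - volume.real Ω ≤ 32 * C ^ 2 * ε :=
    hη.trans (mul_le_mul_of_nonneg_left hε2 (by positivity))
  have hL : ε * (S h - ε * (32 * C ^ 2 + 8 * C / r))
      ≤ volume.real Ω - volume.real (K e0 (fun j => h j - ε)) := by
    have a := vol_inner_le hN he ht hx0 hε hεr
    have b : ε * (ε / r * S h) ≤ ε * (ε / r * (8 * C)) := by gcongr
    have e : ε * (ε / r * (8 * C)) = ε * (ε * (8 * C / r)) := by ring
    linarith
  set R := √(V h / pN N) with hR
  have hR0 : 0 < R := sqrt_pos.2 (div_pos (by linarith) hp)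
  have hV : V h = pN N * R ^ 2 := by
    rw [hR, sq_sqrt (div_nonneg (by linarith) hp.le)]; field_simp
  set hb' := S h / (2 * pN N) with hhb
  have hS : S h = 2 * pN N * hb' := by rw [hhb]; field_simp
  have hb0 : 0 ≤ hb' := by positivity
  have hbC : hb' ≤ C := by rw [hhb, div_le_iff₀ (by positivity)]; linarith
  have hRb : R ≤ hb' := by
    have a := V_le_sq hN h
    rw [hV, hS, le_div_iff₀ (by positivity)] at a
    have b : pN N ^ 2 * R ^ 2 ≤ pN N ^ 2 * hb' ^ 2 := by linarith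
    exact (pow_le_pow_iff_left₀ hR0.le hb0 two_ne_zero).1
      (le_of_mul_le_mul_left b (by positivity))
  have hπ : π * R ^ 2 ≤ volume.real Ω + 32 * C ^ 2 * ε := by
    linarith [mul_le_mul_of_nonneg_right (pi_le_pN hN) (sq_nonneg R)]
  have hF : 0 ≤ Ff C := by unfold Ff; positivity
  have hL0 : 0 ≤ μH[1].real (frontier Ω) := measureReal_nonneg
  rcases main_alt hR0 hRb with ⟨w, hw0, hwR, hmain⟩ | ⟨hc', hbc, hmain⟩
  · refine ⟨fun j => h j - w, R, hR0.le, hπ, fun x hx => (rho_le_iff _ _ _ hC.le).2 fun j => by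
      linarith [hK hx j], ?_⟩
    refine (testI hN he ho hf hK ht hR0.le hV hS hw0 (hwR.trans hRb) (by positivity) hin hε
      (by positivity) hL hmain).trans ?_
    have a : Ff w * (ε * (32 * C ^ 2 + 8 * C / r) + 4 * C * dl N * μH[1].real (frontier Ω))
        ≤ Ff C * (ε * (32 * C ^ 2 + 8 * C / r) + 4 * C * ε * μH[1].real (frontier Ω)) := by
      have := Ff_mono hw0 (hwR.trans (hRb.trans hbC))
      have := hdε.trans hε2
      gcongr
    have b : 0 ≤ ε * (37 * C ^ 2 + Ff C * (16 + 4 * volume.real Ω)) := by positivity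
    linarith
  · obtain ⟨g, hg, hq⟩ := testII hNM hN hd he ho hf hK ht hR0.le hV hS hRb hbc (hRb.trans hbC)
      hh0 hhC h0 hε (by positivity) hL hmain
    refine ⟨g, R, hR0.le, hπ, fun x hx => (rho_le_iff _ _ _ hC.le).2 fun j =>
      (hK hx j).trans (hg j), hq.trans ?_⟩
    have b : 0 ≤ ε * (C ^ 2 * 0.52 + Ff C * (4 * C * μH[1].real (frontier Ω))) := by positivity
    linarith

theorem core {e0 : ℂ} (he : ‖e0‖ = 1) {Ω : Set ℂ} (hc : Convex ℝ Ω) (ho : IsOpen Ω)
    (hbd : Bornology.IsBounded Ω) {c R : ℝ} (hsq : ∀ q : ℕ, Sup Ω (Complex.I ^ q * e0) c)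
    (hR : 0 < R) (hA : π * R ^ 2 = volume.real Ω) {τ : ℝ} (hτ : 0 < τ) :
    ∃ (n : ℕ) (g : ZMod (n + 1) → ℝ), (∫ x in Ω, Ff (rho e0 g x))
      - pf R * ∫ x in frontier Ω, I0 (rho e0 g x) ^ 2 ∂μH[1] ≤ τ := by
  have hA0 : 0 < volume.real Ω := by rw [← hA]; positivity
  have hne : Ω.Nonempty := by
    rcases Ω.eq_empty_or_nonempty with h | h
    · rw [h] at hA0; simp at hA0
    · exact h
  have hf := frontier_finite hc ho hne hbd
  obtain ⟨C, hC, hb⟩ := hbd.closure.exists_pos_norm_le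
  obtain ⟨x0, hx0⟩ := hne
  obtain ⟨r, hr0, hr⟩ := Metric.nhds_basis_closedBall.mem_iff.1 (ho.mem_nhds hx0)
  have hF : 0 ≤ Ff C := by unfold Ff; positivity
  have hL0 : 0 ≤ μH[1].real (frontier Ω) := measureReal_nonneg
  set K1 := 37 * C ^ 2 + Ff C * (32 * C ^ 2 + 8 * C / r + 16 + 4 * volume.real Ω
    + 4 * C * μH[1].real (frontier Ω)) with hK1
  set K2 := 32 * C ^ 2 / R * (μH[1].real (frontier Ω) * Ff C) with hK2
  have hK0 : 0 < K1 + K2 := by positivity
  set ε := min (min r 0.2) (τ / (K1 + K2)) with hε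
  have hε0 : 0 < ε := by positivity
  have hεr : ε ≤ r := (min_le_left _ _).trans (min_le_left _ _)
  have hε1 : ε ≤ 0.2 := (min_le_left _ _).trans (min_le_right _ _)
  have hετ : ε * (K1 + K2) ≤ τ := (le_div_iff₀ hK0).1 (min_le_right _ _)
  obtain ⟨M, hM⟩ := exists_nat_ge (2 / ε ^ 2)
  have hdε : dl (4 * M + 15 + 1) ≤ ε ^ 2 := by
    unfold dl
    rw [div_le_iff₀ (by positivity)] at hM ⊢
    push_cast
    nlinarith [pi_lt_four, sq_nonneg ε]
  obtain ⟨g, R', hR', hπ, hρ, hq⟩ := fixedN (N := 4 * M + 15 + 1) (M := M + 4) (by ring) (by omega)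
    (hdε.trans (by nlinarith)) he hc ho hC hb hr hsq hε0 hεr (by linarith) hdε hA0
  refine ⟨4 * M + 15, g, ?_⟩
  have h1 : R' ≤ R + ε * (32 * C ^ 2 / R) := by
    have hy : 0 ≤ ε * (32 * C ^ 2 / R) := by positivity
    have e : ε * (32 * C ^ 2 / R) * R = 32 * C ^ 2 * ε := by field_simp
    refine (pow_le_pow_iff_left₀ hR' (by positivity) two_ne_zero).1
      (le_of_mul_le_mul_left ?_ pi_pos)
    have h3 : 0 ≤ ε * (32 * C ^ 2 / R) * R := by positivity
    nlinarith [pi_gt_three, mul_nonneg pi_pos.le (sq_nonneg (ε * (32 * C ^ 2 / R)))]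
  have h2 := (pf_mono hR' h1).trans (pf_add_le hR.le (by positivity))
  have hcont := continuous_rho he g
  have iF : IntegrableOn (fun x => I0 (rho e0 g x) ^ 2) (frontier Ω) μH[1] :=
    integrableOn_of_cont hf isClosed_frontier.measurableSet
      (hbd.closure.subset frontier_subset_closure) (by fun_prop)
  have h3 := setIntegral_mono_on iF (integrableOn_const (C := Ff C) hf.ne)
    isClosed_frontier.measurableSet (fun x hx => (J_le_Ff _).trans
      (Ff_mono (rho_nonneg _ _ _) (hρ x (frontier_subset_closure hx))))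
  rw [setIntegral_const, smul_eq_mul] at h3
  have h4 : 0 ≤ ∫ x in frontier Ω, I0 (rho e0 g x) ^ 2 ∂μH[1] :=
    integral_nonneg fun x => sq_nonneg _
  have h5 := mul_le_mul_of_nonneg_right h2 h4
  have h6 := mul_le_mul_of_nonneg_left h3 (by positivity : 0 ≤ ε * (32 * C ^ 2 / R))
  have e : ε * K2 = ε * (32 * C ^ 2 / R) * (μH[1].real (frontier Ω) * Ff C) := by
    rw [hK2]; ring
  linarith

end Pool.Agent.P.MP_342f9e_an
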