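import Pool.Agent.P.MP_342f9e_an.CoreE

set_option autoImplicit false

open Real MeasureTheory Set Filter Topology

namespace Pool.Agent.P.MP_342f9e_an

lemma ray_bound {v : ℂ → ℝ} (hv : ContDiff ℝ (⊤ : ℕ∞) v) {k R : ℝ} (hR : 0 ≤ R) {e : ℂ}
    (he : ‖e‖ = 1) : R * (k * pf (k * R)) * v (R * e) ^ 2
      ≤ ∫ r in (0 : ℝ)..R, r * (‖fderiv ℝ v (r * e)‖ ^ 2 + k ^ 2 * v (r * e) ^ 2) := by
  have hd : Differentiable ℝ v := hv.differentiable (by simp)
  have hc : Continuous (fderiv ℝ v) := hv.continuous_fderiv (by simp)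
  have hvc := hv.continuous
  have hpf := continuous_pf
  have h1 := intervalIntegral.integral_eq_sub_of_hasDerivAt (a := 0) (b := R)
    (f := fun r : ℝ => r * (k * pf (k * r)) * v (r * e) ^ 2)
    (f' := fun r : ℝ => r * ((k ^ 2 - (k * pf (k * r)) ^ 2) * v (r * e) ^ 2
      + 2 * (k * pf (k * r)) * v (r * e) * fderiv ℝ v (r * e) e))
    (fun r _ => by
      have a : HasDerivAt (fun r : ℝ => (r : ℂ) * e) e r := by
        simpa using (Complex.ofRealCLM.hasDerivAt (x := r)).mul_const e
      have b := (hd (r * e)).hasFDerivAt.comp_hasDerivAt r a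
      have c := ((hasDerivAt_pf (k * r)).comp r ((hasDerivAt_id r).const_mul k)).const_mul k
      have := ((hasDerivAt_id r).mul c).mul (b.pow 2)
      refine this.congr_deriv ?_
      have g := Gf_div (k * r)
      simp only [id, Function.comp, Pi.mul_apply, Pi.pow_apply, pd]
      push_cast
      linear_combination (-k * v (r * e) ^ 2) * g)
    (Continuous.intervalIntegrable (by fun_prop) _ _)
  simp only [zero_mul, sub_zero] at h1
  rw [← h1]
  refine intervalIntegral.integral_mono_on hR (Continuous.intervalIntegrable (by fun_prop) _ _)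
    (Continuous.intervalIntegrable (by fun_prop) _ _) fun r hr => ?_
  refine mul_le_mul_of_nonneg_left ?_ hr.1
  have a := (fderiv ℝ v (r * e)).le_opNorm e
  rw [he, mul_one, Real.norm_eq_abs] at a
  have b := pow_le_pow_left₀ (abs_nonneg _) a 2
  rw [sq_abs] at b
  nlinarith [sq_nonneg (k * pf (k * r) * v (r * e) - fderiv ℝ v (r * e) e)]

lemma ball_polar {G : ℂ → ℝ} (hG : Continuous G) {R : ℝ} (hR : 0 ≤ R) :
    ∫ x in Metric.ball (0 : ℂ) R, G x = ∫ θ in Ioo (-π) π,
      ∫ r in (0 : ℝ)..R, r * G (r * Complex.exp (θ * Complex.I)) := by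
  rw [← integral_indicator measurableSet_ball, ← Complex.integral_comp_polarCoord_symm]
  have hm : MeasurableSet (Ioo (0 : ℝ) R ×ˢ Ioo (-π) π) := measurableSet_Ioo.prod measurableSet_Ioo
  have h1 : ∫ p in polarCoord.target,
      p.1 • (Metric.ball (0 : ℂ) R).indicator G (Complex.polarCoord.symm p)
      = ∫ p in Ioo (0 : ℝ) R ×ˢ Ioo (-π) π, p.1 * G (p.1 * Complex.exp (p.2 * Complex.I)) := by
    rw [setIntegral_congr_fun polarCoord.open_target.measurableSet
      (g := (Ioo (0 : ℝ) R ×ˢ Ioo (-π) π).indicator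
        fun p => p.1 * G (p.1 * Complex.exp (p.2 * Complex.I))), setIntegral_indicator hm,
      inter_eq_right.2]
    · exact prod_mono Ioo_subset_Ioi_self subset_rfl
    · intro p hp
      have hp1 : 0 < p.1 := hp.1
      have e : Complex.polarCoord.symm p = p.1 * Complex.exp (p.2 * Complex.I) := by
        rw [Complex.polarCoord_symm_apply, Complex.exp_mul_I]; push_cast; rfl
      have hn : ‖Complex.polarCoord.symm p‖ = p.1 := by
        rw [Complex.norm_polarCoord_symm, abs_of_pos hp1]
      by_cases h : p.1 < R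
      · rw [indicator_of_mem (show p ∈ Ioo (0 : ℝ) R ×ˢ Ioo (-π) π from ⟨⟨hp1, h⟩, hp.2⟩)]
        simp only
        rw [indicator_of_mem (by rw [mem_ball_zero_iff, hn]; exact h), e, smul_eq_mul]
      · rw [indicator_of_notMem (show p ∉ Ioo (0 : ℝ) R ×ˢ Ioo (-π) π from fun hh => h hh.1.2)]
        simp only
        rw [indicator_of_notMem (by rw [mem_ball_zero_iff, hn]; exact h), smul_zero]
  have hi : IntegrableOn (fun p : ℝ × ℝ => p.1 * G (p.1 * Complex.exp (p.2 * Complex.I)))
      (Ioo (0 : ℝ) R ×ˢ Ioo (-π) π) :=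
    (ContinuousOn.integrableOn_compact (isCompact_Icc.prod isCompact_Icc)
      (Continuous.continuousOn (by fun_prop))).mono_set
      (prod_mono Ioo_subset_Icc_self Ioo_subset_Icc_self)
  rw [h1, Measure.volume_eq_prod, ← Measure.prod_restrict, integral_prod_symm]
  · congr 1; funext θ
    rw [intervalIntegral.integral_of_le hR, integral_Ioc_eq_integral_Ioo]
  · rw [Measure.prod_restrict]; exact hi

lemma sphere_le {f : ℂ → ℝ} (hf : Continuous f) (h0 : ∀ x, 0 ≤ f x) {R : ℝ} (hR : 0 < R) :
    ∫ x in frontier (Metric.ball (0 : ℂ) R), f x ∂μH[1]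
      ≤ R * ∫ θ in Ioo (-π) π, f (R * Complex.exp (θ * Complex.I)) := by
  have hγ := lipschitzWith_circleMap 0 R
  have hle : μH[1].restrict (frontier (Metric.ball (0 : ℂ) R))
      ≤ Measure.map (circleMap 0 R) (ENNReal.ofReal R • volume.restrict (Ioc (-π) π)) := by
    refine Measure.le_iff.2 fun s hs => ?_
    rw [Measure.restrict_apply hs, Measure.map_apply hγ.continuous.measurable hs,
      Measure.smul_apply, Measure.restrict_apply (hγ.continuous.measurable hs), smul_eq_mul]
    have h1 := hγ.hausdorffMeasure_image_le (d := 1) zero_le_one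
      (circleMap 0 R ⁻¹' s ∩ Ioc (-π) π)
    rw [hausdorffMeasure_real, ENNReal.rpow_one] at h1
    have e : ((Real.nnabs R : NNReal) : ENNReal) = ENNReal.ofReal R := by
      rw [Real.nnabs_of_nonneg hR.le]; rfl
    rw [e] at h1
    refine le_trans (measure_mono ?_) h1
    rintro x ⟨hx, hx'⟩
    rw [frontier_ball _ hR.ne', mem_sphere_zero_iff_norm] at hx'
    have e2 : circleMap 0 R (Complex.arg x) = x := by
      rw [circleMap_zero, ← hx']; exact Complex.norm_mul_exp_arg_mul_I x
    exact ⟨Complex.arg x, ⟨by rw [mem_preimage, e2]; exact hx, Complex.arg_mem_Ioc x⟩, e2⟩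
  have hi : Integrable f
      (Measure.map (circleMap 0 R) (ENNReal.ofReal R • volume.restrict (Ioc (-π) π))) := by
    rw [integrable_map_measure hf.aestronglyMeasurable hγ.continuous.aemeasurable]
    exact ((hf.comp hγ.continuous).integrableOn_Ioc).smul_measure ENNReal.ofReal_ne_top
  refine (integral_mono_measure hle (Eventually.of_forall h0) hi).trans (le_of_eq ?_)
  rw [integral_map hγ.continuous.aemeasurable hf.aestronglyMeasurable, integral_smul_measure,
    ENNReal.toReal_ofReal hR.le, smul_eq_mul, integral_Ioc_eq_integral_Ioo]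
  simp only [circleMap_zero]

theorem disc_bound {v : ℂ → ℝ} (hv : ContDiff ℝ (⊤ : ℕ∞) v) {k R : ℝ} (hk : 0 ≤ k) (hR : 0 < R) :
    k * pf (k * R) * ∫ x in frontier (Metric.ball (0 : ℂ) R), v x ^ 2 ∂μH[1]
      ≤ (∫ x in Metric.ball (0 : ℂ) R, ‖fderiv ℝ v x‖ ^ 2)
        + k ^ 2 * ∫ x in Metric.ball (0 : ℂ) R, v x ^ 2 := by
  have hc : Continuous (fderiv ℝ v) := hv.continuous_fderiv (by simp)
  have hvc := hv.continuous
  have ib : ∀ f : ℂ → ℝ, Continuous f → IntegrableOn f (Metric.ball (0 : ℂ) R) := fun f hf =>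
    integrableOn_of_cont measure_ball_lt_top measurableSet_ball Metric.isBounded_ball hf
  rw [← integral_const_mul (k ^ 2), ← integral_add (ib _ (by fun_prop)) (ib _ (by fun_prop)),
    ball_polar (G := fun x => ‖fderiv ℝ v x‖ ^ 2 + k ^ 2 * v x ^ 2) (by fun_prop) hR.le]
  have h1 := mul_le_mul_of_nonneg_left (sphere_le (f := fun x => v x ^ 2) (by fun_prop)
    (fun x => sq_nonneg _) hR) (mul_nonneg hk (pf_nonneg (mul_nonneg hk hR.le)))
  refine h1.trans ?_
  rw [← mul_assoc, ← integral_const_mul]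
  have hcont : Continuous fun θ : ℝ => ∫ r in (0 : ℝ)..R,
      r * (‖fderiv ℝ v (r * Complex.exp (θ * Complex.I))‖ ^ 2
        + k ^ 2 * v (r * Complex.exp (θ * Complex.I)) ^ 2) :=
    intervalIntegral.continuous_parametric_intervalIntegral_of_continuous' (by fun_prop) _ _
  refine setIntegral_mono_on
    ((Continuous.integrableOn_Icc (by fun_prop)).mono_set Ioo_subset_Icc_self)
    (hcont.integrableOn_Icc.mono_set Ioo_subset_Icc_self) measurableSet_Ioo fun θ _ => ?_
  have := ray_bound hv (k := k) hR.le (Complex.norm_exp_ofReal_mul_I θ)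
  linarith

lemma exists_k {a R : ℝ} (ha : 0 < a) (hR : 0 < R) : ∃ k, 0 < k ∧ k * pf (k * R) = a := by
  have hpf := continuous_pf
  have hc : Continuous fun k => k * pf (k * R) := by fun_prop
  have h1 : 0.446 ≤ pf ((1 / R + 3 * a) * R) := pf_one.trans (pf_mono zero_le_one (by
    rw [add_mul, one_div_mul_cancel hR.ne']; nlinarith [mul_pos ha hR]))
  have h2 : 0 < 1 / R := by positivity
  obtain ⟨k, hk, e⟩ := intermediate_value_Icc (by positivity : 0 ≤ 1 / R + 3 * a) hc.continuousOn
    (show a ∈ Icc _ _ from ⟨by simp [ha.le], by nlinarith⟩)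
  refine ⟨k, hk.1.lt_of_ne ?_, e⟩
  rintro rfl
  simp at e; linarith

end Pool.Agent.P.MP_342f9e_an
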