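import Mathlib

set_option autoImplicit false

open Real MeasureTheory Set Finset

namespace Pool.Agent.P.MP_342f9e_an

/-- Euclidean inner product of the plane. -/
def dot (w x : ℂ) : ℝ := w.re * x.re + w.im * x.im

/-- Component of `x` along the rotated direction `I * w`. -/
def tang (w x : ℂ) : ℝ := w.re * x.im - w.im * x.re

lemma dot_add (w x y : ℂ) : dot w (x + y) = dot w x + dot w y := by
  simp [dot]; ring

lemma dot_sub (w x y : ℂ) : dot w (x - y) = dot w x - dot w y := by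
  simp [dot]; ring

lemma dot_smul (w x : ℂ) (t : ℝ) : dot w ((t : ℂ) * x) = t * dot w x := by
  simp [dot]; ring

lemma dot_sub_left (w v x : ℂ) : dot (w - v) x = dot w x - dot v x := by
  simp [dot]; ring

lemma dot_smul_left (w x : ℂ) (t : ℝ) : dot ((t : ℂ) * w) x = t * dot w x := by
  simp [dot]; ring

lemma dot_neg_left (w x : ℂ) : dot (-w) x = - dot w x := by
  simp [dot]; ring

lemma tang_add (w x y : ℂ) : tang w (x + y) = tang w x + tang w y := by
  simp [tang]; ring

lemma tang_smul (w x : ℂ) (t : ℝ) : tang w ((t : ℂ) * x) = t * tang w x := by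
  simp [tang]; ring

lemma tang_self (w : ℂ) : tang w w = 0 := by simp [tang]; ring

lemma dot_I_mul (w x : ℂ) : dot (Complex.I * w) x = tang w x := by
  simp [dot, tang]; ring

lemma dot_self (w : ℂ) : dot w w = ‖w‖ ^ 2 := by
  rw [Complex.sq_norm, Complex.normSq_apply, dot]

lemma dot_comm (w x : ℂ) : dot w x = dot x w := by simp [dot]; ring

lemma dot_sq_add (w x : ℂ) : dot w x ^ 2 + tang w x ^ 2 = ‖w‖ ^ 2 * ‖x‖ ^ 2 := by
  rw [Complex.sq_norm, Complex.sq_norm, Complex.normSq_apply, Complex.normSq_apply, dot, tang]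
  ring

lemma abs_dot_le (w x : ℂ) : |dot w x| ≤ ‖w‖ * ‖x‖ := by
  apply abs_le_of_sq_le_sq' _ (by positivity) |> fun h => abs_le.2 h
  have := dot_sq_add w x
  nlinarith [sq_nonneg (tang w x)]

lemma abs_tang_le (w x : ℂ) : |tang w x| ≤ ‖w‖ * ‖x‖ := by
  apply abs_le_of_sq_le_sq' _ (by positivity) |> fun h => abs_le.2 h
  have := dot_sq_add w x
  nlinarith [sq_nonneg (dot w x)]

lemma dot_le (w x : ℂ) : dot w x ≤ ‖w‖ * ‖x‖ := (le_abs_self _).trans (abs_dot_le w x)

lemma continuous_dot (w : ℂ) : Continuous (dot w) := by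
  unfold dot; fun_prop

lemma continuous_tang (w : ℂ) : Continuous (tang w) := by
  unfold tang; fun_prop

lemma dot_exp_mul (θ : ℝ) (w x : ℂ) :
    dot (Complex.exp (θ * Complex.I) * w) x = cos θ * dot w x + sin θ * tang w x := by
  simp [dot, tang, Complex.exp_ofReal_mul_I_re, Complex.exp_ofReal_mul_I_im]
  ring

/-- The coordinates `(dot w, tang w)` are measure preserving for a unit vector `w`. -/
lemma coord_mp {w : ℂ} (hw : ‖w‖ = 1) :
    MeasurePreserving (fun x : ℂ => (dot w x, tang w x)) volume volume := by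
  have hw' : ‖(starRingEnd ℂ) w‖ = 1 := by simpa using hw
  let a : Circle := ⟨(starRingEnd ℂ) w, by simpa [Submonoid.unitSphere] using hw'⟩
  have h1 := (rotation a).measurePreserving
  have h2 := Complex.volume_preserving_equiv_real_prod
  have h3 := h2.comp h1
  have h4 : (fun x : ℂ => (dot w x, tang w x))
      = Complex.measurableEquivRealProd ∘ rotation a := by
    funext x
    refine Prod.ext ?_ ?_
    · show dot w x = ((starRingEnd ℂ) w * x).re
      simp [dot]
    · show tang w x = ((starRingEnd ℂ) w * x).im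
      simp [tang]; ring
  rw [h4]; exact h3

lemma vol_coord {w : ℂ} (hw : ‖w‖ = 1) {A : Set (ℝ × ℝ)} (hA : MeasurableSet A) :
    volume {x : ℂ | (dot w x, tang w x) ∈ A} = volume A :=
  (coord_mp hw).measure_preimage hA.nullMeasurableSet

/-- Lines are null. -/
lemma vol_line {w : ℂ} (hw : w ≠ 0) (c : ℝ) : volume {x : ℂ | dot w x = c} = 0 := by
  have hn : 0 < ‖w‖ := norm_pos_iff.2 hw
  have hu : ‖((‖w‖⁻¹ : ℝ) : ℂ) * w‖ = 1 := by
    rw [norm_mul, Complex.norm_real, norm_inv, norm_norm, inv_mul_cancel₀ hn.ne']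
  have h := vol_coord hu (A := ({‖w‖⁻¹ * c} : Set ℝ) ×ˢ (univ : Set ℝ))
    ((measurableSet_singleton _).prod MeasurableSet.univ)
  rw [Measure.volume_eq_prod, Measure.prod_prod] at h
  simp only [Real.volume_singleton, zero_mul] at h
  rw [← h]
  congr 1
  ext x
  simp only [Set.mem_ofPred_eq, mem_prod, Set.mem_singleton_iff, Set.mem_univ, and_true, dot_smul_left]
  constructor
  · intro h; rw [h]
  · intro h; exact mul_left_cancel₀ (inv_ne_zero hn.ne') h

/-- angular step -/
noncomputable def dl (N : ℕ) : ℝ := 2 * π / N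

lemma dl_pos {N : ℕ} (hN : 16 ≤ N) : 0 < dl N := by
  unfold dl
  have : (0 : ℝ) < N := by exact_mod_cast (by omega : 0 < N)
  positivity

lemma dl_le {N : ℕ} (hN : 16 ≤ N) : dl N ≤ 2 / 5 := by
  unfold dl
  have h : (16 : ℝ) ≤ N := by exact_mod_cast hN
  rw [div_le_iff₀ (by linarith)]
  nlinarith [Real.pi_lt_d2]

lemma dl_mul {N : ℕ} (hN : 16 ≤ N) : N * dl N = 2 * π := by
  unfold dl
  have : (0 : ℝ) < N := by exact_mod_cast (by omega : 0 < N)
  field_simp

lemma sin_dl_pos {N : ℕ} (hN : 16 ≤ N) : 0 < sin (dl N) :=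
  sin_pos_of_pos_of_lt_pi (dl_pos hN) (by nlinarith [dl_le hN, Real.pi_gt_three])

lemma cos_dl_pos {N : ℕ} (hN : 16 ≤ N) : 0 < cos (dl N) :=
  cos_pos_of_mem_Ioo ⟨by nlinarith [dl_pos hN, Real.pi_gt_three],
    by nlinarith [dl_le hN, Real.pi_gt_three]⟩

lemma cos_dl_lt {N : ℕ} (hN : 16 ≤ N) : cos (dl N) < 1 := by
  have h1 := sin_dl_pos hN
  have h2 := sin_sq_add_cos_sq (dl N)
  nlinarith [cos_dl_pos hN]

variable {N : ℕ} [NeZero N]

/-- the grid of directions -/
noncomputable def dir (e0 : ℂ) (j : ZMod N) : ℂ := (ZMod.toCircle j : ℂ) * e0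

lemma norm_dir {e0 : ℂ} (he : ‖e0‖ = 1) (j : ZMod N) : ‖dir e0 j‖ = 1 := by
  simp [dir, he]

lemma dir_add_int (e0 : ℂ) (j : ZMod N) (n : ℤ) :
    dir e0 (j + (n : ZMod N)) = Complex.exp (((n * dl N : ℝ) : ℂ) * Complex.I) * dir e0 j := by
  unfold dir
  rw [AddChar.map_add_eq_mul, Circle.coe_mul, ZMod.toCircle_intCast]
  have : (2 * (π : ℂ) * Complex.I * n / N) = ((n * dl N : ℝ) : ℂ) * Complex.I := by
    unfold dl; push_cast; ring
  rw [this]; ring

lemma dot_dir_add_int (e0 : ℂ) (j : ZMod N) (n : ℤ) (x : ℂ) :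
    dot (dir e0 (j + (n : ZMod N))) x
      = cos (n * dl N) * dot (dir e0 j) x + sin (n * dl N) * tang (dir e0 j) x := by
  rw [dir_add_int, dot_exp_mul]

lemma dot_dir_succ (e0 : ℂ) (j : ZMod N) (x : ℂ) :
    dot (dir e0 (j + 1)) x
      = cos (dl N) * dot (dir e0 j) x + sin (dl N) * tang (dir e0 j) x := by
  simpa using dot_dir_add_int e0 j 1 x

lemma dot_dir_pred (e0 : ℂ) (j : ZMod N) (x : ℂ) :
    dot (dir e0 (j - 1)) x
      = cos (dl N) * dot (dir e0 j) x - sin (dl N) * tang (dir e0 j) x := by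
  have := dot_dir_add_int e0 j (-1) x
  simp only [Int.reduceNeg, Int.cast_neg, Int.cast_one, neg_mul, one_mul, cos_neg, sin_neg] at this
  rw [sub_eq_add_neg, this]; ring

lemma dot_dir_three (e0 : ℂ) (j : ZMod N) (x : ℂ) :
    dot (dir e0 (j + 1)) x + dot (dir e0 (j - 1)) x = 2 * cos (dl N) * dot (dir e0 j) x := by
  rw [dot_dir_succ, dot_dir_pred]; ring

lemma dir_injective {e0 : ℂ} (he : ‖e0‖ = 1) : Function.Injective (dir e0 : ZMod N → ℂ) := by
  intro i j h
  have h0 : e0 ≠ 0 := by intro h; simp [h] at he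
  have := mul_right_cancel₀ h0 h
  exact ZMod.injective_toCircle (Subtype.ext this)

/-- every unit vector is within `dl N` of a grid direction -/
lemma exists_dir_near (hN : 16 ≤ N) {e0 : ℂ} (he : ‖e0‖ = 1) {w : ℂ} (hw : ‖w‖ = 1) :
    ∃ j : ZMod N, ‖w - dir e0 j‖ ≤ dl N := by
  have h0 : e0 ≠ 0 := by intro h; simp [h] at he
  set z := w / e0 with hz
  have hzn : ‖z‖ = 1 := by rw [hz, norm_div, hw, he, div_one]
  set θ := Complex.arg z
  have hz' : z = Complex.exp (θ * Complex.I) := by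
    have := Complex.norm_mul_exp_arg_mul_I z
    rw [hzn] at this; simpa using this.symm
  have hd := dl_pos hN
  set n : ℤ := ⌊θ / dl N⌋
  refine ⟨(0 : ZMod N) + (n : ZMod N), ?_⟩
  rw [dir_add_int]
  have hw' : w = z * e0 := by rw [hz]; field_simp
  have : dir e0 (0 : ZMod N) = e0 := by simp [dir]
  rw [this, hw', ← sub_mul, norm_mul, he, mul_one, hz']
  have h1 : Complex.exp (θ * Complex.I) - Complex.exp (((n * dl N : ℝ) : ℂ) * Complex.I)
      = Complex.exp (((n * dl N : ℝ) : ℂ) * Complex.I)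
        * (Complex.exp (Complex.I * ((θ - n * dl N : ℝ) : ℂ)) - 1) := by
    rw [mul_sub, ← Complex.exp_add]; congr 2
    · push_cast; ring
    · ring
  rw [h1, norm_mul, Complex.norm_exp_ofReal_mul_I, one_mul]
  refine (Real.norm_exp_I_mul_ofReal_sub_one_le).trans ?_
  have a1 : (n : ℝ) ≤ θ / dl N := Int.floor_le _
  have a2 : θ / dl N < n + 1 := Int.lt_floor_add_one _
  rw [le_div_iff₀ hd] at a1
  rw [div_lt_iff₀ hd] at a2
  rw [Real.norm_eq_abs, abs_le]
  constructor <;> nlinarith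

end Pool.Agent.P.MP_342f9e_an
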