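import Pool.Agent.Rob.Test

set_option autoImplicit false

open Real MeasureTheory Set Filter Topology
open scoped Pointwise

namespace Pool.Agent.P.MP_342f9e_an.Holes

open Pool.Agent.P.MP_342f9e_an Pool.Agent.Rob

lemma small2 (R k B H A : ℝ) (hR : 0 < R) {τ : ℝ} (hτ : 0 < τ) :
    ∃ ε : ℝ, 0 < ε ∧ ε ≤ 1 ∧ k * √(R ^ 2 + ε / π) + ε ≤ k * R + 1 / 2 ∧
      k * ((pf (k * √(R ^ 2 + ε / π)) * (1 + ε) - pf (k * R)) * (B * H)
        + pf (k * √(R ^ 2 + ε / π)) * (1 + ε) * (ε * H)) + k ^ 2 * (ε * A) ≤ τ := by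
  have hc : Continuous fun ε : ℝ =>
      k * ((pf (k * √(R ^ 2 + ε / π)) * (1 + ε) - pf (k * R)) * (B * H)
        + pf (k * √(R ^ 2 + ε / π)) * (1 + ε) * (ε * H)) + k ^ 2 * (ε * A) := by
    have : Continuous fun ε : ℝ => pf (k * √(R ^ 2 + ε / π)) := continuous_pf.comp (by fun_prop)
    fun_prop
  have h1 := hc.continuousAt.eventually_lt (x₀ := 0) (g := fun _ => τ) continuousAt_const
    (by simpa [Real.sqrt_sq hR.le] using hτ)
  have hc' : Continuous fun ε : ℝ => k * √(R ^ 2 + ε / π) + ε := by fun_prop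
  have h1' := hc'.continuousAt.eventually_lt (x₀ := 0) (g := fun _ => k * R + 1 / 2)
    continuousAt_const (by simp [Real.sqrt_sq hR.le])
  have h2 : ∀ᶠ ε in 𝓝[>] (0 : ℝ), ε ∈ Ioo (0 : ℝ) 1 := Ioo_mem_nhdsGT one_pos
  obtain ⟨ε, h3, h4⟩ := (((h1.and h1').filter_mono nhdsWithin_le_nhds).and h2).exists
  exact ⟨ε, h4.1, h4.2.le, h3.2.le, h3.1.le⟩

theorem exists_test2 {Ω : Set ℂ} (ho : IsOpen Ω) (hb : Bornology.IsBounded Ω)
    (hs : SimplyConnectedSpace Ω) (hl : LipDom Ω) {R k : ℝ} (hR : 0 < R) (hk : 0 < k)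
    (hA : π * R ^ 2 = volume.real Ω) {τ : ℝ} (hτ : 0 < τ) :
    ∃ u : ℂ → ℝ, ContDiff ℝ (⊤ : ℕ∞) u ∧ HasCompactSupport u ∧ (∀ x ∈ Ω, 1 ≤ u x ^ 2) ∧
      (∀ x ∈ closure Ω, u x ^ 2 ≤ I0 (k * R + 1 / 2) ^ 2) ∧
      (∫ x in Ω, ‖fderiv ℝ u x‖ ^ 2) + k ^ 2 * (∫ x in Ω, u x ^ 2)
        - k * pf (k * R) * ∫ x in frontier Ω, u x ^ 2 ∂μH[1] ≤ τ := by
  have hf := hl.finite hb
  set T := k * √(R ^ 2 + 1 / π) + 2 * k + 1 with hT
  obtain ⟨ε, hε, hε1, hsm0, hsm⟩ :=
    small2 R k (I0 T ^ 2) ((μH[1] : Measure ℂ).real (frontier Ω)) (volume.real Ω) hR hτ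
  obtain ⟨δ1, hδ1, u1⟩ := tst_unif continuous_Fb T hε
  obtain ⟨δ2, hδ2, u2⟩ := tst_unif (f := fun x => I0 x ^ 2) (by fun_prop) T hε
  set η := min ε (min δ1 (δ2 / (3 * k + 1))) with hη
  have hη0 : 0 < η := by positivity
  have hηε : η ≤ ε := min_le_left _ _
  have hη1 : η ≤ δ1 := (min_le_right _ _).trans (min_le_left _ _)
  have hη2 : η * (3 * k + 1) ≤ δ2 :=
    (le_div_iff₀ (by positivity)).1 ((min_le_right _ _).trans (min_le_right _ _))
  obtain ⟨p, pb, pc, pv, A, hA1, hA2, hA3⟩ := outer_poly ho hb hs hl hη0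
  have hΩD : Ω ⊆ p.D := subset_closure.trans pc
  have hDf : volume p.D < ⊤ := pb.measure_lt_top
  have hv0 : π * R ^ 2 ≤ volume.real p.D := hA ▸ measureReal_mono hΩD hDf.ne
  set R' := √(volume.real p.D / π) with hR'
  have hRR : R ≤ R' := Real.le_sqrt_of_sq_le (by rw [le_div_iff₀ pi_pos]; linarith)
  have hR'0 : 0 < R' := hR.trans_le hRR
  have hR'1 : R' ≤ √(R ^ 2 + ε / π) := Real.sqrt_le_sqrt (by
    rw [div_le_iff₀ pi_pos, add_mul, div_mul_cancel₀ _ pi_pos.ne']; linarith)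
  have hR'2 : R' ≤ √(R ^ 2 + 1 / π) := hR'1.trans (Real.sqrt_le_sqrt (by gcongr))
  obtain ⟨ρ, r1, r2, r3⟩ := poly_scaled p pb hR'0 hk
    (by rw [hR', Real.sq_sqrt (by positivity)]; field_simp) fun i => (hA3 i).1
  have r4 : ∀ x, ρ x + 2 * k + 1 ≤ T := fun x => by
    have := mul_le_mul_of_nonneg_left hR'2 hk.le
    linarith [(r1 x).2]
  have r5 : ∀ a b, segment ℝ a b ⊆ p.D → ρ a ≤ ρ b + k * ‖a - b‖ := fun a b h =>
    r2 a b (h.trans p.D_sub)
  obtain ⟨s, hs1, hs2⟩ := exists_smooth hb.isCompact_closure p.oD pc hk.le hη0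
    (fun x => (r1 x).1) r5
  have hsT : ∀ x ∈ closure Ω, s x ∈ Icc 0 T := fun x hx =>
    ⟨(hs2 x hx).1, by linarith [(abs_le.1 (hs2 x hx).2.1).2, r4 x]⟩
  obtain ⟨C, hC0, hC⟩ := hb.closure.exists_pos_norm_le
  let b : ContDiffBump (0 : ℂ) := ⟨C + 1, C + 2, by linarith, by linarith⟩
  have hb1 : ∀ x ∈ Metric.ball (0 : ℂ) (C + 1), b x = 1 := fun x hx =>
    b.one_of_mem_closedBall (Metric.ball_subset_closedBall hx)
  have hball : closure Ω ⊆ Metric.ball (0 : ℂ) (C + 1) := fun x hx =>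
    mem_ball_zero_iff.2 (by linarith [hC x hx])
  have hu : ContDiff ℝ (⊤ : ℕ∞) fun x => b x * I0 (s x) := b.contDiff.mul (contDiff_I0.comp hs1)
  have hΩ : volume Ω < ⊤ := hb.measure_lt_top
  have iΩ : ∀ f : ℂ → ℝ, Continuous f → IntegrableOn f Ω := fun f hf =>
    tst_int hΩ ho.measurableSet hb hf
  have iF : ∀ f : ℂ → ℝ, Continuous f → IntegrableOn f (frontier Ω) μH[1] := fun f hf' =>
    tst_int hf isClosed_frontier.measurableSet (hb.closure.subset frontier_subset_closure) hf'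
  have hcu := hu.continuous
  have hcd : Continuous (fderiv ℝ fun x => b x * I0 (s x)) := hu.continuous_fderiv (by simp)
  have hρT : ∀ x, ρ x ∈ Icc 0 T := fun x => ⟨(r1 x).1, by linarith [r4 x]⟩
  have iD : IntegrableOn (fun x => Fb (ρ x)) p.D :=
    IntegrableOn.of_bound hDf ((continuous_Fb.comp_continuousOn
      (tst_cont p.oD r5)).aestronglyMeasurable p.oD.measurableSet) (Fb T)
      (Eventually.of_forall fun x => by
        rw [Real.norm_of_nonneg (zero_le_one.trans (one_le_Fb _))]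
        exact Fb_mono (hρT x).1 (hρT x).2)
  refine ⟨fun x => b x * I0 (s x), hu, b.hasCompactSupport.mul_right, fun x hx => by
    simp only [hb1 x (hball (subset_closure hx)), one_mul]
    exact one_le_pow₀ (one_le_I0 _), fun x hx => by
    simp only [hb1 x (hball hx), one_mul]
    have e1 := mul_le_mul_of_nonneg_left hR'1 hk.le
    exact pow_le_pow_left₀ (I0_pos _).le (I0_mono (hsT x hx).1
      (by linarith [(abs_le.1 (hs2 x hx).2.1).2, (r1 x).2])) 2, ?_⟩
  have m1 := setIntegral_mono_on (μ := volume)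
    (f := fun x => ‖fderiv ℝ (fun x => b x * I0 (s x)) x‖ ^ 2 + k ^ 2 * (b x * I0 (s x)) ^ 2)
    (g := fun x => k ^ 2 * Fb (ρ x) + k ^ 2 * ε)
    (iΩ _ (by fun_prop)) (by
      exact ((iD.mono_set hΩD).const_mul (k ^ 2)).add (iΩ (fun _ => k ^ 2 * ε) (by fun_prop)))
    ho.measurableSet (fun x hx => by
      have hx' := hball (subset_closure hx)
      obtain ⟨a1, a2, a3⟩ := hs2 x (subset_closure hx)
      have e1 : (fun x => b x * I0 (s x)) =ᶠ[𝓝 x] fun x => I0 (s x) := by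
        filter_upwards [Metric.isOpen_ball.mem_nhds hx'] with z hz
        rw [hb1 z hz, one_mul]
      have e2 := ((hasDerivAt_I0 (s x)).comp_hasFDerivAt x
        (hs1.differentiable (by simp) x).hasFDerivAt).fderiv
      have e4 : ‖fderiv ℝ (fun x => b x * I0 (s x)) x‖ ≤ I1 (s x) * k := by
        rw [e1.fderiv_eq]
        refine (le_of_eq (congrArg norm e2)).trans ?_
        rw [norm_smul, Real.norm_of_nonneg (I1_nonneg a1)]
        exact mul_le_mul_of_nonneg_left a3 (I1_nonneg a1)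
      have e5 := pow_le_pow_left₀ (norm_nonneg _) e4 2
      have e9 := mul_le_mul_of_nonneg_left
        (u1 _ (hsT x (subset_closure hx)) _ (hρT x) (a2.trans hη1)) (sq_nonneg k)
      have e10 : Fb (s x) = I0 (s x) ^ 2 + I1 (s x) ^ 2 := rfl
      simp only [hb1 x hx', one_mul]
      rw [e10] at e9
      linarith)
  rw [integral_add (iΩ _ (by fun_prop)) (iΩ _ (by fun_prop)), integral_const_mul,
    integral_add ((iD.mono_set hΩD).const_mul _) (iΩ _ (by fun_prop)), integral_const_mul,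
    setIntegral_const, smul_eq_mul] at m1
  have m2 := mul_le_mul_of_nonneg_left (setIntegral_mono_set iD
    (Eventually.of_forall fun x => zero_le_one.trans (one_le_Fb _)) hΩD.eventuallyLE) (sq_nonneg k)
  set J := ∫ x in frontier Ω, (b x * I0 (s x)) ^ 2 ∂μH[1] with hJ
  set H := (μH[1] : Measure ℂ).real (frontier Ω) with hH
  have hH0 : 0 ≤ H := measureReal_nonneg
  have hJ0 : 0 ≤ J := integral_nonneg fun x => sq_nonneg _
  have hJ1 : J ≤ I0 T ^ 2 * H := by
    have := setIntegral_mono_on (μ := μH[1]) (f := fun x => (b x * I0 (s x)) ^ 2)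
      (g := fun _ => I0 T ^ 2) (iF _ (by fun_prop)) (iF _ (by fun_prop))
      isClosed_frontier.measurableSet (fun x hx => by
        have hx' := frontier_subset_closure hx
        simp only [hb1 x (hball hx'), one_mul]
        exact pow_le_pow_left₀ (I0_pos _).le (I0_mono (hsT x hx').1 (hsT x hx').2) 2)
    rwa [setIntegral_const, smul_eq_mul, mul_comm] at this
  have iA := iF (fun x => (b x * I0 (s x)) ^ 2 + ε) (by fun_prop)
  have m3 : ∀ i, p.l i * I0 (ρ (p.P i) + 2 * (k * η)) ^ 2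
      ≤ (1 + ε) * ∫ x in A i, ((b x * I0 (s x)) ^ 2 + ε) ∂μH[1] := fun i => by
    obtain ⟨-, c2, c3⟩ := hA3 i
    have c4 := setIntegral_ge_of_const_le_real (μ := μH[1])
      (c := I0 (ρ (p.P i) + 2 * (k * η)) ^ 2) (hA1 i).1
      ((measure_mono (hA1 i).2).trans_lt hf).ne (fun z hz => by
        have hz' := frontier_subset_closure ((hA1 i).2 hz)
        obtain ⟨d1, d2⟩ := c3 z hz
        have d3 := r2 _ _ d1
        have d4 := r2 _ _ (vis_symm d1)
        rw [norm_sub_rev] at d4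
        have d5 := mul_le_mul_of_nonneg_left d2 hk.le
        have d6 := abs_le.1 (hs2 z hz').2.1
        have d7 : 0 ≤ k * η := by positivity
        have d8 : k * η ≤ k := mul_le_of_le_one_right hk.le (hηε.trans hε1)
        change _ ≤ (b z * I0 (s z)) ^ 2 + ε
        rw [hb1 z (hball hz'), one_mul]
        exact u2 _ ⟨by linarith [(r1 (p.P i)).1], by linarith [r4 (p.P i)]⟩ _ (hsT z hz')
          (abs_le.2 ⟨by linarith, by linarith⟩)) (iA.mono_set (hA1 i).2)
    have c5 : p.l i ≤ (1 + ε) * (μH[1] : Measure ℂ).real (A i) :=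
      c2.trans (mul_le_mul_of_nonneg_right (by linarith) ENNReal.toReal_nonneg)
    calc _ ≤ (1 + ε) * (μH[1] : Measure ℂ).real (A i) * I0 (ρ (p.P i) + 2 * (k * η)) ^ 2 :=
          mul_le_mul_of_nonneg_right c5 (sq_nonneg _)
      _ ≤ _ := by
          rw [mul_assoc, mul_comm (Measure.real _ _)]
          exact mul_le_mul_of_nonneg_left c4 (by linarith)
  have m4 := Finset.sum_le_sum fun i (_ : i ∈ Finset.univ) => m3 i
  rw [← Finset.mul_sum, ← integral_iUnion_fintype (fun i => (hA1 i).1) hA2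
    fun i => iA.mono_set (hA1 i).2] at m4
  have m5 := setIntegral_mono_set iA (Eventually.of_forall fun x => by positivity)
    (iUnion_subset fun i => (hA1 i).2).eventuallyLE
  rw [integral_add (iF _ (by fun_prop)) (iF _ (by fun_prop)), setIntegral_const, smul_eq_mul,
    ← hJ, ← hH] at m5
  have m6 := m4.trans (mul_le_mul_of_nonneg_left m5 (by linarith))
  set q := pf (k * √(R ^ 2 + ε / π)) with hq
  have q0 : 0 ≤ pf (k * R) := pf_nonneg (by positivity)
  have q1 : pf (k * R) ≤ pf (k * R') := pf_mono (by positivity) (by gcongr)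
  have q2 : pf (k * R') ≤ q := pf_mono (by positivity) (by gcongr)
  have m7 : k * pf (k * R') * ∑ i, p.l i * I0 (ρ (p.P i) + 2 * (k * η)) ^ 2
      ≤ k * q * ((1 + ε) * (J + H * ε)) :=
    (mul_le_mul_of_nonneg_left m6 (mul_nonneg hk.le (q0.trans q1))).trans
      (mul_le_mul_of_nonneg_right (mul_le_mul_of_nonneg_left q2 hk.le) (by positivity))
  have m8 : 0 ≤ q * (1 + ε) - pf (k * R) := by nlinarith
  have m9 := mul_le_mul_of_nonneg_left (mul_le_mul_of_nonneg_left hJ1 m8) hk.le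
  linarith

end Pool.Agent.P.MP_342f9e_an.Holes
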