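import Pool.Agent.P.MP_342f9e_an.HolesA
import Pool.Agent.P.MP_342f9e_an.Disc

set_option autoImplicit false

open Real MeasureTheory Set Filter Topology

namespace Pool.Agent.P.MP_342f9e_an.Holes

open Pool.Agent.P.MP_342f9e_an Pool.Agent.Rob

lemma pf_lip {x y : ℝ} (hxy : x ≤ y) : pf y ≤ pf x + (y - x) := by
  have h := le_of_deriv (f := fun t => t - pf t) (f' := fun t => 1 - pd t)
    hxy (fun t _ => (hasDerivAt_id t).sub (hasDerivAt_pf t))
    (fun t _ => by
      have := div_pos (Gf_pos t) (I0_pos t)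
      unfold pd; nlinarith [sq_nonneg (pf t)])
  linarith

lemma I0_le_exp {x : ℝ} (hx : 0 ≤ x) : I0 x ≤ exp x := by
  have h := le_of_deriv (f := fun t => -(exp (-t) * I0 t))
    (f' := fun t => -(exp (-t) * (-1) * I0 t + exp (-t) * I1 t)) hx
    (fun t _ => ((hasDerivAt_neg t).exp.mul (hasDerivAt_I0 t)).neg)
    (fun t ht => by
      have := mul_pos (exp_pos (-t)) (sub_pos.2 (I1_lt_I0 ht.1))
      linarith)
  simp only [neg_zero, exp_zero, I0_zero, mul_one] at h
  have h2 : exp x * exp (-x) = 1 := by rw [← exp_add]; simp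
  have h3 := mul_le_mul_of_nonneg_left (show exp (-x) * I0 x ≤ 1 by linarith) (exp_pos x).le
  rwa [← mul_assoc, h2, one_mul, mul_one] at h3

lemma pf_lower {x : ℝ} (hx : 0 < x) : x ≤ pf x * (2 + x) := by
  have h := le_of_deriv (f := fun t => (2 + t) * (t * I1 t) - t ^ 2 * I0 t)
    (f' := fun t => t * I1 t + t ^ 2 * (I0 t - I1 t)) hx.le
    (fun t _ => by
      have e := (((hasDerivAt_id t).const_add 2).mul
        ((hasDerivAt_id t).mul (hasDerivAt_I1 t))).sub
        ((hasDerivAt_pow 2 t).mul (hasDerivAt_I0 t))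
      refine e.congr_deriv ?_
      simp only [id, I1, Pi.mul_apply]
      push_cast
      ring)
    (fun t ht => add_nonneg (mul_nonneg ht.1 (I1_nonneg ht.1))
      (mul_nonneg (sq_nonneg _) (sub_pos.2 (I1_lt_I0 ht.1)).le))
  rw [I1_eq x] at h
  have h0 := I0_pos x
  have h1 : 0 ≤ (x * I0 x) * (pf x * (2 + x) - x) := by nlinarith
  have := nonneg_of_mul_nonneg_right h1 (mul_pos hx h0)
  linarith

lemma frontier_diff {Ω K : Set ℂ} (ho : IsOpen Ω) (hK : IsClosed K) (hKΩ : K ⊆ Ω) :
    frontier (Ω \ K) = frontier Ω ∪ frontier K := by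
  have ho' : IsOpen (Ω \ K) := ho.sdiff hK
  apply Subset.antisymm
  · refine (frontier_inter_subset Ω Kᶜ).trans (union_subset_union inter_subset_left ?_)
    rw [frontier_compl]
    exact inter_subset_right
  · rw [ho'.frontier_eq]
    rintro x (hx | hx)
    · rw [ho.frontier_eq] at hx
      refine ⟨?_, fun h => hx.2 h.1⟩
      exact hK.isOpen_compl.closure_inter ⟨hx.1, fun h => hx.2 (hKΩ h)⟩
    · have h1 : x ∈ K := hK.frontier_subset hx
      refine ⟨?_, fun h => h.2 h1⟩
      rw [← frontier_compl] at hx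
      exact ho.inter_closure ⟨hKΩ h1, frontier_subset_closure hx⟩

lemma line_meets {K : Set ℂ} (hK : IsCompact K) {x : ℂ} (hx : x ∈ K) {w : ℂ} (hw : ‖w‖ = 1) :
    ∃ t : ℝ, x + t * w ∈ frontier K := by
  have hc : Continuous fun t : ℝ => x + t * w := by fun_prop
  obtain ⟨C, hC⟩ := hK.isBounded.exists_norm_le
  have h : (frontier ((fun t : ℝ => x + t * w) ⁻¹' K)).Nonempty := by
    refine nonempty_frontier_iff.2 ⟨⟨0, by simpa using hx⟩, fun h => ?_⟩
    have h1 : (2 * C + 1) ∈ (fun t : ℝ => x + t * w) ⁻¹' K := h ▸ mem_univ _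
    have h2 := hC _ h1
    have h3 := hC _ hx
    have h4 : ‖((2 * C + 1 : ℝ) : ℂ) * w‖ ≤ ‖x + ((2 * C + 1 : ℝ) : ℂ) * w‖ + ‖x‖ := by
      have := norm_sub_le (x + ((2 * C + 1 : ℝ) : ℂ) * w) x
      rwa [add_sub_cancel_left] at this
    rw [norm_mul, hw, mul_one, Complex.norm_real, Real.norm_eq_abs] at h4
    linarith [le_abs_self (2 * C + 1)]
  obtain ⟨t, ht⟩ := h
  exact ⟨t, hc.frontier_preimage_subset K ht⟩

/-- a crude isoperimetric inequality -/
lemma iso_crude {K : Set ℂ} (hK : IsCompact K) :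
    volume K ≤ μH[1] (frontier K) * μH[1] (frontier K) := by
  have hF : IsCompact (frontier K) := hK.of_isClosed_subset isClosed_frontier hK.isClosed.frontier_subset
  have hre : LipschitzWith 1 Complex.re := LipschitzWith.of_dist_le_mul fun a b => by
    rw [NNReal.coe_one, one_mul, Real.dist_eq, dist_eq_norm, ← Complex.sub_re]
    exact Complex.abs_re_le_norm _
  have him : LipschitzWith 1 Complex.im := LipschitzWith.of_dist_le_mul fun a b => by
    rw [NNReal.coe_one, one_mul, Real.dist_eq, dist_eq_norm, ← Complex.sub_im]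
    exact Complex.abs_im_le_norm _
  have h1 := hre.hausdorffMeasure_image_le zero_le_one (frontier K)
  have h2 := him.hausdorffMeasure_image_le zero_le_one (frontier K)
  rw [hausdorffMeasure_real, ENNReal.rpow_one, ENNReal.coe_one, one_mul] at h1 h2
  have hsub : K ⊆ Complex.measurableEquivRealProd ⁻¹'
      ((Complex.re '' frontier K) ×ˢ (Complex.im '' frontier K)) := fun x hx => by
    obtain ⟨t, ht⟩ := line_meets hK hx Complex.norm_I
    obtain ⟨s, hs⟩ := line_meets hK hx (w := 1) norm_one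
    exact ⟨⟨_, ht, by simp⟩, ⟨_, hs, by simp⟩⟩
  refine (measure_mono hsub).trans ?_
  rw [Complex.volume_preserving_equiv_real_prod.measure_preimage_equiv, Measure.volume_eq_prod,
    Measure.prod_prod]
  exact mul_le_mul' h1 h2

end Pool.Agent.P.MP_342f9e_an.Holes
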