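import Pool.Agent.P.MP_342f9e_an.HolesB

set_option autoImplicit false

open Real MeasureTheory Set Filter Topology

namespace Pool.Agent.P.MP_342f9e_an.Holes

open Pool.Agent.P.MP_342f9e_an Pool.Agent.Rob

lemma numeric {R k L H V Rh : ℝ} (hR : 0 < R) (hk : 0 < k) (hL : 0 ≤ L) (hH : 0 ≤ H)
    (hc : k * pf (k * R) * (L + H) < k ^ 2 * (π * R ^ 2))
    (hV : V ≤ exp (-(2 * (k * pf (k * R) * R)) - 6) / (k * pf (k * R) * R + 4) ^ 2 * R * H)
    (hRh : R ≤ Rh) (hRh2 : π * Rh ^ 2 = π * R ^ 2 + V) :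
    k * (pf (k * Rh) - pf (k * R)) * (I0 (k * Rh + 1 / 2) ^ 2 * L) ≤ k * pf (k * R) * H := by
  have hx : 0 < k * R := mul_pos hk hR
  have h1 := pf_lower hx
  have hpi := pi_pos
  have hlip := pf_lip (mul_le_mul_of_nonneg_left hRh hk.le)
  have hmono := pf_mono hx.le (mul_le_mul_of_nonneg_left hRh hk.le)
  have ey : k * pf (k * R) * R = k * R * pf (k * R) := by ring
  rw [ey] at hV
  set P := pf (k * R) with hP
  set x := k * R with hxd
  have hP0 : 0 < P := by
    by_contra h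
    nlinarith
  set y := x * P with hy
  have hy0 : 0 < y := mul_pos hx hP0
  have hxy : x ≤ y + 2 := by
    by_contra h
    have h2 := mul_le_mul_of_nonneg_left h1 hx.le
    nlinarith
  have hLH : L + H ≤ (2 + x) * (π * R) := by
    have h2 : k ^ 2 * (π * R ^ 2) = k * (π * R) * x := by rw [hxd]; ring
    have h3 := mul_le_mul_of_nonneg_left h1 (by positivity : 0 ≤ k * (π * R))
    have h4 : k * P * (L + H) ≤ k * P * ((2 + x) * (π * R)) := by linarith
    exact le_of_mul_le_mul_left h4 (mul_pos hk hP0)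
  set c := exp (-(2 * y) - 6) / (y + 4) ^ 2 with hcd
  have hc0 : 0 < c := by positivity
  set E := exp (2 * y + 6) with hE
  have hE0 : 0 < E := exp_pos _
  have hcE : c * (y + 4) ^ 2 * E = 1 := by
    rw [hcd, div_mul_cancel₀ _ (by positivity), hE, ← exp_add]
    simp
  have hE1 : 1 ≤ E := one_le_exp (by positivity)
  have hc1 : c * (y + 4) ^ 2 ≤ 1 := by
    have := mul_le_mul_of_nonneg_left hE1 (by positivity : 0 ≤ c * (y + 4) ^ 2)
    linarith
  set d := k * Rh - x with hd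
  have hd0 : 0 ≤ d := by
    have := mul_le_mul_of_nonneg_left hRh hk.le
    linarith
  have hd1 : d * (2 * π) ≤ k * c * H := by
    have h2 : (Rh - R) * (2 * π * R) ≤ V := by
      nlinarith [mul_nonneg hpi.le (sq_nonneg (Rh - R))]
    have h3 := mul_le_mul_of_nonneg_left (h2.trans hV) hk.le
    have h4 : d * (2 * π) * R ≤ k * c * H * R := by
      rw [hd, hxd]; linarith
    exact le_of_mul_le_mul_right h4 hR
  have hsq : (2 + x) ^ 2 ≤ (y + 4) ^ 2 := pow_le_pow_left₀ (by positivity) (by linarith) 2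
  have hd2 : d ≤ 1 / 2 := by
    have h2 := mul_le_mul_of_nonneg_left (show H ≤ (2 + x) * (π * R) by linarith)
      (by positivity : 0 ≤ k * c)
    have h3 : k * c * ((2 + x) * (π * R)) = π * (c * (x * (2 + x))) := by rw [hxd]; ring
    have h4 : c * (x * (2 + x)) ≤ c * (y + 4) ^ 2 :=
      mul_le_mul_of_nonneg_left (by nlinarith) hc0.le
    have h5 := mul_le_mul_of_nonneg_left (h4.trans hc1) hpi.le
    have h6 : d * (2 * π) ≤ 1 / 2 * (2 * π) := by linarith
    exact le_of_mul_le_mul_right h6 (by positivity)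
  have hI : I0 (k * Rh + 1 / 2) ^ 2 ≤ E := by
    have h2 : I0 (k * Rh + 1 / 2) ≤ exp (y + 3) :=
      (I0_le_exp (by linarith)).trans (exp_le_exp.2 (by linarith))
    refine (pow_le_pow_left₀ (I0_pos _).le h2 2).trans (le_of_eq ?_)
    rw [sq, ← exp_add, hE]
    congr 1
    ring
  have s1 : I0 (k * Rh + 1 / 2) ^ 2 * L ≤ E * ((2 + x) * (π * R)) :=
    mul_le_mul hI (by linarith) hL hE0.le
  have s2 : k * (pf (k * Rh) - P) * (I0 (k * Rh + 1 / 2) ^ 2 * L)
      ≤ k * d * (E * ((2 + x) * (π * R))) :=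
    mul_le_mul (mul_le_mul_of_nonneg_left (by linarith) hk.le) s1 (by positivity) (by positivity)
  have s3 : k * d * (E * ((2 + x) * (π * R))) = d * (2 * π) * (E * (x * (2 + x)) / 2) := by
    rw [hxd]; ring
  have s4 : d * (2 * π) * (E * (x * (2 + x)) / 2) ≤ k * c * H * (E * (P * (y + 4) ^ 2) / 2) := by
    refine mul_le_mul hd1 ?_ (by positivity) (by positivity)
    have h2 := mul_le_mul_of_nonneg_right h1 (by positivity : 0 ≤ 2 + x)
    have h3 := mul_le_mul_of_nonneg_left hsq hP0.le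
    have h4 : x * (2 + x) ≤ P * (y + 4) ^ 2 := by nlinarith
    have := mul_le_mul_of_nonneg_left h4 hE0.le
    linarith
  have s5 : k * c * H * (E * (P * (y + 4) ^ 2) / 2) = k * P * H / 2 * (c * (y + 4) ^ 2 * E) := by
    ring
  rw [hcE, mul_one] at s5
  have s6 : 0 ≤ k * P * H := by positivity
  linarith

theorem exists_test_holes {Ω K : Set ℂ} (ho : IsOpen Ω) (hb : Bornology.IsBounded Ω)
    (hs : SimplyConnectedSpace Ω) (hl : LipDom Ω) (hK : IsCompact K) (hKΩ : K ⊆ Ω)
    (hf : μH[1] (frontier K) < ⊤) {R k : ℝ} (hR : 0 < R) (hk : 0 < k)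
    (hA : π * R ^ 2 = volume.real (Ω \ K))
    (hV : volume.real K ≤ exp (-(2 * (k * pf (k * R) * R)) - 6) / (k * pf (k * R) * R + 4) ^ 2 * R
      * (μH[1] : Measure ℂ).real (frontier K)) {τ : ℝ} (hτ : 0 < τ) :
    ∃ u : ℂ → ℝ, ContDiff ℝ (⊤ : ℕ∞) u ∧ HasCompactSupport u ∧ (∀ x ∈ Ω, 1 ≤ u x ^ 2) ∧
      (∫ x in Ω \ K, ‖fderiv ℝ u x‖ ^ 2) + k ^ 2 * (∫ x in Ω \ K, u x ^ 2)
        - k * pf (k * R) * ∫ x in frontier (Ω \ K), u x ^ 2 ∂μH[1] ≤ τ := by
  have hfΩ := hl.finite hb
  have hΩ : volume Ω < ⊤ := hb.measure_lt_top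
  have hKK : frontier K ⊆ Ω := hK.isClosed.frontier_subset.trans hKΩ
  have hdis : Disjoint (frontier Ω) (frontier K) := by
    rw [ho.frontier_eq]
    exact disjoint_left.2 fun x h1 h2 => h1.2 (hKK h2)
  have iΩ : ∀ f : ℂ → ℝ, Continuous f → IntegrableOn f Ω := fun f hf =>
    tst_int hΩ ho.measurableSet hb hf
  have iF : ∀ f : ℂ → ℝ, Continuous f → IntegrableOn f (frontier Ω) μH[1] := fun f hf' =>
    tst_int hfΩ isClosed_frontier.measurableSet (hb.closure.subset frontier_subset_closure) hf'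
  have iK : ∀ f : ℂ → ℝ, Continuous f → IntegrableOn f (frontier K) μH[1] := fun f hf' =>
    tst_int hf isClosed_frontier.measurableSet (hb.subset hKK) hf'
  have hsplit : ∀ f : ℂ → ℝ, Continuous f → ∫ x in frontier (Ω \ K), f x ∂μH[1]
      = (∫ x in frontier Ω, f x ∂μH[1]) + ∫ x in frontier K, f x ∂μH[1] := fun f hf' => by
    rw [frontier_diff ho hK.isClosed hKΩ,
      setIntegral_union hdis isClosed_frontier.measurableSet (iF f hf') (iK f hf')]
  have hP : 0 ≤ pf (k * R) := pf_nonneg (by positivity)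
  set L := (μH[1] : Measure ℂ).real (frontier Ω) with hL
  set H := (μH[1] : Measure ℂ).real (frontier K) with hH
  have hmo : MeasurableSet (Ω \ K) := ho.measurableSet.diff hK.measurableSet
  by_cases hc : k * pf (k * R) * (L + H) < k ^ 2 * (π * R ^ 2)
  · have hvol : volume.real Ω = π * R ^ 2 + volume.real K := by
      rw [hA, measureReal_sdiff hKΩ hK.measurableSet hΩ.ne]
      ring
    have hV0 : 0 ≤ volume.real K := measureReal_nonneg
    have hpi := pi_pos
    set Rh := √(volume.real Ω / π) with hRh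
    have hRh2 : π * Rh ^ 2 = volume.real Ω := by
      rw [hRh, Real.sq_sqrt (by positivity)]; field_simp
    have hRR : R ≤ Rh := Real.le_sqrt_of_sq_le (by rw [le_div_iff₀ pi_pos]; linarith)
    obtain ⟨u, hu, hu', h1, h2, h3⟩ := exists_test2 ho hb hs hl (hR.trans_le hRR) hk hRh2 hτ
    have hcu := hu.continuous
    have hcd : Continuous (fderiv ℝ u) := hu.continuous_fderiv (by simp)
    refine ⟨u, hu, hu', h1, ?_⟩
    have hn := numeric hR hk (L := L) (H := H) measureReal_nonneg measureReal_nonneg hc hV hRR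
      (hRh2.trans hvol)
    have m1 := setIntegral_mono_set (iΩ (fun x => ‖fderiv ℝ u x‖ ^ 2) (by fun_prop))
      (Eventually.of_forall fun x => sq_nonneg _) (sdiff_subset (t := K)).eventuallyLE
    have m2 := mul_le_mul_of_nonneg_left (setIntegral_mono_set (iΩ (fun x => u x ^ 2) (by fun_prop))
      (Eventually.of_forall fun x => sq_nonneg _) (sdiff_subset (t := K)).eventuallyLE) (sq_nonneg k)
    have m3 : ∫ x in frontier Ω, u x ^ 2 ∂μH[1] ≤ I0 (k * Rh + 1 / 2) ^ 2 * L := by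
      have := setIntegral_mono_on (μ := μH[1]) (f := fun x => u x ^ 2)
        (g := fun _ => I0 (k * Rh + 1 / 2) ^ 2) (iF _ (by fun_prop)) (iF _ (by fun_prop))
        isClosed_frontier.measurableSet fun x hx => h2 x (frontier_subset_closure hx)
      rwa [setIntegral_const, smul_eq_mul, mul_comm] at this
    have m4 : H ≤ ∫ x in frontier K, u x ^ 2 ∂μH[1] := by
      have := setIntegral_mono_on (μ := μH[1]) (f := fun _ => (1 : ℝ))
        (g := fun x => u x ^ 2) (iK _ (by fun_prop)) (iK _ (by fun_prop))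
        isClosed_frontier.measurableSet fun x hx => h1 x (hKK hx)
      rwa [setIntegral_const, smul_eq_mul, mul_one] at this
    have m5 := mul_le_mul_of_nonneg_left m4 (mul_nonneg hk.le hP)
    have m6 := mul_le_mul_of_nonneg_left m3 (mul_nonneg hk.le (sub_nonneg.2
      (pf_mono (by positivity) (mul_le_mul_of_nonneg_left hRR hk.le))))
    rw [hsplit (fun x => u x ^ 2) (by fun_prop)]
    linarith
  · obtain ⟨C, hC0, hC⟩ := hb.closure.exists_pos_norm_le
    let b : ContDiffBump (0 : ℂ) := ⟨C + 1, C + 2, by linarith, by linarith⟩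
    have hb1 : ∀ x ∈ Metric.ball (0 : ℂ) (C + 1), b x = 1 := fun x hx =>
      b.one_of_mem_closedBall (Metric.ball_subset_closedBall hx)
    have hball : closure Ω ⊆ Metric.ball (0 : ℂ) (C + 1) := fun x hx =>
      mem_ball_zero_iff.2 (by linarith [hC x hx])
    have hcu : Continuous b := b.continuous
    refine ⟨b, b.contDiff, b.hasCompactSupport, fun x hx => by
      rw [hb1 x (hball (subset_closure hx))]; norm_num, ?_⟩
    have m1 : ∫ x in Ω \ K, ‖fderiv ℝ b x‖ ^ 2 = 0 := setIntegral_eq_zero_of_forall_eq_zero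
      fun x hx => by
        have e1 : (b : ℂ → ℝ) =ᶠ[𝓝 x] fun _ => 1 := by
          filter_upwards [Metric.isOpen_ball.mem_nhds (hball (subset_closure hx.1))] with z hz
          exact hb1 z hz
        rw [e1.fderiv_eq]
        simp
    have m2 : ∫ x in Ω \ K, b x ^ 2 = π * R ^ 2 := by
      rw [setIntegral_congr_fun hmo (g := fun _ => (1 : ℝ)) fun x hx => by
        simp [hb1 x (hball (subset_closure hx.1))], setIntegral_const, smul_eq_mul, mul_one, hA]
    have m3 : ∫ x in frontier Ω, b x ^ 2 ∂μH[1] = L := by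
      rw [setIntegral_congr_fun isClosed_frontier.measurableSet (g := fun _ => (1 : ℝ))
        fun x hx => by simp [hb1 x (hball (frontier_subset_closure hx))], setIntegral_const,
        smul_eq_mul, mul_one]
    have m4 : ∫ x in frontier K, b x ^ 2 ∂μH[1] = H := by
      rw [setIntegral_congr_fun isClosed_frontier.measurableSet (g := fun _ => (1 : ℝ))
        fun x hx => by simp [hb1 x (hball (subset_closure (hKK hx)))], setIntegral_const,
        smul_eq_mul, mul_one]
    rw [hsplit (fun x => b x ^ 2) (by fun_prop), m1, m2, m3, m4]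
    linarith

theorem final_holes {α : ℝ} (hα : α < 0) {Ω K : Set ℂ} (ho : IsOpen Ω) (hb : Bornology.IsBounded Ω)
    (hs : SimplyConnectedSpace Ω) (hl : LipDom Ω) (hK : IsCompact K) (hKΩ : K ⊆ Ω)
    (hf : μH[1] (frontier K) < ⊤) {R c : ℝ} (hR : 0 < R)
    (hA : π * R ^ 2 = volume.real (Ω \ K))
    (hc : c = R * exp (-(2 * (|α| * R)) - 6) / (|α| * R + 4) ^ 2)
    (hV : volume.real K ≤ c * max c ((μH[1] : Measure ℂ).real (frontier K)))
    {v : ℂ → ℝ} (hv : ContDiff ℝ (⊤ : ℕ∞) v) (hv0 : 0 < ∫ x in Metric.ball (0 : ℂ) R, v x ^ 2)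
    {ε : ℝ} (hε : 0 < ε) :
    ∃ u : ℂ → ℝ, ContDiff ℝ (⊤ : ℕ∞) u ∧ HasCompactSupport u ∧ 0 < (∫ x in Ω \ K, u x ^ 2) ∧
      ((∫ x in Ω \ K, ‖fderiv ℝ u x‖ ^ 2) + α * ∫ x in frontier (Ω \ K), u x ^ 2 ∂μH[1])
          / (∫ x in Ω \ K, u x ^ 2)
        ≤ ((∫ x in Metric.ball (0 : ℂ) R, ‖fderiv ℝ v x‖ ^ 2) +
            α * ∫ x in frontier (Metric.ball (0 : ℂ) R), v x ^ 2 ∂μH[1])
            / (∫ x in Metric.ball (0 : ℂ) R, v x ^ 2) + ε := by
  obtain ⟨k, hk, hka⟩ := exists_k (neg_pos.2 hα) hR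
  have hA0 : 0 < π * R ^ 2 := by positivity
  have hc0 : 0 ≤ c := by rw [hc]; positivity
  have hH0 : 0 ≤ (μH[1] : Measure ℂ).real (frontier K) := measureReal_nonneg
  have hV' : volume.real K ≤ c * (μH[1] : Measure ℂ).real (frontier K) := by
    rcases le_total c ((μH[1] : Measure ℂ).real (frontier K)) with h | h
    · rwa [max_eq_right h] at hV
    · have h1 := ENNReal.toReal_mono (ENNReal.mul_ne_top hf.ne hf.ne) (iso_crude hK)
      rw [ENNReal.toReal_mul] at h1
      exact h1.trans (mul_le_mul_of_nonneg_right h hH0)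
  obtain ⟨u, hu, hu', h1, h2⟩ := exists_test_holes ho hb hs hl hK hKΩ hf hR hk hA (by
    rw [hka, ← abs_of_neg hα]
    refine hV'.trans (le_of_eq ?_)
    rw [hc]; ring) (mul_pos hε hA0)
  have h3 := disc_bound hv hk.le hR
  have hb' : Bornology.IsBounded (Ω \ K) := hb.subset sdiff_subset
  have hmo : MeasurableSet (Ω \ K) := ho.measurableSet.diff hK.measurableSet
  have h4 := setIntegral_mono_on (μ := volume) (f := fun _ => (1 : ℝ))
    (g := fun x => u x ^ 2) (integrableOn_const hb'.measure_lt_top.ne)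
    (tst_int hb'.measure_lt_top hmo hb' (hu.continuous.pow 2)) hmo fun x hx => h1 x hx.1
  rw [setIntegral_const, smul_eq_mul, mul_one, ← hA] at h4
  have h5 : 0 < ∫ x in Ω \ K, u x ^ 2 := hA0.trans_le h4
  rw [hka] at h2 h3
  refine ⟨u, hu, hu', h5, le_trans (b := -k ^ 2 + ε) ?_ (add_le_add_left ?_ _)⟩
  · rw [div_le_iff₀ h5]
    linarith [mul_le_mul_of_nonneg_left h4 hε.le]
  · rw [le_div_iff₀ hv0]
    linarith

end Pool.Agent.P.MP_342f9e_an.Holes
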