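import Pool.Agent.P.MP_342f9e_an.Poly2

set_option autoImplicit false

open Real MeasureTheory Set Filter Topology

namespace Pool.Agent.P.MP_342f9e_an

lemma layer_cake {X : Type*} [MeasurableSpace X] (μ : Measure X) [IsFiniteMeasure μ]
    {r : X → ℝ} (hr : Measurable r) {φ : ℝ → ℝ} (hφ : Continuous φ) {T : ℝ} (hT : 0 ≤ T) :
    ∫ t in (0 : ℝ)..T, φ t * μ.real {x | t < r x}
      = ∫ x, (∫ t in (0 : ℝ)..(max 0 (min (r x) T)), φ t) ∂μ := by
  have hU : MeasurableSet {p : ℝ × X | p.1 < r p.2} :=
    measurableSet_lt measurable_fst (hr.comp measurable_snd)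
  have hint : Integrable (Function.uncurry fun (t : ℝ) (x : X) =>
      ({p : ℝ × X | p.1 < r p.2}).indicator (fun p => φ p.1) (t, x))
      ((volume.restrict (Ioc 0 T)).prod μ) := by
    have : Integrable (fun p : ℝ × X => φ p.1) ((volume.restrict (Ioc 0 T)).prod μ) :=
      Integrable.comp_fst (hφ.integrableOn_Icc.mono_set Ioc_subset_Icc_self) μ
    exact this.indicator hU
  have h := integral_integral_swap hint
  rw [intervalIntegral.integral_of_le hT]
  convert h using 1
  · congr 1
    funext t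
    have : (fun x => ({p : ℝ × X | p.1 < r p.2}).indicator (fun p => φ p.1) (t, x))
        = ({x | t < r x}).indicator (fun _ => φ t) := by
      funext x; simp only [indicator, Set.mem_ofPred_eq]
    rw [this, integral_indicator_const _ (measurableSet_lt measurable_const hr), smul_eq_mul,
      mul_comm]
  · congr 1
    funext x
    have : (fun t => ({p : ℝ × X | p.1 < r p.2}).indicator (fun p => φ p.1) (t, x))
        = (Iio (r x)).indicator φ := by
      funext t; simp only [indicator, Set.mem_ofPred_eq, mem_Iio]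
    rw [this, setIntegral_indicator measurableSet_Iio,
      intervalIntegral.integral_of_le (le_max_left _ _)]
    rcases le_or_gt (r x) T with h1 | h1
    · rw [min_eq_left h1, integral_Ioc_eq_integral_Ioo]
      congr 2
      ext t
      simp only [mem_Ioo, lt_max_iff, mem_inter_iff, mem_Ioc, mem_Iio]
      constructor
      · rintro ⟨a, b | b⟩
        · linarith
        · exact ⟨⟨a, by linarith⟩, b⟩
      · rintro ⟨⟨a, -⟩, b⟩
        exact ⟨a, Or.inr b⟩
    · rw [min_eq_right h1.le, max_eq_right hT]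
      congr 2
      ext t
      simp only [mem_inter_iff, mem_Ioc, mem_Iio]
      constructor
      · rintro ⟨a, b⟩; exact ⟨⟨a, b⟩, by linarith⟩
      · exact fun h => h.1

lemma lipschitz_tang {w : ℂ} (hw : ‖w‖ = 1) : LipschitzWith 1 (tang w) := by
  refine LipschitzWith.of_dist_le_mul fun x y => ?_
  have h := abs_tang_le w (x - y)
  have e : tang w (x - y) = tang w x - tang w y := by simp [tang]; ring
  rw [e, hw] at h
  simpa [Real.dist_eq, dist_eq_norm] using h

lemma exists_support {Ω : Set ℂ} (hc : Convex ℝ Ω) (ho : IsOpen Ω) (hne : Ω.Nonempty) {x : ℂ}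
    (hx : x ∉ Ω) : ∃ w : ℂ, ‖w‖ = 1 ∧ ∀ y ∈ closure Ω, dot w y ≤ dot w x := by
  obtain ⟨f, hf⟩ := geometric_hahn_banach_open_point hc ho hx
  have hfd : ∀ y, f y = dot ⟨f 1, f Complex.I⟩ y := by
    intro y
    have : y = y.re • (1 : ℂ) + y.im • Complex.I := by
      apply Complex.ext <;> simp
    conv_lhs => rw [this]
    rw [map_add, map_smul, map_smul]; simp [dot]; ring
  set v : ℂ := ⟨f 1, f Complex.I⟩
  have hv : v ≠ 0 := by
    intro h
    obtain ⟨y, hy⟩ := hne
    have := hf y hy
    rw [hfd, hfd, h] at this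
    simp [dot] at this
  have hn : 0 < ‖v‖ := norm_pos_iff.2 hv
  refine ⟨((‖v‖⁻¹ : ℝ) : ℂ) * v, ?_, ?_⟩
  · rw [norm_mul, Complex.norm_real, norm_inv, norm_norm, inv_mul_cancel₀ hn.ne']
  · intro y hy
    rw [dot_smul_left, dot_smul_left]
    refine mul_le_mul_of_nonneg_left ?_ (inv_nonneg.2 hn.le)
    refine closure_minimal (t := {y | dot v y ≤ dot v x}) (fun y hy => ?_)
      (isClosed_le (continuous_dot v) continuous_const) hy
    have := hf y hy
    rw [hfd, hfd] at this
    exact this.le

theorem frontier_finite {Ω : Set ℂ} (hc : Convex ℝ Ω) (ho : IsOpen Ω) (hne : Ω.Nonempty)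
    (hb : Bornology.IsBounded Ω) : μH[1] (frontier Ω) < ⊤ := by
  have hN : 16 ≤ 16 := le_rfl
  have he : ‖(1 : ℂ)‖ = 1 := norm_one
  set F : ZMod 16 → Set ℂ := fun j => {p | p ∈ closure Ω ∧ ∃ w : ℂ, ‖w - dir 1 j‖ ≤ dl 16 ∧
    ∀ y ∈ closure Ω, dot w y ≤ dot w p} with hF
  have hcov : frontier Ω ⊆ ⋃ j, F j := by
    intro p hp
    rw [ho.frontier_eq] at hp
    obtain ⟨w, hw, hw'⟩ := exists_support hc ho hne hp.2
    obtain ⟨j, hj⟩ := exists_dir_near hN he hw
    exact mem_iUnion.2 ⟨j, hp.1, w, hj, hw'⟩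
  refine (measure_mono hcov).trans_lt (measure_iUnion_fintype_le _ _ |>.trans_lt ?_)
  refine ENNReal.sum_lt_top.2 fun j _ => ?_
  set e := dir 1 j with hedef
  have he1 : ‖e‖ = 1 := norm_dir he j
  have key : ∀ p ∈ F j, ∀ q ∈ F j, ‖p - q‖ ≤ 2 * |tang e p - tang e q| := by
    rintro p ⟨hp, w, hw, hw'⟩ q ⟨hq, v, hv, hv'⟩
    have a1 := hw' q hq
    have a2 := hv' p hp
    have b1 := abs_dot_le (w - e) (p - q)
    have b2 := abs_dot_le (v - e) (p - q)
    rw [dot_sub_left, dot_sub w] at b1
    rw [dot_sub_left, dot_sub v] at b2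
    have hd := dl_le hN
    have hn := norm_nonneg (p - q)
    have c1 : ‖w - e‖ * ‖p - q‖ ≤ 2 / 5 * ‖p - q‖ := by gcongr; exact hw.trans hd
    have c2 : ‖v - e‖ * ‖p - q‖ ≤ 2 / 5 * ‖p - q‖ := by gcongr; exact hv.trans hd
    have d1 := (abs_le.1 (b1.trans c1)).2
    have d2 := (abs_le.1 (b2.trans c2)).1
    have s := dot_sq_add e (p - q)
    have e2 : tang e (p - q) = tang e p - tang e q := by simp [tang]; ring
    rw [he1, e2] at s
    have h3 : dot e (p - q) ^ 2 ≤ (2 / 5 * ‖p - q‖) ^ 2 := sq_le_sq' (by linarith) (by linarith)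
    have h4 : ‖p - q‖ ^ 2 ≤ (2 * |tang e p - tang e q|) ^ 2 := by
      rw [mul_pow, sq_abs]; nlinarith
    exact (pow_le_pow_iff_left₀ hn (by positivity) two_ne_zero).1 h4
  have hinj : InjOn (tang e) (F j) := by
    intro p hp q hq h
    have := key p hp q hq
    rw [h, sub_self, abs_zero, mul_zero] at this
    exact sub_eq_zero.1 (norm_le_zero_iff.1 this)
  have hlip : LipschitzOnWith 2 (Function.invFunOn (tang e) (F j)) (tang e '' F j) := by
    refine LipschitzOnWith.of_dist_le_mul ?_
    rintro _ ⟨p, hp, rfl⟩ _ ⟨q, hq, rfl⟩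
    rw [hinj.leftInvOn_invFunOn hp, hinj.leftInvOn_invFunOn hq]
    simpa [Real.dist_eq, dist_eq_norm] using key p hp q hq
  have h1 := hlip.hausdorffMeasure_image_le (d := 1) zero_le_one
  rw [hinj.invFunOn_image subset_rfl, hausdorffMeasure_real] at h1
  refine h1.trans_lt (ENNReal.mul_lt_top (by simp) ?_)
  refine (Bornology.IsBounded.measure_lt_top ?_)
  exact (lipschitz_tang he1).isBounded_image (hb.closure.subset fun p hp => hp.1)

variable {N : ℕ} [NeZero N]

/-- The inner layer of a bounded open set is controlled by the length of the boundary. -/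
theorem layer_le {e0 : ℂ} (he : ‖e0‖ = 1) {Ω : Set ℂ} (ho : IsOpen Ω) {h : ZMod N → ℝ}
    (hK : Ω ⊆ K e0 h) {ε : ℝ} (hε : 0 < ε) {G A : Set ℂ} (hG : MeasurableSet G) (hA : A ⊆ Ω)
    (hA' : ∀ x ∈ A, x ∉ K e0 (fun j => h j - ε)) (hAG : ∀ x ∈ A, Metric.closedBall x ε ⊆ G) :
    volume A ≤ ENNReal.ofReal ε * μH[1] (frontier Ω ∩ G) := by
  set Reg : ZMod N → Set ℂ := fun j =>
    {x | ∀ i, i ≠ j → h j - dot (dir e0 j) x < h i - dot (dir e0 i) x} with hReg
  have hRm : ∀ j, MeasurableSet (Reg j) := by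
    intro j
    have : Reg j = ⋂ i, ⋂ (_ : i ≠ j), {x | h j - dot (dir e0 j) x < h i - dot (dir e0 i) x} := by
      ext; simp [hReg]
    rw [this]
    exact MeasurableSet.iInter fun i => MeasurableSet.iInter fun _ =>
      measurableSet_lt (measurable_const.sub (continuous_dot _).measurable)
        (measurable_const.sub (continuous_dot _).measurable)
  set Tie : Set ℂ := ⋃ i : ZMod N, ⋃ j : ZMod N, ⋃ (_ : i ≠ j),
    {x | dot (dir e0 i - dir e0 j) x = h i - h j} with hTie
  have hT0 : volume Tie = 0 :=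
    measure_iUnion_null fun i => measure_iUnion_null fun j => measure_iUnion_null fun hij =>
      vol_line (sub_ne_zero.2 fun hh => hij (dir_injective he hh)) _
  have hcov : A ⊆ Tie ∪ ⋃ j, A ∩ Reg j := by
    intro x hx
    by_cases ht : x ∈ Tie
    · exact Or.inl ht
    right
    obtain ⟨j, -, hj⟩ := Finset.exists_min_image Finset.univ
      (fun i => h i - dot (dir e0 i) x) Finset.univ_nonempty
    refine mem_iUnion.2 ⟨j, hx, fun i hi => (hj i (Finset.mem_univ i)).lt_of_ne fun hh => ht ?_⟩
    simp only [hTie, mem_iUnion, Set.mem_ofPred_eq, dot_sub_left]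
    exact ⟨i, j, hi, by linarith⟩
  have hpiece : ∀ j, volume (A ∩ Reg j)
      ≤ ENNReal.ofReal ε * μH[1] (frontier Ω ∩ G ∩ Reg j) := by
    intro j
    have hej := norm_dir he j
    have hsub : A ∩ Reg j ⊆ {x : ℂ | (dot (dir e0 j) x, tang (dir e0 j) x) ∈
        Ioc (h j - ε) (h j) ×ˢ toMeasurable volume (tang (dir e0 j) '' (frontier Ω ∩ G ∩ Reg j))} := by
      rintro x ⟨hx, hr⟩
      have hlt : h j - ε < dot (dir e0 j) x := by
        have := hA' x hx
        simp only [K, Set.mem_ofPred_eq, not_forall, not_le] at this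
        obtain ⟨i, hi⟩ := this
        by_cases hij : i = j
        · rwa [hij] at hi
        · linarith [hr i hij]
      refine ⟨⟨hlt, hK (hA hx) j⟩, subset_toMeasurable _ _ ?_⟩
      have hpre : IsPreconnected ((fun t : ℝ => x + (t : ℂ) * dir e0 j) '' Icc 0 ε) :=
        isPreconnected_Icc.image _ (by fun_prop)
      obtain ⟨t, ht, hp⟩ : ∃ t ∈ Icc 0 ε, x + (t : ℂ) * dir e0 j ∈ frontier Ω := by
        by_contra hn
        push Not at hn
        have := hpre.subset_left_of_subset_union ho isClosed_closure.isOpen_compl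
          (disjoint_compl_right_iff_subset.2 subset_closure)
          (by
            rintro _ ⟨t, ht, rfl⟩
            have := hn t ht
            rw [ho.frontier_eq] at this
            by_cases h1 : x + (t : ℂ) * dir e0 j ∈ closure Ω
            · left; by_contra h2; exact this ⟨h1, h2⟩
            · right; exact h1)
          ⟨x, (mem_inter_iff _ _ _).2 ⟨(mem_image _ _ _).2 ⟨0, left_mem_Icc.2 hε.le, by simp⟩, hA hx⟩⟩
        have h2 := hK (this (mem_image_of_mem _ (right_mem_Icc.2 hε.le))) j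
        simp only [dot_add, dot_smul, dot_self, hej] at h2
        linarith
      refine ⟨x + (t : ℂ) * dir e0 j, ⟨⟨hp, hAG x hx ?_⟩, fun i hi => ?_⟩, ?_⟩
      · rw [mem_closedBall_iff_norm, add_sub_cancel_left, norm_mul, hej, mul_one,
          Complex.norm_real, Real.norm_of_nonneg ht.1]
        exact ht.2
      · have a := hr i hi
        have b := dot_le (dir e0 i) (dir e0 j)
        rw [norm_dir he, hej] at b
        simp only [dot_add, dot_smul, dot_self, hej]
        nlinarith [ht.1]
      · rw [tang_add, tang_smul, tang_self]; simp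
    refine (measure_mono hsub).trans ?_
    rw [vol_coord hej (measurableSet_Ioc.prod (measurableSet_toMeasurable _ _)),
      Measure.volume_eq_prod, Measure.prod_prod, measure_toMeasurable, Real.volume_Ioc,
      sub_sub_cancel]
    gcongr
    have := (lipschitz_tang hej).hausdorffMeasure_image_le (d := 1) zero_le_one
      (frontier Ω ∩ G ∩ Reg j)
    rw [hausdorffMeasure_real] at this
    simpa using this
  calc volume A ≤ volume (Tie ∪ ⋃ j, A ∩ Reg j) := measure_mono hcov
    _ ≤ volume Tie + volume (⋃ j, A ∩ Reg j) := measure_union_le _ _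
    _ ≤ ∑ j, volume (A ∩ Reg j) := by rw [hT0, zero_add]; exact measure_iUnion_fintype_le _ _
    _ ≤ ∑ j, ENNReal.ofReal ε * μH[1] (frontier Ω ∩ G ∩ Reg j) :=
        Finset.sum_le_sum fun j _ => hpiece j
    _ = ENNReal.ofReal ε * μH[1] (⋃ j ∈ (Finset.univ : Finset (ZMod N)),
          frontier Ω ∩ G ∩ Reg j) := by
        rw [← Finset.mul_sum, measure_biUnion_finset _
          (fun j _ => (isClosed_frontier.measurableSet.inter hG).inter (hRm j))]
        intro i _ j _ hij
        refine Set.disjoint_left.2 fun x hi hj => ?_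
        have a := hi.2 j hij.symm
        have b := hj.2 i hij
        linarith
    _ ≤ _ := by
        gcongr
        exact iUnion₂_subset fun j _ => inter_subset_left

end Pool.Agent.P.MP_342f9e_an
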