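import Pool.Agent.P.MP_342f9e_an.Bessel

set_option autoImplicit false

open Real Set

namespace Pool.Agent.P.MP_342f9e_an

/-- fixed point scale -/
def sc : ℕ := 1000000000000000

/-- lower fixed point bounds for the terms and finite sums of the series -/
def serLo (a : ℕ) (p q : ℕ) : ℕ → ℕ × ℕ
  | 0 => (sc, 0)
  | m + 1 => ((serLo a p q m).1 * p / (q * ((m + 1) * (m + 1 + a))),
      (serLo a p q m).2 + (serLo a p q m).1)

def serHi (a : ℕ) (p q : ℕ) : ℕ → ℕ × ℕ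
  | 0 => (sc, 0)
  | m + 1 => ((serHi a p q m).1 * p / (q * ((m + 1) * (m + 1 + a))) + 1,
      (serHi a p q m).2 + (serHi a p q m).1)

lemma serLo_le {c : ℕ → ℝ} {a p q : ℕ} (hq : 0 < q) (h0 : c 0 = 1)
    (hc : ∀ m, c (m + 1) = c m / (((m : ℝ) + 1) * (m + 1 + a))) (m : ℕ) :
    ((serLo a p q m).1 : ℝ) ≤ sc * (c m * ((p : ℝ) / q) ^ m) ∧
      ((serLo a p q m).2 : ℝ) ≤ sc * ∑ i ∈ Finset.range m, c i * ((p : ℝ) / q) ^ i := by
  have hq' : (0 : ℝ) < q := by exact_mod_cast hq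
  induction m with
  | zero => simp [serLo, h0]
  | succ m ih =>
    constructor
    · simp only [serLo]
      refine Nat.cast_div_le.trans ?_
      push_cast
      rw [hc, pow_succ, div_le_iff₀ (by positivity)]
      have := mul_le_mul_of_nonneg_right ih.1 (Nat.cast_nonneg (α := ℝ) p)
      refine this.trans (le_of_eq ?_)
      field_simp
    · simp only [serLo]
      push_cast
      rw [Finset.sum_range_succ]
      linarith [ih.1, ih.2]

lemma le_serHi {c : ℕ → ℝ} {a p q : ℕ} (hq : 0 < q) (h0 : c 0 = 1)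
    (hc : ∀ m, c (m + 1) = c m / (((m : ℝ) + 1) * (m + 1 + a))) (m : ℕ) :
    sc * (c m * ((p : ℝ) / q) ^ m) ≤ ((serHi a p q m).1 : ℝ) ∧
      sc * ∑ i ∈ Finset.range m, c i * ((p : ℝ) / q) ^ i ≤ ((serHi a p q m).2 : ℝ) := by
  have hq' : (0 : ℝ) < q := by exact_mod_cast hq
  induction m with
  | zero => simp [serHi, h0]
  | succ m ih =>
    constructor
    · simp only [serHi]
      have hd : 0 < q * ((m + 1) * (m + 1 + a)) := by positivity
      have h1 := Nat.lt_div_mul_add (a := (serHi a p q m).1 * p) hd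
      have h2 : (((serHi a p q m).1 * p : ℕ) : ℝ) ≤
          (((serHi a p q m).1 * p / (q * ((m + 1) * (m + 1 + a))) + 1 : ℕ) : ℝ)
            * ((q * ((m + 1) * (m + 1 + a)) : ℕ) : ℝ) := by
        exact_mod_cast (by rw [add_mul, one_mul]; exact h1.le)
      rw [← div_le_iff₀ (by exact_mod_cast hd)] at h2
      refine le_trans ?_ h2
      push_cast
      rw [hc, pow_succ, le_div_iff₀ (by positivity)]
      have := mul_le_mul_of_nonneg_right ih.1 (Nat.cast_nonneg (α := ℝ) p)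
      refine le_trans (le_of_eq ?_) this
      field_simp
    · simp only [serHi]
      push_cast
      rw [Finset.sum_range_succ]
      linarith [ih.1, ih.2]

lemma c0_succ (m : ℕ) : c0 (m + 1) = c0 m / (((m : ℝ) + 1) * (m + 1 + (0 : ℕ))) := by
  unfold c0; rw [Nat.factorial_succ]; push_cast
  have h1 : (0 : ℝ) < m.factorial := by exact_mod_cast m.factorial_pos
  field_simp; ring

lemma c1_succ (m : ℕ) : c1 (m + 1) = c1 m / (((m : ℝ) + 1) * (m + 1 + (1 : ℕ))) := by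
  unfold c1; rw [Nat.factorial_succ (m + 1), Nat.factorial_succ m]; push_cast
  have h1 : (0 : ℝ) < m.factorial := by exact_mod_cast m.factorial_pos
  field_simp

/-- bounds at the point `u / 1000` -/
def aLo (u : ℕ) : ℚ := ((serLo 0 (u * u) 4000000 30).2 : ℚ) / sc

def aHi (u : ℕ) : ℚ :=
  (((serHi 0 (u * u) 4000000 30).2 + 2 * (serHi 0 (u * u) 4000000 30).1 : ℕ) : ℚ) / sc

def bLo (u : ℕ) : ℚ := ((u * (serLo 1 (u * u) 4000000 30).2 : ℕ) : ℚ) / (2000 * sc)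

def bHi (u : ℕ) : ℚ :=
  ((u * ((serHi 1 (u * u) 4000000 30).2 + 2 * (serHi 1 (u * u) 4000000 30).1) : ℕ) : ℚ)
    / (2000 * sc)

lemma sc_pos : (0 : ℝ) < sc := by unfold sc; norm_num

lemma sq_eq (u : ℕ) : ((u : ℝ) / 1000) ^ 2 / 4 = ((u * u : ℕ) : ℝ) / (4000000 : ℕ) := by
  push_cast; ring

lemma aLo_le (u : ℕ) : (aLo u : ℝ) ≤ I0 (u / 1000) := by
  have h := (serLo_le (c := c0) (a := 0) (p := u * u) (q := 4000000) (by norm_num) (by simp [c0])
    c0_succ 30).2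
  have h2 := I0_ge (u / 1000) 30
  rw [sq_eq] at h2
  unfold aLo
  rw [Rat.cast_div, Rat.cast_natCast, Rat.cast_natCast, div_le_iff₀ sc_pos]
  nlinarith [sc_pos]

lemma tail_ok {u : ℕ} (hu : u ≤ 20000) :
    2 * (((u : ℝ) / 1000) ^ 2 / 4) ≤ (((30 : ℕ) : ℝ) + 1) ^ 2 := by
  have h1 : (u : ℝ) ≤ 20000 := by exact_mod_cast hu
  have h2 : (0 : ℝ) ≤ u := Nat.cast_nonneg u
  push_cast; nlinarith

lemma le_aHi {u : ℕ} (hu : u ≤ 20000) : I0 (u / 1000) ≤ (aHi u : ℝ) := by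
  have h := le_serHi (c := c0) (a := 0) (p := u * u) (q := 4000000) (by norm_num) (by simp [c0])
    c0_succ 30
  have h2 := I0_le (u / 1000) 30 (tail_ok hu)
  rw [sq_eq] at h2
  unfold aHi
  rw [Rat.cast_div, Rat.cast_natCast, Rat.cast_natCast, le_div_iff₀ sc_pos, Nat.cast_add,
    Nat.cast_mul 2]
  push_cast at h h2 ⊢
  nlinarith [sc_pos, h.1, h.2]

lemma bLo_le (u : ℕ) : (bLo u : ℝ) ≤ I1 (u / 1000) := by
  have h := (serLo_le (c := c1) (a := 1) (p := u * u) (q := 4000000) (by norm_num) (by simp [c1])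
    c1_succ 30).2
  have h2 := Gf_ge (u / 1000) 30
  rw [sq_eq] at h2
  have hs := sc_pos
  have h3 : ((serLo 1 (u * u) 4000000 30).2 : ℝ) ≤ 2 * sc * Gf (u / 1000) := by nlinarith
  have h4 := mul_le_mul_of_nonneg_left h3 (Nat.cast_nonneg (α := ℝ) u)
  unfold bLo I1
  rw [Rat.cast_div, Rat.cast_natCast, Nat.cast_mul u]
  push_cast at h4 ⊢
  rw [div_le_iff₀ (by positivity)]
  linarith

lemma le_bHi {u : ℕ} (hu : u ≤ 20000) : I1 (u / 1000) ≤ (bHi u : ℝ) := by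
  have h := le_serHi (c := c1) (a := 1) (p := u * u) (q := 4000000) (by norm_num) (by simp [c1])
    c1_succ 30
  have h2 := Gf_le (u / 1000) 30 (tail_ok hu)
  rw [sq_eq] at h2
  have hs := sc_pos
  have h3 : 2 * sc * Gf (u / 1000) ≤ ((serHi 1 (u * u) 4000000 30).2 : ℝ)
      + 2 * ((serHi 1 (u * u) 4000000 30).1 : ℝ) := by nlinarith [h.1, h.2]
  have h4 := mul_le_mul_of_nonneg_left h3 (Nat.cast_nonneg (α := ℝ) u)
  unfold bHi I1
  rw [Rat.cast_div, Rat.cast_natCast, Nat.cast_mul u, Nat.cast_add, Nat.cast_mul 2]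
  push_cast at h4 ⊢
  rw [le_div_iff₀ (by positivity)]
  linarith

lemma box {u : ℕ} (hu : u ≤ 20000) {a a' b b' : ℚ}
    (h : a ≤ aLo u ∧ aHi u ≤ a' ∧ b ≤ bLo u ∧ bHi u ≤ b') :
    (a : ℝ) ≤ I0 (u / 1000) ∧ I0 (u / 1000) ≤ a' ∧ (b : ℝ) ≤ I1 (u / 1000) ∧
      I1 (u / 1000) ≤ b' :=
  ⟨(Rat.cast_le.2 h.1).trans (aLo_le u), (le_aHi hu).trans (Rat.cast_le.2 h.2.1),
    (Rat.cast_le.2 h.2.2.1).trans (bLo_le u), (le_bHi hu).trans (Rat.cast_le.2 h.2.2.2)⟩

lemma pt1 : 1.266 ≤ I0 1 ∧ I0 1 ≤ 1.2661 ∧ 0.5651 ≤ I1 1 ∧ I1 1 ≤ 0.5652 := by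
  have := box (u := 1000) (by norm_num) (a := 1266 / 1000) (a' := 12661 / 10000)
    (b := 5651 / 10000) (b' := 5652 / 10000) (by decide +kernel)
  norm_num at this ⊢
  exact this

lemma pt16 : 1.7499 ≤ I0 1.6 ∧ I0 1.6 ≤ 1.75 ∧ 1.0848 ≤ I1 1.6 ∧ I1 1.6 ≤ 1.0849 := by
  have := box (u := 1600) (by norm_num) (a := 17499 / 10000) (a' := 175 / 100)
    (b := 10848 / 10000) (b' := 10849 / 10000) (by decide +kernel)
  norm_num at this ⊢
  exact this

lemma pt22 : 2.62914 ≤ I0 2.2 ∧ I0 2.2 ≤ 2.62915 ∧ 1.91409 ≤ I1 2.2 ∧ I1 2.2 ≤ 1.9141 := by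
  have := box (u := 2200) (by norm_num) (a := 262914 / 100000) (a' := 262915 / 100000)
    (b := 191409 / 100000) (b' := 19141 / 10000) (by decide +kernel)
  norm_num at this ⊢
  exact this

lemma pt5 : 27.23987 ≤ I0 5 ∧ I0 5 ≤ 27.23988 ∧ 24.33564 ≤ I1 5 ∧ I1 5 ≤ 24.33565 := by
  have := box (u := 5000) (by norm_num) (a := 2723987 / 100000) (a' := 2723988 / 100000)
    (b := 2433564 / 100000) (b' := 2433565 / 100000) (by decide +kernel)
  norm_num at this ⊢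
  exact this

end Pool.Agent.P.MP_342f9e_an
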