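import Pool.Agent.P.MP_342f9e_an.Bessel2

set_option autoImplicit false

open Real Set Filter Topology MeasureTheory

namespace Pool.Agent.P.MP_342f9e_an

lemma nf_mono {s x y : ℝ} (hs : s ≤ 1) (hx : 1.6 ≤ x) (hxy : x ≤ y) : nf s x ≤ nf s y :=
  le_of_deriv hxy (fun t _ => hasDerivAt_nf s t) fun _ ht => nd_nonneg hs (hx.trans ht.1)

lemma Mt_lower {s x y : ℝ} (hs : s ≤ 1) (hx : 1.6 ≤ x) (hxy : x ≤ y) :
    (y - x) * (nf s x - 1) ≤ Mt s y - Mt s x := by
  have h := le_of_deriv (f := fun t => Mt s t - t * (nf s x - 1))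
    (f' := fun t => nf s t - nf s x) hxy
    (fun t _ => ((hasDerivAt_Mt s t).sub ((hasDerivAt_id t).mul_const _)).congr_deriv (by ring))
    (fun t ht => sub_nonneg.2 (nf_mono hs hx ht.1))
  linarith

lemma Mt_upper {s x y : ℝ} (hs : s ≤ 1) (hx : 1.6 ≤ x) (hxy : x ≤ y) :
    Mt s y - Mt s x ≤ (y - x) * (nf s y - 1) := by
  have h := le_of_deriv (f := fun t => t * (nf s y - 1) - Mt s t)
    (f' := fun t => nf s y - nf s t) hxy
    (fun t _ => (((hasDerivAt_id t).mul_const _).sub (hasDerivAt_Mt s t)).congr_deriv (by ring))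
    (fun t ht => sub_nonneg.2 (nf_mono hs (hx.trans ht.1) ht.2))
  linarith

lemma nf_ge (s x : ℝ) : I0 x ^ 2 * (1 - s ^ 2) ≤ nf s x := by
  unfold nf; nlinarith [sq_nonneg (I1 x - s * I0 x)]

lemma nf_self (R : ℝ) : nf (pf R) R = Df R := by
  unfold nf Df; rw [I1_eq R]; ring

lemma Df_eq (x : ℝ) : Df x = I0 x ^ 2 * (1 - pf x ^ 2) := by
  unfold Df; rw [I1_eq x]; ring

noncomputable def psi (R x : ℝ) : ℝ := R * Mt (pf R) x - Wf x - (pf R * R - R ^ 2 / 2)

noncomputable def psid (R x : ℝ) : ℝ := R * (nf (pf R) x - 1) - (x * Df x - x)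

lemma hasDerivAt_psi (R x : ℝ) : HasDerivAt (psi R) (psid R x) x :=
  (((hasDerivAt_Mt _ x).const_mul R).sub (hasDerivAt_Wf x)).sub_const _

lemma Mt_self (R : ℝ) : Mt (pf R) R = Ef R + pf R - R := by
  unfold Mt Ef; rw [I1_eq R]; ring

lemma psi_self (R : ℝ) : psi R R = 0 := by
  unfold psi Wf; rw [Mt_self]; ring

lemma psid_eq (R x : ℝ) : psid R x =
    I0 x ^ 2 * ((R - x) * (1 - pf x ^ 2) + 2 * R * pf x * (pf x - pf R)) - (R - x) := by
  unfold psid nf; rw [Df_eq, I1_eq x]; ring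

lemma psid_left {R z0 tb x : ℝ} (hz : 1.6 ≤ z0) (hx : z0 ≤ x) (hxR : x ≤ R) (htb : 0 ≤ tb)
    (h5 : pd z0 * (2 * R * pf R - 1) - pf z0 / R ≤ tb * (1 - pf R ^ 2)) :
    -psid R x ≤ (R - x) * (tb * nf (pf R) x + 1) := by
  have hx1 : 1 ≤ x := by linarith
  have hR : 0 < R := by linarith
  have a1 := pf_sub_le hx1 hxR
  have a2 := pd_anti (by linarith : (1 : ℝ) ≤ z0) hx
  have a3 := pd_nonneg' (x := x) (by linarith)
  have a4 := pf_mono (by linarith : (0 : ℝ) ≤ x) hxR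
  have a5 := pf_mono (by linarith : (0 : ℝ) ≤ z0) hx
  have a6 : 0.446 ≤ pf z0 := pf_one.trans (pf_mono zero_le_one (by linarith))
  have a7 := Gf_div x
  have a8 := nf_ge (pf R) x
  have a9 : 1 - pf x ^ 2 = pd x + Gf x / I0 x := by unfold pd; ring
  have hq0 : 0 ≤ Gf x / I0 x := div_nonneg (Gf_pos x).le (I0_pos x).le
  have hq : pf z0 / R ≤ Gf x / I0 x := by
    rw [div_le_iff₀ hR]; nlinarith
  have hJ : 0 ≤ I0 x ^ 2 := sq_nonneg _
  have b1 : pd x * (2 * R * pf x - 1) ≤ pd z0 * (2 * R * pf R - 1) := by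
    have c1 : pd x * (2 * R * pf x - 1) ≤ pd x * (2 * R * pf R - 1) :=
      mul_le_mul_of_nonneg_left (by nlinarith) a3
    have c2 : 0 ≤ 2 * R * pf R - 1 := by nlinarith
    exact c1.trans (mul_le_mul_of_nonneg_right a2 c2)
  have b2 : 2 * R * pf x * (pf R - pf x) ≤ 2 * R * pf x * ((R - x) * pd x) :=
    mul_le_mul_of_nonneg_left a1 (by nlinarith)
  have b3 : -((R - x) * (1 - pf x ^ 2) + 2 * R * pf x * (pf x - pf R))
      ≤ (R - x) * (tb * (1 - pf R ^ 2)) := by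
    have c : (R - x) * (pd x * (2 * R * pf x - 1) - Gf x / I0 x)
        ≤ (R - x) * (tb * (1 - pf R ^ 2)) :=
      mul_le_mul_of_nonneg_left (by linarith) (by linarith)
    rw [a9]; linarith
  have b4 := mul_le_mul_of_nonneg_left b3 hJ
  have b5 : (R - x) * tb * (I0 x ^ 2 * (1 - pf R ^ 2)) ≤ (R - x) * tb * nf (pf R) x :=
    mul_le_mul_of_nonneg_left a8 (mul_nonneg (by linarith) htb)
  rw [psid_eq]; linarith

lemma psid_right {R cp x : ℝ} (hR : 1 ≤ R) (hx : R ≤ x) (h6 : 2 * Ef R ≤ cp * Df R) :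
    psid R x ≤ (x - R) * (cp * nf (pf R) x) := by
  have a1 := pf_sub_le hR hx
  have a2 := pf_lt_one (x := x) (by linarith)
  have a3 := pd_nonneg' (x := R) (by linarith)
  have a4 := pf_mono (by linarith : (0 : ℝ) ≤ R) hx
  have a5 := pf_nonneg (x := x) (by linarith)
  have a6 := one_le_Df (x := x) (by linarith)
  have a7 := one_le_Df (x := R) (by linarith)
  have a8 := nf_ge (pf R) x
  have hE := Ef_nonneg (x := R) (by linarith)
  have hcp : 0 ≤ cp := by nlinarith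
  have hJ : 0 ≤ I0 x ^ 2 := sq_nonneg _
  have b0 : 2 * (R * pd R) ≤ cp * (1 - pf R ^ 2) := by
    rw [Ef_eq, Df_eq] at h6
    have := pow_pos (I0_pos R) 2
    nlinarith
  have b1 : 2 * R * pf x * (pf x - pf R) ≤ (x - R) * (cp * (1 - pf R ^ 2)) := by
    have c1 : pf x * (pf x - pf R) ≤ (x - R) * pd R := by nlinarith
    have c2 := mul_le_mul_of_nonneg_left c1 (by linarith : 0 ≤ 2 * R)
    have c3 := mul_le_mul_of_nonneg_left b0 (by linarith : 0 ≤ x - R)
    linarith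
  have b2 := mul_le_mul_of_nonneg_left b1 hJ
  have b3 : (x - R) * cp * (I0 x ^ 2 * (1 - pf R ^ 2)) ≤ (x - R) * cp * nf (pf R) x :=
    mul_le_mul_of_nonneg_left a8 (mul_nonneg (by linarith) hcp)
  have b4 : 0 ≤ (x - R) * (Df x - 1) := mul_nonneg (by linarith) (by linarith)
  rw [Df_eq] at b4
  rw [psid_eq]; linarith

lemma psi_left {R z0 tb x : ℝ} (hz : 1.6 ≤ z0) (hx : z0 ≤ x) (hxR : x ≤ R) (htb : 0 ≤ tb)
    (h5 : pd z0 * (2 * R * pf R - 1) - pf z0 / R ≤ tb * (1 - pf R ^ 2)) :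
    psi R x ≤ tb * ((R - x) * (Mt (pf R) R - Mt (pf R) x) / 2) + (1 + tb) * ((R - x) ^ 2 / 2) := by
  have hs := (pf_lt_one (x := R) (by linarith)).le
  have h := le_of_deriv (f := fun t => psi R t - tb * ((R - t) * (Mt (pf R) R - Mt (pf R) t) / 2)
      - (1 + tb) * ((R - t) ^ 2 / 2))
    (f' := fun t => psid R t + tb * (((Mt (pf R) R - Mt (pf R) t) + (R - t) * (nf (pf R) t - 1)) / 2)
      + (1 + tb) * (R - t)) hxR
    (fun t _ => by
      have h1 := (hasDerivAt_id t).const_sub R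
      have := ((hasDerivAt_psi R t).sub (((h1.mul ((hasDerivAt_Mt (pf R) t).const_sub
        (Mt (pf R) R))).div_const 2).const_mul tb)).sub (((h1.pow 2).div_const 2).const_mul (1 + tb))
      refine this.congr_deriv ?_
      simp only [id]; push_cast; ring)
    (fun t ht => by
      have a := psid_left hz (hx.trans ht.1) ht.2 htb h5
      have b := mul_le_mul_of_nonneg_left (Mt_lower hs (hz.trans (hx.trans ht.1)) ht.2) htb
      linarith)
  simp only [psi_self, sub_self] at h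
  linarith

lemma psi_right {R cp x : ℝ} (hR : 1.6 ≤ R) (hx : R ≤ x) (h6 : 2 * Ef R ≤ cp * Df R) :
    psi R x ≤ cp * ((x - R) * (Mt (pf R) x - Mt (pf R) R) + (x - R) ^ 2 / 2) := by
  have hs := (pf_lt_one (x := R) (by linarith)).le
  have hE := Ef_nonneg (x := R) (by linarith)
  have a7 := one_le_Df (x := R) (by linarith)
  have hcp : 0 ≤ cp := by nlinarith
  have h := le_of_deriv (f := fun t => cp * ((x - R) * Mt (pf R) t + (t - R) ^ 2 / 2) - psi R t)
    (f' := fun t => cp * ((x - R) * (nf (pf R) t - 1) + (t - R)) - psid R t) hx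
    (fun t _ => by
      have h1 := (hasDerivAt_id t).sub_const R
      have := ((((hasDerivAt_Mt (pf R) t).const_mul (x - R)).add
        ((h1.pow 2).div_const 2)).const_mul cp).sub (hasDerivAt_psi R t)
      refine this.congr_deriv ?_
      simp only [id]; push_cast; ring)
    (fun t ht => by
      have a := psid_right (by linarith) ht.1 h6
      have b : 0 ≤ nf (pf R) t - 1 := by
        have := nf_mono hs hR ht.1
        rw [nf_self] at this; linarith
      have c := mul_nonneg hcp (mul_nonneg (sub_nonneg.2 ht.2) b)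
      linarith)
  simp only [psi_self, sub_self] at h
  linarith

lemma alg_left {ν tb sm T b y u q : ℝ} (hν : 0 ≤ ν) (htb : 0 ≤ tb) (hy : 0 ≤ y) (hu : 0 ≤ u)
    (c4 : u ≤ sm * y)
    (h8 : T / 2 + ν * sm * (2 / 3 + tb / 2 * (1 + 2 / 3 * sm)) + sm ^ 2 / 2 * (1 + tb) ≤ b)
    (a3 : q ≤ tb * (u * (ν * (y + 2 / 3 * u)) / 2) + (1 + tb) * (u ^ 2 / 2)) :
    2 / 3 * ν * (y * u) + q ≤ (b - T / 2) * y ^ 2 := by
  have d1 : y * u ≤ sm * y ^ 2 := by linarith [mul_le_mul_of_nonneg_left c4 hy]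
  have d2 : u ^ 2 ≤ sm ^ 2 * y ^ 2 := by
    rw [← mul_pow]; exact pow_le_pow_left₀ hu c4 2
  have d3 := mul_le_mul_of_nonneg_right h8 (sq_nonneg y)
  have d4 := mul_le_mul_of_nonneg_left d1 hν
  have d5 := mul_le_mul_of_nonneg_left d2 hν
  have d6 := mul_le_mul_of_nonneg_left d4 htb
  have d7 := mul_le_mul_of_nonneg_left d5 htb
  have d8 := mul_le_mul_of_nonneg_left d2 htb
  linarith

lemma alg_right {ν cp sp T b y u q : ℝ} (hν : 0 ≤ ν) (hcp : 0 ≤ cp) (hy : 0 ≤ y) (hu : 0 ≤ u)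
    (c4 : u ≤ sp * y)
    (h8 : T / 2 + ν * sp * (2 / 3 + cp * (1 + 2 / 3 * sp)) + cp * sp ^ 2 / 2 ≤ b)
    (a3 : q ≤ cp * (u * (ν * y + 2 / 3 * ν * u) + u ^ 2 / 2)) :
    2 / 3 * ν * (y * u) + q ≤ (b - T / 2) * y ^ 2 := by
  have d1 : y * u ≤ sp * y ^ 2 := by linarith [mul_le_mul_of_nonneg_left c4 hy]
  have d2 : u ^ 2 ≤ sp ^ 2 * y ^ 2 := by
    rw [← mul_pow]; exact pow_le_pow_left₀ hu c4 2
  have d3 := mul_le_mul_of_nonneg_right h8 (sq_nonneg y)
  have d4 := mul_le_mul_of_nonneg_left d1 hν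
  have d5 := mul_le_mul_of_nonneg_left d2 hν
  have d6 := mul_le_mul_of_nonneg_left d4 hcp
  have d7 := mul_le_mul_of_nonneg_left d5 hcp
  have d8 := mul_le_mul_of_nonneg_left d2 hcp
  linarith

/-- data of the delayed test function -/
def GoodII (R hc : ℝ) : Prop := ∃ (ν a b s : ℝ) (Z : ℝ → ℝ),
  0 ≤ b ∧ b * (0.34 * (hc + R) + hc - R) ≤ a ∧ 0 ≤ s ∧ s ≤ 1 ∧
  (∀ h, 0 ≤ h → 1.6 ≤ Z h ∧ Z h - R ≤ s * (h - R)) ∧
  (∀ h₁ h₂, 0 ≤ h₁ → h₁ ≤ h₂ → Z h₁ ≤ Z h₂ ∧ Z h₂ - Z h₁ ≤ h₂ - h₁ ∧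
    ν * (h₂ - h₁) ^ 2 ≤ (h₂ - h₁ - (Z h₂ - Z h₁) / 2) * (Mt (pf R) (Z h₂) - Mt (pf R) (Z h₁))) ∧
  (∀ h, 0 ≤ h → h * Mt (pf R) (Z h) - Wf (Z h) - pf R * h + R ^ 2 / 2
    - (ν - Tb (pf R) / 2) * (h ^ 2 - R ^ 2) ≤ -a * (h - R) + b * (h - R) ^ 2)

theorem goodII_of {R hc ν z0 tb sp cp sm b : ℝ} (hz : 1.6 ≤ z0) (hzR : z0 < R) (hν : 0 < ν)
    (h2 : ν * (R + 2 / 3 * (R - z0)) ≤ Mt (pf R) R - Mt (pf R) z0)
    (h3 : 8 / 3 * ν ≤ nf (pf R) z0 - 1) (htb : 0 ≤ tb)
    (h5 : pd z0 * (2 * R * pf R - 1) - pf z0 / R ≤ tb * (1 - pf R ^ 2))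
    (h6 : ν ≤ sp * (Df R - 1 - 2 / 3 * ν)) (h6' : 2 * Ef R ≤ cp * Df R)
    (h7 : R - z0 ≤ sm * R) (hb : 0 ≤ b)
    (h8 : Tb (pf R) / 2 + ν * sm * (2 / 3 + tb / 2 * (1 + 2 / 3 * sm)) + sm ^ 2 / 2 * (1 + tb) ≤ b)
    (h8' : Tb (pf R) / 2 + ν * sp * (2 / 3 + cp * (1 + 2 / 3 * sp)) + cp * sp ^ 2 / 2 ≤ b)
    (h9 : b * (0.34 * (hc + R) + hc - R) ≤ R * (1 - Tb (pf R)) + 2 * ν * R - Ef R) :
    GoodII R hc := by
  have hR : 0 < R := by linarith
  have hs := (pf_lt_one hR.le).le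
  have hE := Ef_nonneg hR.le
  have hD := one_le_Df hR.le
  have hcp : 0 ≤ cp := by nlinarith
  have hn : ∀ x, z0 ≤ x → 8 / 3 * ν ≤ nf (pf R) x - 1 := fun x hx => by
    linarith [nf_mono hs hz hx]
  have hnR : 8 / 3 * ν ≤ Df R - 1 := nf_self R ▸ hn R hzR.le
  have hex : ∀ h, 0 ≤ h → ∃ z, z0 ≤ z ∧
      Mt (pf R) z - Mt (pf R) R = ν * (h - R) + 2 / 3 * ν * (z - R) := by
    intro h hh
    set F : ℝ → ℝ := fun z => Mt (pf R) z - Mt (pf R) R - 2 / 3 * ν * (z - R) with hF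
    have hFc : Continuous F := by rw [hF]; fun_prop
    have h0 : F z0 ≤ ν * (h - R) := by simp only [hF]; nlinarith
    set z1 := z0 + (ν * (h - R) - F z0) / (2 * ν) with hz1
    have hd : 0 ≤ (ν * (h - R) - F z0) / (2 * ν) := div_nonneg (by linarith) (by linarith)
    have hle : z0 ≤ z1 := by linarith
    have h1 : ν * (h - R) ≤ F z1 := by
      have a := Mt_lower hs hz hle
      have b := mul_le_mul_of_nonneg_left h3 (sub_nonneg.2 hle)
      have c : (z1 - z0) * (2 * ν) = ν * (h - R) - F z0 := by rw [hz1]; field_simp; ring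
      simp only [hF] at c ⊢
      linarith
    obtain ⟨z, hz', hFz⟩ := intermediate_value_Icc hle hFc.continuousOn ⟨h0, h1⟩
    exact ⟨z, hz'.1, by simp only [hF] at hFz; linarith⟩
  choose! Z hZ0 hZ using hex
  have hq : 0 < Df R - 1 - 2 / 3 * ν := by linarith
  have hslope : ∀ h, 0 ≤ h → (Z h - R) * (Df R - 1 - 2 / 3 * ν) ≤ ν * (h - R) := by
    intro h hh
    have e := hZ h hh
    rcases le_total (Z h) R with h1 | h1
    · have := Mt_upper hs (hz.trans (hZ0 h hh)) h1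
      rw [nf_self] at this; linarith
    · have := Mt_lower hs (hz.trans hzR.le) h1
      rw [nf_self] at this; linarith
  refine ⟨ν, R * (1 - Tb (pf R)) + 2 * ν * R - Ef R, b, ν / (Df R - 1 - 2 / 3 * ν), Z, hb, h9,
    by positivity, by rw [div_le_one hq]; linarith, fun h hh => ⟨hz.trans (hZ0 h hh), ?_⟩,
    fun h₁ h₂ hh₁ hle => ?_, fun h hh => ?_⟩
  · rw [div_mul_eq_mul_div, le_div_iff₀ hq]; exact hslope h hh
  · have hh₂ : 0 ≤ h₂ := hh₁.trans hle
    have e1 := hZ h₁ hh₁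
    have e2 := hZ h₂ hh₂
    have hm : Z h₁ ≤ Z h₂ := by
      by_contra hn'
      push Not at hn'
      have a := Mt_lower hs (hz.trans (hZ0 h₂ hh₂)) hn'.le
      have b := mul_le_mul_of_nonneg_left (hn _ (hZ0 h₂ hh₂)) (sub_nonneg.2 hn'.le)
      nlinarith
    have a := Mt_lower hs (hz.trans (hZ0 h₁ hh₁)) hm
    have b := mul_le_mul_of_nonneg_left (hn _ (hZ0 h₁ hh₁)) (sub_nonneg.2 hm)
    have c : 2 * (Z h₂ - Z h₁) ≤ h₂ - h₁ := by
      by_contra hn'
      push Not at hn'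
      nlinarith
    refine ⟨hm, by linarith, ?_⟩
    have e : Mt (pf R) (Z h₂) - Mt (pf R) (Z h₁) = ν * (h₂ - h₁ + 2 / 3 * (Z h₂ - Z h₁)) := by
      linarith
    rw [e]
    nlinarith [mul_nonneg hν.le (mul_nonneg (sub_nonneg.2 hm) (sub_nonneg.2 c))]
  · have e := hZ h hh
    have hmain : 2 / 3 * ν * ((h - R) * (Z h - R)) + psi R (Z h)
        ≤ (b - Tb (pf R) / 2) * (h - R) ^ 2 := by
      rcases le_total (Z h) R with h1 | h1
      · have a1 := Mt_lower hs (hz.trans (hZ0 h hh)) h1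
        have a2 := Mt_upper hs hz (hZ0 h hh)
        have a3 := psi_left hz (hZ0 h hh) h1 htb h5
        have a4 := hZ0 h hh
        have c1 : (R - Z h) * (Mt (pf R) R - Mt (pf R) z0)
            ≤ (R - z0) * (Mt (pf R) R - Mt (pf R) (Z h)) := by
          linarith only [mul_le_mul_of_nonneg_left a1 (sub_nonneg.2 a4),
            mul_le_mul_of_nonneg_left a2 (sub_nonneg.2 h1)]
        have c2 := mul_le_mul_of_nonneg_left h2 (sub_nonneg.2 h1)
        have eM : Mt (pf R) R - Mt (pf R) (Z h) = ν * ((R - h) + 2 / 3 * (R - Z h)) := by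
          linarith only [e]
        rw [eM] at c1 a3
        have c3 : (R - Z h) * R ≤ (R - z0) * (R - h) := by
          apply le_of_mul_le_mul_left _ hν; linarith only [c1, c2]
        have hy : 0 ≤ R - h := by
          by_contra hn'
          push Not at hn'
          linarith only [c3, mul_nonneg (sub_nonneg.2 h1) hR.le,
            mul_neg_of_pos_of_neg (sub_pos.2 hzR) hn']
        have c4 : R - Z h ≤ sm * (R - h) := by
          apply le_of_mul_le_mul_right _ hR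
          linarith only [c3, mul_le_mul_of_nonneg_right h7 hy]
        have e1 : (h - R) * (Z h - R) = (R - h) * (R - Z h) := by ring
        have e2 : (h - R) ^ 2 = (R - h) ^ 2 := by ring
        rw [e1, e2]
        exact alg_left hν.le htb hy (sub_nonneg.2 h1) c4 h8 a3
      · have a3 := psi_right (hz.trans hzR.le) h1 h6'
        have a4 := hslope h hh
        rw [e] at a3
        have hy : 0 ≤ h - R := by
          by_contra hn'
          push Not at hn'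
          linarith only [a4, mul_nonneg (sub_nonneg.2 h1) hq.le, mul_neg_of_pos_of_neg hν hn']
        have c4 : Z h - R ≤ sp * (h - R) := by
          apply le_of_mul_le_mul_right _ hq
          linarith only [a4, mul_le_mul_of_nonneg_right h6 hy]
        exact alg_right hν.le hcp hy (sub_nonneg.2 h1) c4 h8' a3
    have e1 : Mt (pf R) (Z h) = Ef R + pf R - R + ν * (h - R) + 2 / 3 * ν * (Z h - R) := by
      rw [← Mt_self]; linarith
    have e2 : Wf (Z h) = R * Mt (pf R) (Z h) - psi R (Z h) - (pf R * R - R ^ 2 / 2) := by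
      unfold psi; ring
    rw [e2, e1]
    linarith only [hmain]

end Pool.Agent.P.MP_342f9e_an
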