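import Pool.Agent.P.MP_342f9e_an.Grid

set_option autoImplicit false

open Real MeasureTheory Set Filter Topology

namespace Pool.Agent.P.MP_342f9e_an

noncomputable def ta (N : ℕ) : ℝ := (2 - 2 * cos (dl N)) / sin (dl N)

noncomputable def pN (N : ℕ) : ℝ := N * ta N / 2

lemma ta_pos {N : ℕ} (hN : 16 ≤ N) : 0 < ta N :=
  div_pos (by linarith [cos_dl_lt hN]) (sin_dl_pos hN)

lemma pN_pos {N : ℕ} (hN : 16 ≤ N) : 0 < pN N := by
  have : (0 : ℝ) < N := by exact_mod_cast (by omega : 0 < N)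
  have := ta_pos hN
  unfold pN; positivity

variable {N : ℕ} [NeZero N]

noncomputable def ell (m : ZMod N → ℝ) (j : ZMod N) : ℝ :=
  (m (j + 1) + m (j - 1) - 2 * cos (dl N) * m j) / sin (dl N)

noncomputable def Bf (m m' : ZMod N → ℝ) : ℝ := ∑ j, m j * ell m' j

noncomputable def V (m : ZMod N → ℝ) : ℝ := Bf m m / 2

noncomputable def S (f : ZMod N → ℝ) : ℝ := ta N * ∑ j, f j

noncomputable def En2 (m m' : ZMod N → ℝ) : ℝ :=
  (∑ j, (m (j + 1) - m j) * (m' (j + 1) - m' j)) / sin (dl N)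

def K (e0 : ℂ) (m : ZMod N → ℝ) : Set ℂ := {x | ∀ j, dot (dir e0 j) x ≤ m j}

lemma sum_shift (f : ZMod N → ℝ) : ∑ j, f (j + 1) = ∑ j, f j :=
  Equiv.sum_comp (Equiv.addRight 1) f

lemma Bf_eq (m m' : ZMod N → ℝ) : Bf m m' = S (fun j => m j * m' j) - En2 m m' := by
  have h1 := sum_shift (fun j => m j * m' (j - 1))
  have h2 := sum_shift (fun j => m j * m' j)
  simp only [add_sub_cancel_right] at h1
  have e1 : Bf m m' = ((∑ j, m j * m' (j + 1)) + (∑ j, m j * m' (j - 1))
      - 2 * cos (dl N) * ∑ j, m j * m' j) / sin (dl N) := by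
    unfold Bf ell
    rw [Finset.mul_sum, ← Finset.sum_add_distrib, ← Finset.sum_sub_distrib, Finset.sum_div]
    refine Finset.sum_congr rfl fun j _ => by ring
  have e2 : ∑ j, (m (j + 1) - m j) * (m' (j + 1) - m' j)
      = (∑ j, m (j + 1) * m' (j + 1)) - (∑ j, m (j + 1) * m' j) - (∑ j, m j * m' (j + 1))
        + ∑ j, m j * m' j := by
    rw [← Finset.sum_sub_distrib, ← Finset.sum_sub_distrib, ← Finset.sum_add_distrib]
    refine Finset.sum_congr rfl fun j _ => by ring
  rw [e1]; unfold S En2 ta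
  rw [e2, h2, h1]; ring

lemma Bf_comm (m m' : ZMod N → ℝ) : Bf m m' = Bf m' m := by
  rw [Bf_eq, Bf_eq]; unfold En2
  simp only [mul_comm]

lemma Bf_add_left (m₁ m₂ m' : ZMod N → ℝ) :
    Bf (fun j => m₁ j + m₂ j) m' = Bf m₁ m' + Bf m₂ m' := by
  unfold Bf; rw [← Finset.sum_add_distrib]
  exact Finset.sum_congr rfl fun j _ => by ring

lemma V_add (m₁ m₂ : ZMod N → ℝ) :
    V (fun j => m₁ j + m₂ j) = V m₁ + Bf m₂ m₁ + V m₂ := by
  unfold V
  rw [Bf_add_left, Bf_comm m₁, Bf_comm m₂ (fun j => m₁ j + m₂ j), Bf_add_left, Bf_add_left,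
    Bf_comm m₁ m₂]
  ring

lemma V_eq (m : ZMod N → ℝ) : V m = S (fun j => m j ^ 2) / 2 - En2 m m / 2 := by
  unfold V; rw [Bf_eq]; simp only [sq]; ring

lemma S_const (s : ℝ) : S (fun _ : ZMod N => s) = 2 * pN N * s := by
  unfold S pN; simp [ZMod.card]; ring

lemma S_add (f g : ZMod N → ℝ) : S (fun j => f j + g j) = S f + S g := by
  unfold S; rw [Finset.sum_add_distrib]; ring

lemma S_sub (f g : ZMod N → ℝ) : S (fun j => f j - g j) = S f - S g := by
  unfold S; rw [Finset.sum_sub_distrib]; ring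

lemma S_mul (c : ℝ) (f : ZMod N → ℝ) : S (fun j => c * f j) = c * S f := by
  unfold S; rw [← Finset.mul_sum]; ring

lemma S_mono (hN : 16 ≤ N) {f g : ZMod N → ℝ} (h : ∀ j, f j ≤ g j) : S f ≤ S g :=
  mul_le_mul_of_nonneg_left (Finset.sum_le_sum fun j _ => h j) (ta_pos hN).le

lemma S_nonneg (hN : 16 ≤ N) {f : ZMod N → ℝ} (h : ∀ j, 0 ≤ f j) : 0 ≤ S f :=
  mul_nonneg (ta_pos hN).le (Finset.sum_nonneg fun j _ => h j)

lemma Bf_const (m : ZMod N → ℝ) (s : ℝ) : Bf (fun _ => s) m = s * S m := by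
  rw [Bf_eq, S_mul]; simp [En2]

lemma V_add_const (m : ZMod N → ℝ) (s : ℝ) :
    V (fun j => m j + s) = V m + s * S m + pN N * s ^ 2 := by
  rw [V_add, Bf_const]; unfold V; rw [Bf_const, S_const]; ring

lemma V_sub_const (m : ZMod N → ℝ) (s : ℝ) :
    V (fun j => m j - s) = V m - s * S m + pN N * s ^ 2 := by
  have := V_add_const m (-s)
  simp only [← sub_eq_add_neg] at this
  rw [this]; ring

lemma ell_lin (e0 x : ℂ) (j : ZMod N) : ell (fun i : ZMod N => dot (dir e0 i) x) j = 0 := by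
  unfold ell; rw [dot_dir_three]; simp

lemma Bf_lin (e0 x : ℂ) (m : ZMod N → ℝ) : Bf m (fun i => dot (dir e0 i) x) = 0 := by
  unfold Bf; simp [ell_lin]

lemma S_lin (e0 x : ℂ) : S (fun i : ZMod N => dot (dir e0 i) x) = 0 := by
  have := Bf_lin e0 x (fun _ : ZMod N => (1 : ℝ))
  rw [Bf_const] at this; linarith

lemma V_add_lin (e0 x : ℂ) (m : ZMod N → ℝ) :
    V (fun j => m j + dot (dir e0 j) x) = V m := by
  rw [V_add, Bf_comm, Bf_lin]; unfold V; rw [Bf_lin]; ring

lemma ell_add_lin (e0 x : ℂ) (m : ZMod N → ℝ) (j : ZMod N) :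
    ell (fun i => m i + dot (dir e0 i) x) j = ell m j := by
  have := dot_dir_three e0 j x
  unfold ell; congr 1; linarith

lemma ell_add_const (m : ZMod N → ℝ) (s : ℝ) (j : ZMod N) :
    ell (fun i => m i + s) j = ell m j + s * ta N := by
  unfold ell ta; ring

lemma isClosed_K (e0 : ℂ) (m : ZMod N → ℝ) : IsClosed (K e0 m) := by
  have : K e0 m = ⋂ j, {x | dot (dir e0 j) x ≤ m j} := by ext; simp [K]
  rw [this]
  exact isClosed_iInter fun j => isClosed_le (continuous_dot _) continuous_const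

lemma measurableSet_K (e0 : ℂ) (m : ZMod N → ℝ) : MeasurableSet (K e0 m) :=
  (isClosed_K e0 m).measurableSet

lemma K_mono (e0 : ℂ) {m m' : ZMod N → ℝ} (h : ∀ j, m j ≤ m' j) : K e0 m ⊆ K e0 m' :=
  fun _ hx j => (hx j).trans (h j)

lemma norm_le_of_mem_K (hN : 16 ≤ N) {e0 : ℂ} (he : ‖e0‖ = 1) {m : ZMod N → ℝ} {C : ℝ}
    (hC : 0 ≤ C) (hm : ∀ j, m j ≤ C) {x : ℂ} (hx : x ∈ K e0 m) : ‖x‖ ≤ 2 * C := by
  by_cases h0 : x = 0
  · rw [h0, norm_zero]; positivity
  have hn : 0 < ‖x‖ := norm_pos_iff.2 h0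
  have hu : ‖((‖x‖⁻¹ : ℝ) : ℂ) * x‖ = 1 := by
    rw [norm_mul, Complex.norm_real, norm_inv, norm_norm, inv_mul_cancel₀ hn.ne']
  obtain ⟨j, hj⟩ := exists_dir_near hN he hu
  have h1 : dot (((‖x‖⁻¹ : ℝ) : ℂ) * x) x = ‖x‖ := by
    rw [dot_smul_left, dot_self]; field_simp
  have h2 := dot_le (((‖x‖⁻¹ : ℝ) : ℂ) * x - dir e0 j) x
  rw [dot_sub_left, h1] at h2
  have h3 := (hx j).trans (hm j)
  have h4 := dl_le hN
  nlinarith

lemma isCompact_K (hN : 16 ≤ N) {e0 : ℂ} (he : ‖e0‖ = 1) (m : ZMod N → ℝ) :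
    IsCompact (K e0 m) := by
  refine Metric.isCompact_of_isClosed_isBounded (isClosed_K e0 m) ?_
  refine (Metric.isBounded_closedBall (x := (0 : ℂ)) (r := 2 * ∑ j, |m j|)).subset ?_
  intro x hx
  rw [mem_closedBall_zero_iff]
  refine norm_le_of_mem_K hN he (Finset.sum_nonneg fun j _ => abs_nonneg _) (fun j => ?_) hx
  exact (le_abs_self _).trans
    (Finset.single_le_sum (f := fun j => |m j|) (fun j _ => abs_nonneg _) (Finset.mem_univ j))

lemma vol_K_ne_top (hN : 16 ≤ N) {e0 : ℂ} (he : ‖e0‖ = 1) (m : ZMod N → ℝ) :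
    volume (K e0 m) ≠ ⊤ := (isCompact_K hN he m).measure_lt_top.ne

lemma vol_K_translate (e0 x : ℂ) (m : ZMod N → ℝ) :
    volume (K e0 (fun j => m j + dot (dir e0 j) x)) = volume (K e0 m) := by
  rw [← measure_preimage_add_right volume x]
  congr 1
  ext y
  simp [K, dot_add]

/-- discrete Sturm comparison -/
lemma sturm {d : ℝ} (hd : 0 < d) (f : ℕ → ℝ) (h0 : f 0 = 0) (h1 : 0 ≤ f 1)
    (h : ∀ i, 2 * cos d * f (i + 1) ≤ f (i + 2) + f i) :
    ∀ i : ℕ, i * d ≤ π → 0 ≤ f i := by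
  have hw : ∀ i : ℕ, i * d ≤ π → f i * sin ((i + 1) * d) ≤ f (i + 1) * sin (i * d) := by
    intro i
    induction i with
    | zero => intro _; simp [h0]
    | succ i ih =>
      intro hi
      push_cast at hi ⊢
      have ih' := ih (by nlinarith)
      have hs : 0 ≤ sin ((i + 1) * d) :=
        sin_nonneg_of_nonneg_of_le_pi (by positivity) hi
      have e1 : sin ((i + 1 + 1) * d) + sin (i * d) = 2 * cos d * sin ((i + 1) * d) := by
        have a : ((i : ℝ) + 1 + 1) * d = (i + 1) * d + d := by ring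
        have b : (i : ℝ) * d = (i + 1) * d - d := by ring
        rw [a, sin_add]; nth_rewrite 1 [b]; rw [sin_sub]; ring
      have := mul_le_mul_of_nonneg_right (h i) hs
      have e2 : sin ((i + 1 + 1) * d) = 2 * cos d * sin ((i + 1) * d) - sin (i * d) := by linarith
      rw [e2]; nlinarith
  intro i
  induction i with
  | zero => intro _; simp [h0]
  | succ i ih =>
    intro hi
    push_cast at hi
    rcases Nat.eq_zero_or_pos i with rfl | hpos
    · simpa using h1
    have hi' : (0 : ℝ) < i := by exact_mod_cast hpos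
    have a := ih (by nlinarith)
    have b := hw i (by nlinarith)
    have c : 0 ≤ sin ((i + 1) * d) := sin_nonneg_of_nonneg_of_le_pi (by positivity) hi
    have e : 0 < sin (i * d) := sin_pos_of_pos_of_lt_pi (by positivity) (by nlinarith)
    by_contra hneg
    push Not at hneg
    nlinarith [mul_nonneg a c, mul_pos_of_neg_of_neg hneg (neg_neg_of_pos e)]

/-- a point on two consecutive support lines lies in the polygon -/
lemma vertex_mem (hN : 16 ≤ N) (e0 : ℂ) {m : ZMod N → ℝ} (hl : ∀ j, 0 ≤ ell m j)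
    {j : ZMod N} {v : ℂ} (h0 : dot (dir e0 j) v = m j) (h1 : dot (dir e0 (j + 1)) v = m (j + 1)) :
    v ∈ K e0 m := by
  have hs := sin_dl_pos hN
  have key : ∀ i : ZMod N, 2 * cos (dl N) * (m i - dot (dir e0 i) v)
      ≤ (m (i + 1) - dot (dir e0 (i + 1)) v) + (m (i - 1) - dot (dir e0 (i - 1)) v) := by
    intro i
    have a := hl i
    unfold ell at a
    have b := (div_nonneg_iff.1 a).resolve_right (fun h => absurd h.2 (not_le.2 hs))
    have c := dot_dir_three e0 i v
    linarith [b.1]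
  have F := sturm (dl_pos hN)
    (fun i : ℕ => m (j + 1 + (i : ZMod N)) - dot (dir e0 (j + 1 + (i : ZMod N))) v)
    (by simp [h1]) (by
      have := key (j + 1)
      simp only [add_sub_cancel_right, h0, h1, sub_self, mul_zero, add_zero] at this
      simpa using this) (by
      intro i
      have := key (j + 1 + ((i + 1 : ℕ) : ZMod N))
      have e1 : j + 1 + ((i + 1 : ℕ) : ZMod N) + 1 = j + 1 + ((i + 2 : ℕ) : ZMod N) := by
        push_cast; ring
      have e2 : j + 1 + ((i + 1 : ℕ) : ZMod N) - 1 = j + 1 + (i : ZMod N) := by push_cast; ring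
      rw [e1, e2] at this
      exact this)
  have G := sturm (dl_pos hN)
    (fun i : ℕ => m (j - (i : ZMod N)) - dot (dir e0 (j - (i : ZMod N))) v)
    (by simp [h0]) (by
      have := key j
      simp only [h0, h1, sub_self, mul_zero, zero_add] at this
      simpa using this) (by
      intro i
      have := key (j - ((i + 1 : ℕ) : ZMod N))
      have e1 : j - ((i + 1 : ℕ) : ZMod N) + 1 = j - (i : ZMod N) := by push_cast; ring
      have e2 : j - ((i + 1 : ℕ) : ZMod N) - 1 = j - ((i + 2 : ℕ) : ZMod N) := by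
        push_cast; ring
      rw [e1, e2] at this
      linarith)
  intro i
  have hd := dl_pos hN
  have hm := dl_mul hN
  obtain ⟨n, hnN, hi⟩ : ∃ n : ℕ, n < N ∧ i = j + 1 + (n : ZMod N) :=
    ⟨(i - (j + 1)).val, ZMod.val_lt _, by rw [ZMod.natCast_zmod_val]; ring⟩
  by_cases h2 : 2 * n ≤ N
  · have h2' : 2 * (n : ℝ) ≤ N := by exact_mod_cast h2
    have := F n (by nlinarith)
    rw [hi]
    exact sub_nonneg.1 this
  · have h4 : 2 * (N - 1 - n) ≤ N := by omega
    have h4' : 2 * ((N - 1 - n : ℕ) : ℝ) ≤ N := by exact_mod_cast h4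
    have := G (N - 1 - n) (by nlinarith)
    have e : j - ((N - 1 - n : ℕ) : ZMod N) = i := by
      rw [Nat.cast_sub (by omega), Nat.cast_sub (by omega), hi]; simp; ring
    rw [← e]
    exact sub_nonneg.1 this

lemma tri_vol {m a b : ℝ} (hm : 0 ≤ m) (hab : a ≤ b) :
    volume {p : ℝ × ℝ | p.1 ∈ Icc 0 m ∧ p.2 ∈ Icc (a * p.1) (b * p.1)}
      = ENNReal.ofReal ((b - a) * m ^ 2 / 2) := by
  have hmeas : MeasurableSet {p : ℝ × ℝ | p.1 ∈ Icc 0 m ∧ p.2 ∈ Icc (a * p.1) (b * p.1)} :=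
    measurableSet_region_between_cc (f := fun x => a * x) (g := fun x => b * x)
      (by fun_prop) (by fun_prop) measurableSet_Icc
  rw [Measure.volume_eq_prod, Measure.prod_apply hmeas]
  have h1 : (fun x : ℝ => volume (Prod.mk x ⁻¹'
      {p : ℝ × ℝ | p.1 ∈ Icc 0 m ∧ p.2 ∈ Icc (a * p.1) (b * p.1)}))
      = (Icc 0 m).indicator (fun x => ENNReal.ofReal ((b - a) * x)) := by
    funext x
    by_cases hx : x ∈ Icc 0 m
    · rw [indicator_of_mem hx]
      have : (Prod.mk x ⁻¹' {p : ℝ × ℝ | p.1 ∈ Icc 0 m ∧ p.2 ∈ Icc (a * p.1) (b * p.1)})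
          = Icc (a * x) (b * x) := by
        ext y; simp only [mem_preimage, Set.mem_ofPred_eq, hx, true_and]
      rw [this, Real.volume_Icc]; congr 1; ring
    · rw [indicator_of_notMem hx]
      have : (Prod.mk x ⁻¹' {p : ℝ × ℝ | p.1 ∈ Icc 0 m ∧ p.2 ∈ Icc (a * p.1) (b * p.1)})
          = ∅ := by
        ext y; simp only [mem_preimage, Set.mem_ofPred_eq, hx, false_and, mem_empty_iff_false]
      rw [this, measure_empty]
  rw [h1, lintegral_indicator measurableSet_Icc,
    ← ofReal_integral_eq_lintegral_ofReal (by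
      exact (by fun_prop : Continuous fun x : ℝ => (b - a) * x).integrableOn_Icc)
      ((ae_restrict_iff' measurableSet_Icc).2 (Eventually.of_forall fun x hx =>
        mul_nonneg (by linarith) hx.1))]
  congr 1
  rw [integral_Icc_eq_integral_Ioc, ← intervalIntegral.integral_of_le hm,
    intervalIntegral.integral_const_mul, integral_id]
  ring

/-- the triangle over the `j`-th side -/
def Tri (e0 : ℂ) (m : ZMod N → ℝ) (j : ZMod N) : Set ℂ :=
  {x | dot (dir e0 j) x ∈ Icc 0 (m j) ∧ tang (dir e0 j) x ∈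
    Icc (-((m (j - 1) / m j - cos (dl N)) / sin (dl N)) * dot (dir e0 j) x)
      (((m (j + 1) / m j - cos (dl N)) / sin (dl N)) * dot (dir e0 j) x)}

lemma measurableSet_Tri (e0 : ℂ) (m : ZMod N → ℝ) (j : ZMod N) : MeasurableSet (Tri e0 m j) := by
  have h1 := continuous_dot (dir e0 j)
  have h2 := continuous_tang (dir e0 j)
  refine IsClosed.measurableSet ?_
  unfold Tri
  simp only [Set.mem_Icc]
  exact ((isClosed_le continuous_const h1).and (isClosed_le h1 continuous_const)).and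
    ((isClosed_le (continuous_const.mul h1) h2).and (isClosed_le h2 (continuous_const.mul h1)))

lemma vol_Tri (hN : 16 ≤ N) {e0 : ℂ} (he : ‖e0‖ = 1) {m : ZMod N → ℝ} (hm : ∀ j, 0 < m j)
    (hl : ∀ j, 0 ≤ ell m j) (j : ZMod N) :
    volume (Tri e0 m j) = ENNReal.ofReal (m j * ell m j / 2) := by
  have hs := sin_dl_pos hN
  have hj := hm j
  have e : ((m (j + 1) / m j - cos (dl N)) / sin (dl N))
      - (-((m (j - 1) / m j - cos (dl N)) / sin (dl N))) = ell m j / m j := by
    unfold ell; field_simp; ring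
  have hab : -((m (j - 1) / m j - cos (dl N)) / sin (dl N))
      ≤ ((m (j + 1) / m j - cos (dl N)) / sin (dl N)) := by
    have := div_nonneg (hl j) hj.le
    linarith
  have h1 := tri_vol hj.le hab
  have h2 := vol_coord (norm_dir he j) (A := {p : ℝ × ℝ | p.1 ∈ Icc 0 (m j) ∧ p.2 ∈
    Icc (-((m (j - 1) / m j - cos (dl N)) / sin (dl N)) * p.1)
      (((m (j + 1) / m j - cos (dl N)) / sin (dl N)) * p.1)})
    (measurableSet_region_between_cc (f := fun x => _ * x) (g := fun x => _ * x)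
      (by fun_prop) (by fun_prop) measurableSet_Icc)
  rw [h1, e] at h2
  refine h2.trans ?_
  congr 1; field_simp

lemma K_subset_Tri (hN : 16 ≤ N) (e0 : ℂ) {m : ZMod N → ℝ} (hm : ∀ j, 0 < m j) :
    K e0 m ⊆ ⋃ j ∈ (Finset.univ : Finset (ZMod N)), Tri e0 m j := by
  intro x hx
  have hs := sin_dl_pos hN
  obtain ⟨j, -, hj⟩ := Finset.exists_max_image Finset.univ (fun j => dot (dir e0 j) x / m j)
    Finset.univ_nonempty
  simp only [Finset.mem_univ, forall_true_left] at hj
  simp only [Finset.mem_univ, iUnion_true, mem_iUnion]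
  have hj0 := hm j
  have hpos : 0 ≤ dot (dir e0 j) x := by
    by_contra hneg
    push Not at hneg
    have hall : ∀ i : ZMod N, dot (dir e0 i) x < 0 := by
      intro i
      have h1 := (hj i).trans_lt (div_neg_of_neg_of_pos hneg hj0)
      by_contra h2
      push Not at h2
      exact absurd h1 (not_lt.2 (div_nonneg h2 (hm i).le))
    have h1 := S_lin (N := N) e0 x
    unfold S at h1
    have h2 : ∑ i : ZMod N, dot (dir e0 i) x < 0 :=
      Finset.sum_neg (fun i _ => hall i) Finset.univ_nonempty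
    nlinarith [ta_pos hN]
  refine ⟨j, ⟨hpos, hx j⟩, ?_, ?_⟩
  · have h1 := hj (j - 1)
    rw [div_le_div_iff₀ (hm _) hj0, dot_dir_pred] at h1
    rw [neg_mul, neg_le, div_mul_eq_mul_div, le_div_iff₀ hs, sub_mul, div_mul_eq_mul_div,
      le_sub_iff_add_le, le_div_iff₀ hj0]
    nlinarith
  · have h1 := hj (j + 1)
    rw [div_le_div_iff₀ (hm _) hj0, dot_dir_succ] at h1
    rw [div_mul_eq_mul_div, le_div_iff₀ hs, sub_mul, div_mul_eq_mul_div,
      le_sub_iff_add_le, le_div_iff₀ hj0]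
    nlinarith

lemma exists_coord {w : ℂ} (hw : ‖w‖ = 1) (a b : ℝ) : ∃ v : ℂ, dot w v = a ∧ tang w v = b := by
  have h := dot_self w
  rw [hw] at h
  unfold dot at h
  refine ⟨w * (a + b * Complex.I), ?_, ?_⟩
  · simp [dot]; linear_combination a * h
  · simp [tang]; linear_combination b * h

lemma Tri_bound (hN : 16 ≤ N) {e0 : ℂ} (he : ‖e0‖ = 1) {m : ZMod N → ℝ} (hm : ∀ j, 0 < m j)
    (hl : ∀ j, 0 ≤ ell m j) {j : ZMod N} {x : ℂ} (hx : x ∈ Tri e0 m j) (i : ZMod N) :
    dot (dir e0 i) x ≤ dot (dir e0 j) x / m j * m i := by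
  have hs := sin_dl_pos hN
  have hj := hm j
  obtain ⟨⟨ht0, -⟩, ha, hb⟩ := hx
  obtain ⟨vp, hp1, hp2⟩ := exists_coord (norm_dir he j) (m j)
    (((m (j + 1) / m j - cos (dl N)) / sin (dl N)) * m j)
  obtain ⟨vm, hm1, hm2⟩ := exists_coord (norm_dir he j) (m j)
    (-((m (j - 1) / m j - cos (dl N)) / sin (dl N)) * m j)
  have hvp : vp ∈ K e0 m := vertex_mem hN e0 hl hp1 (by
    rw [dot_dir_succ, hp1, hp2]; field_simp; ring)
  have hvm : vm ∈ K e0 m := vertex_mem hN e0 hl (j := j - 1) (by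
    rw [dot_dir_pred, hm1, hm2]; field_simp; ring) (by rw [sub_add_cancel, hm1])
  obtain ⟨n, hn⟩ : ∃ n : ℤ, i = j + (n : ZMod N) :=
    ⟨((i - j).val : ℕ), by rw [Int.cast_natCast, ZMod.natCast_zmod_val]; ring⟩
  have ht : 0 ≤ dot (dir e0 j) x / m j := div_nonneg ht0 hj.le
  have e : dot (dir e0 j) x = dot (dir e0 j) x / m j * m j := by field_simp
  have a1 := mul_le_mul_of_nonneg_left (hvp i) ht
  have a2 := mul_le_mul_of_nonneg_left (hvm i) ht
  rw [hn, dot_dir_add_int, ← hn] at a1 a2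
  rw [hp1, hp2] at a1
  rw [hm1, hm2] at a2
  have hi := dot_dir_add_int e0 j n x
  rw [← hn] at hi
  rw [hi]
  generalize dot (dir e0 j) x / m j = q at *
  generalize (m (j + 1) / m j - cos (dl N)) / sin (dl N) = b at *
  generalize (m (j - 1) / m j - cos (dl N)) / sin (dl N) = a at *
  rw [e] at ha hb ⊢
  rcases le_total 0 (sin (n * dl N)) with h | h
  · nlinarith [mul_le_mul_of_nonneg_left hb h]
  · nlinarith [mul_le_mul_of_nonpos_left ha h]

lemma sum_ofReal_eq {m : ZMod N → ℝ} (hm : ∀ j, 0 < m j) (hl : ∀ j, 0 ≤ ell m j) :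
    ∑ j, ENNReal.ofReal (m j * ell m j / 2) = ENNReal.ofReal (V m) := by
  rw [← ENNReal.ofReal_sum_of_nonneg fun j _ => div_nonneg (mul_nonneg (hm j).le (hl j)) two_pos.le]
  unfold V Bf
  rw [Finset.sum_div]

lemma vol_K_pos_case (hN : 16 ≤ N) {e0 : ℂ} (he : ‖e0‖ = 1) {m : ZMod N → ℝ} (hm : ∀ j, 0 < m j)
    (hl : ∀ j, 0 ≤ ell m j) : volume (K e0 m) = ENNReal.ofReal (V m) := by
  have hU : K e0 m = ⋃ j ∈ (Finset.univ : Finset (ZMod N)), Tri e0 m j := by
    refine (K_subset_Tri hN e0 hm).antisymm ?_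
    intro x hx
    simp only [Finset.mem_univ, iUnion_true, mem_iUnion] at hx
    obtain ⟨j, hj⟩ := hx
    intro i
    refine (Tri_bound hN he hm hl hj i).trans ?_
    have : dot (dir e0 j) x / m j ≤ 1 := (div_le_one (hm j)).2 hj.1.2
    nlinarith [hm i]
  rw [hU, measure_biUnion_finset₀ _ (fun j _ => (measurableSet_Tri e0 m j).nullMeasurableSet),
    ← sum_ofReal_eq hm hl]
  · exact Finset.sum_congr rfl fun j _ => vol_Tri hN he hm hl j
  intro i _ j _ hij
  have hw : (((m i)⁻¹ : ℝ) : ℂ) * dir e0 i - (((m j)⁻¹ : ℝ) : ℂ) * dir e0 j ≠ 0 := by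
    intro h
    have h1 := sub_eq_zero.1 h
    have h2 := congrArg norm h1
    rw [norm_mul, norm_mul, norm_dir he, norm_dir he, Complex.norm_real, Complex.norm_real,
      Real.norm_of_nonneg (inv_nonneg.2 (hm i).le), Real.norm_of_nonneg (inv_nonneg.2 (hm j).le),
      mul_one, mul_one] at h2
    rw [h2] at h1
    have h3 : (((m j)⁻¹ : ℝ) : ℂ) ≠ 0 := by exact_mod_cast (inv_pos.2 (hm j)).ne'
    exact hij (dir_injective he (mul_left_cancel₀ h3 h1))
  refine measure_mono_null ?_ (vol_line hw 0)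
  intro x hx
  have a := Tri_bound hN he hm hl hx.1 j
  have b := Tri_bound hN he hm hl hx.2 i
  rw [← div_le_iff₀ (hm _)] at a b
  simp only [Set.mem_ofPred_eq, dot_sub_left, dot_smul_left]
  have := le_antisymm a b
  rw [inv_mul_eq_div, inv_mul_eq_div, this, sub_self]

/-- all support numbers are attained -/
def Tight (e0 : ℂ) (m : ZMod N → ℝ) : Prop := ∀ j, ∃ p ∈ K e0 m, dot (dir e0 j) p = m j

lemma ell_nonneg_of_touch (hN : 16 ≤ N) {e0 : ℂ} {m : ZMod N → ℝ} {j : ZMod N} {p : ℂ}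
    (hp : p ∈ K e0 m) (hj : dot (dir e0 j) p = m j) : 0 ≤ ell m j := by
  have a := dot_dir_three e0 j p
  have b := hp (j + 1)
  have c := hp (j - 1)
  rw [hj] at a
  exact div_nonneg (by linarith) (sin_dl_pos hN).le

lemma vol_K_of_interior (hN : 16 ≤ N) {e0 : ℂ} (he : ‖e0‖ = 1) {m : ZMod N → ℝ}
    (hl : ∀ j, 0 ≤ ell m j) {x : ℂ} (hx : ∀ j, dot (dir e0 j) x < m j) :
    volume.real (K e0 m) = V m := by
  have e : m = fun j => (m j - dot (dir e0 j) x) + dot (dir e0 j) x := by funext j; ring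
  have hl' : ∀ j, 0 ≤ ell (fun j => m j - dot (dir e0 j) x) j := by
    intro j
    rw [← ell_add_lin e0 x, ← e]; exact hl j
  have h1 := vol_K_pos_case hN he (m := fun j => m j - dot (dir e0 j) x)
    (fun j => sub_pos.2 (hx j)) hl'
  rw [← vol_K_translate e0 x, ← V_add_lin e0 x, ← e] at h1
  have hV : 0 ≤ V m := by
    rw [e, V_add_lin]
    unfold V Bf
    exact div_nonneg (Finset.sum_nonneg fun j _ => mul_nonneg (sub_pos.2 (hx j)).le (hl' j))
      two_pos.le
  rw [Measure.real, h1, ENNReal.toReal_ofReal hV]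

/-- the tight version of the support numbers of a nonempty polygon -/
lemma exists_tight (hN : 16 ≤ N) {e0 : ℂ} (he : ‖e0‖ = 1) {m : ZMod N → ℝ}
    (hne : (K e0 m).Nonempty) :
    ∃ m' : ZMod N → ℝ, (∀ j, m' j ≤ m j) ∧ K e0 m' = K e0 m ∧ Tight e0 m' := by
  have : ∀ j : ZMod N, ∃ p ∈ K e0 m, IsMaxOn (dot (dir e0 j)) (K e0 m) p := fun j =>
    (isCompact_K hN he m).exists_isMaxOn hne (continuous_dot _).continuousOn
  choose p hp hmax using this
  have hK : K e0 (fun j => dot (dir e0 j) (p j)) = K e0 m :=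
    (K_mono e0 fun j => hp j j).antisymm fun x hx j => hmax j hx
  exact ⟨fun j => dot (dir e0 j) (p j), fun j => hp j j, hK, fun j => ⟨p j, hK ▸ hp j, rfl⟩⟩

lemma vol_le_V_of_tight (hN : 16 ≤ N) {e0 : ℂ} (he : ‖e0‖ = 1) {m : ZMod N → ℝ}
    (ht : Tight e0 m) : volume.real (K e0 m) ≤ V m := by
  have hl : ∀ j, 0 ≤ ell m j := fun j => by
    obtain ⟨p, hp, hj⟩ := ht j
    exact ell_nonneg_of_touch hN hp hj
  obtain ⟨x, hx, -⟩ := ht 0
  have h1 : ∀ s : ℝ, 0 < s → volume.real (K e0 m) ≤ V m + s * S m + pN N * s ^ 2 := by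
    intro s hs
    rw [← V_add_const, ← vol_K_of_interior hN he (x := x)
      (fun j => by rw [ell_add_const]; nlinarith [hl j, ta_pos hN])
      (fun j => by linarith [hx j])]
    exact measureReal_mono (K_mono e0 fun j => by linarith) (vol_K_ne_top hN he _)
  have h2 : Tendsto (fun s : ℝ => V m + s * S m + pN N * s ^ 2) (𝓝[>] 0) (𝓝 (V m)) := by
    have : Continuous (fun s : ℝ => V m + s * S m + pN N * s ^ 2) := by fun_prop
    have := (this.tendsto 0).mono_left (nhdsWithin_le_nhds (s := Ioi 0))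
    simpa using this
  exact ge_of_tendsto h2 (eventually_nhdsWithin_of_forall fun s hs => h1 s hs)

lemma continuous_V : Continuous (V : (ZMod N → ℝ) → ℝ) := by
  unfold V Bf ell; fun_prop

lemma V_le_vol_of_interior (hN : 16 ≤ N) {e0 : ℂ} (he : ‖e0‖ = 1) {m : ZMod N → ℝ}
    {x : ℂ} (hx : ∀ j, dot (dir e0 j) x < m j) : V m ≤ volume.real (K e0 m) := by
  obtain ⟨lo, hlo, hK, ht⟩ := exists_tight hN he (m := m) ⟨x, fun j => (hx j).le⟩
  obtain ⟨z, hz, hmax⟩ := (isCompact_Icc (a := lo) (b := m)).exists_isMaxOn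
    ⟨m, hlo, le_rfl⟩ continuous_V.continuousOn
  have hKz : K e0 z = K e0 m :=
    (K_mono e0 hz.2).antisymm (hK ▸ K_mono e0 hz.1)
  have hl : ∀ j, 0 ≤ ell z j := by
    intro j
    rcases (hz.1 j).eq_or_lt with h | h
    · obtain ⟨p, hp, hj⟩ := ht j
      exact ell_nonneg_of_touch hN (p := p) (by rw [hKz, ← hK]; exact hp) (by rw [hj, h])
    · have key : ∀ η : ℝ, 0 < η → η ≤ z j - lo j →
          0 ≤ ell z j - η * V (Pi.single j (1 : ℝ) : ZMod N → ℝ) := by
        intro η h0 h1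
        have hmem : (fun i => z i + (-η) * (Pi.single j (1 : ℝ) : ZMod N → ℝ) i) ∈ Icc lo m := by
          constructor
          · intro i
            by_cases hi : i = j
            · subst hi; simp; linarith
            · simpa [Pi.single_eq_of_ne hi] using hz.1 i
          · intro i
            by_cases hi : i = j
            · subst hi; simp; linarith [hz.2 i]
            · simpa [Pi.single_eq_of_ne hi] using hz.2 i
        have h2 : V (fun i => z i + (-η) * (Pi.single j (1 : ℝ) : ZMod N → ℝ) i) ≤ V z :=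
          hmax hmem
        rw [V_add] at h2
        have e1 : Bf (fun i => (-η) * (Pi.single j (1 : ℝ) : ZMod N → ℝ) i) z = -η * ell z j := by
          unfold Bf
          rw [Finset.sum_eq_single j] <;> simp +contextual [Pi.single_apply]
        have e2 : V (fun i => (-η) * (Pi.single j (1 : ℝ) : ZMod N → ℝ) i)
            = η ^ 2 * V (Pi.single j (1 : ℝ) : ZMod N → ℝ) := by
          unfold V Bf ell
          rw [mul_div_assoc', Finset.mul_sum]
          congr 1
          exact Finset.sum_congr rfl fun i _ => by ring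
        rw [e1, e2] at h2
        by_contra hneg
        push Not at hneg
        nlinarith
      have h2 : Tendsto (fun η : ℝ => ell z j - η * V (Pi.single j (1 : ℝ) : ZMod N → ℝ))
          (𝓝[>] 0) (𝓝 (ell z j)) := by
        have : Continuous (fun η : ℝ => ell z j - η * V (Pi.single j (1 : ℝ) : ZMod N → ℝ)) := by
          fun_prop
        have := (this.tendsto 0).mono_left (nhdsWithin_le_nhds (s := Ioi 0))
        simpa using this
      refine ge_of_tendsto h2 ?_
      filter_upwards [Ioc_mem_nhdsGT (sub_pos.2 h)] with η hη using key η hη.1 hη.2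
  have hx' : ∀ j, dot (dir e0 j) x < z j := by
    intro j
    obtain ⟨δ, hδ, hb⟩ : ∃ δ : ℝ, 0 < δ ∧ ∀ i, dot (dir e0 i) x + δ ≤ m i := by
      obtain ⟨i0, -, hi0⟩ := Finset.exists_min_image Finset.univ
        (fun i => m i - dot (dir e0 i) x) Finset.univ_nonempty
      exact ⟨m i0 - dot (dir e0 i0) x, sub_pos.2 (hx i0), fun i => by
        linarith [hi0 i (Finset.mem_univ i)]⟩
    have hmem : x + (δ : ℂ) * dir e0 j ∈ K e0 z := by
      rw [hKz]
      intro i
      rw [dot_add, dot_smul]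
      have := dot_le (dir e0 i) (dir e0 j)
      rw [norm_dir he, norm_dir he] at this
      nlinarith [hb i]
    have := hmem j
    rw [dot_add, dot_smul, dot_self, norm_dir he] at this
    linarith
  rw [← hKz, vol_K_of_interior hN he hl hx']
  exact hmax ⟨hlo, le_rfl⟩

end Pool.Agent.P.MP_342f9e_an
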