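import Pool.Agent.P.MP_342f9e_an.Poly

set_option autoImplicit false

open Real MeasureTheory Set Filter Topology

namespace Pool.Agent.P.MP_342f9e_an

variable {N : ℕ} [NeZero N]

lemma S_add_const (m : ZMod N → ℝ) (s : ℝ) : S (fun j => m j + s) = S m + 2 * pN N * s := by
  rw [S_add, S_const]

lemma S_sub_const (m : ZMod N → ℝ) (s : ℝ) : S (fun j => m j - s) = S m - 2 * pN N * s := by
  rw [S_sub, S_const]

lemma vol_touch {e0 : ℂ} (he : ‖e0‖ = 1) (m : ZMod N → ℝ) :
    volume (⋃ j : ZMod N, {x : ℂ | dot (dir e0 j) x = m j}) = 0 := by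
  refine measure_iUnion_null fun j => vol_line ?_ _
  intro h
  have := norm_dir he j
  rw [h] at this; simp at this

/-- the formal area is a lower bound for the area -/
theorem V_le_vol (hN : 16 ≤ N) {e0 : ℂ} (he : ‖e0‖ = 1) {m : ZMod N → ℝ} (hS : 0 ≤ S m) :
    V m ≤ volume.real (K e0 m) := by
  set A : Set ℝ := {s | 0 ≤ s ∧ (K e0 (fun j => m j + s)).Nonempty} with hA
  have hAne : A.Nonempty := by
    refine ⟨∑ j, |m j|, Finset.sum_nonneg fun j _ => abs_nonneg _, 0, fun j => ?_⟩
    have := Finset.single_le_sum (f := fun j => |m j|) (fun j _ => abs_nonneg _) (Finset.mem_univ j)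
    have h2 := neg_abs_le (m j)
    simp only [dot, Complex.zero_re, mul_zero, Complex.zero_im, add_zero]
    linarith
  have hAb : BddBelow A := ⟨0, fun s hs => hs.1⟩
  set s0 := sInf A with hs0
  have h0 : 0 ≤ s0 := le_csInf hAne fun s hs => hs.1
  have h1 : ∀ s, s0 < s → V m ≤ volume.real (K e0 (fun j => m j + s)) := by
    intro s hs
    obtain ⟨s', ⟨h0', x, hx⟩, hs'⟩ := exists_lt_of_csInf_lt hAne hs
    refine le_trans ?_ (V_le_vol_of_interior hN he (x := x) fun j => by linarith [hx j])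
    rw [V_add_const]
    have := pN_pos hN
    have : 0 ≤ s := by linarith
    have : 0 ≤ s * S m + pN N * s ^ 2 := by positivity
    linarith
  have h2 := tendsto_measure_biInter_gt (μ := volume) (s := fun s => K e0 (fun j => m j + s))
    (a := s0) (fun r _ => (measurableSet_K e0 _).nullMeasurableSet)
    (fun i j _ hij => K_mono e0 fun k => by linarith)
    ⟨s0 + 1, by linarith, vol_K_ne_top hN he _⟩
  have h3 : (⋂ r > s0, K e0 (fun j => m j + r)) = K e0 (fun j => m j + s0) := by
    ext x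
    simp only [mem_iInter]
    constructor
    · intro h j
      have : dot (dir e0 j) x - m j ≤ s0 := le_of_forall_gt_imp_ge_of_dense fun r hr => by
        linarith [h r hr j]
      linarith
    · intro h r hr j
      linarith [h j]
  rw [h3] at h2
  have h4 : V m ≤ volume.real (K e0 (fun j => m j + s0)) :=
    ge_of_tendsto ((ENNReal.tendsto_toReal (vol_K_ne_top hN he _)).comp h2)
      (eventually_nhdsWithin_of_forall fun s hs => h1 s hs)
  rcases h0.eq_or_lt with h | h
  · simpa [← h] using h4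
  · have h5 : volume (K e0 (fun j => m j + s0)) = 0 := by
      refine measure_mono_null ?_ (vol_touch he (fun j => m j + s0))
      intro x hx
      by_contra hn
      simp only [mem_iUnion, Set.mem_ofPred_eq, not_exists] at hn
      obtain ⟨i0, -, hi0⟩ := Finset.exists_max_image Finset.univ
        (fun i => dot (dir e0 i) x - m i) Finset.univ_nonempty
      have hlt : dot (dir e0 i0) x - m i0 < s0 := by
        have := (hx i0).lt_of_ne (hn i0); linarith
      have hmem : max 0 (dot (dir e0 i0) x - m i0) ∈ A :=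
        ⟨le_max_left _ _, x, fun j => by
          linarith [hi0 j (Finset.mem_univ j), le_max_right 0 (dot (dir e0 i0) x - m i0)]⟩
      exact absurd (csInf_le hAb hmem) (not_le.2 (max_lt h hlt))
    rw [Measure.real, h5] at h4
    exact h4.trans (by simp)

lemma S_nonneg_of_mem (hN : 16 ≤ N) {e0 : ℂ} {m : ZMod N → ℝ} {x : ℂ} (hx : x ∈ K e0 m) :
    0 ≤ S m := by
  have := S_mono hN hx
  rwa [S_lin] at this

lemma vol_eq_V_of_tight (hN : 16 ≤ N) {e0 : ℂ} (he : ‖e0‖ = 1) {m : ZMod N → ℝ}
    (ht : Tight e0 m) : volume.real (K e0 m) = V m := by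
  obtain ⟨x, hx, -⟩ := ht 0
  exact (vol_le_V_of_tight hN he ht).antisymm (V_le_vol hN he (S_nonneg_of_mem hN hx))

/-- discrete isoperimetric inequality -/
theorem V_le_sq (hN : 16 ≤ N) (m : ZMod N → ℝ) : V m ≤ S m ^ 2 / (4 * pN N) := by
  have hp := pN_pos hN
  have he : ‖(1 : ℂ)‖ = 1 := norm_one
  set s := S m / (2 * pN N) with hs
  have hS : S (fun j => m j - s) = 0 := by rw [S_sub_const, hs]; field_simp; ring
  have h1 := V_le_vol hN he hS.ge
  have h2 : volume (K 1 (fun j => m j - s)) = 0 := by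
    refine measure_mono_null ?_ (vol_touch he (fun j => m j - s))
    intro x hx
    refine mem_iUnion.2 ⟨0, ?_⟩
    by_contra hn
    have hlt := (hx 0).lt_of_ne hn
    have h3 : ∑ j : ZMod N, dot (dir 1 j) x < ∑ j, (m j - s) :=
      Finset.sum_lt_sum (fun j _ => hx j) ⟨0, Finset.mem_univ _, hlt⟩
    have h4 := S_lin (N := N) 1 x
    unfold S at h4 hS
    have := mul_lt_mul_of_pos_left h3 (ta_pos hN)
    linarith
  rw [Measure.real, h2, V_sub_const] at h1
  have e : S m ^ 2 / (4 * pN N) = s * S m - pN N * s ^ 2 := by rw [hs]; field_simp; ring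
  simp at h1
  linarith

lemma S_sq_le (hN : 16 ≤ N) (m : ZMod N → ℝ) :
    S m ^ 2 / (4 * pN N) ≤ S (fun j => m j ^ 2) / 2 := by
  have hp := pN_pos hN
  set s := S m / (2 * pN N) with hs
  have h1 : 0 ≤ S (fun j => (m j - s) ^ 2) := S_nonneg hN fun j => sq_nonneg _
  have h2 : (fun j => (m j - s) ^ 2) = fun j => (m j ^ 2 + (-2 * s) * m j) + s ^ 2 := by
    funext j; ring
  rw [h2, S_add_const, S_add, S_mul] at h1
  have e : S m ^ 2 / (4 * pN N) = s * S m - pN N * s ^ 2 := by rw [hs]; field_simp; ring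
  linarith

lemma En2_nonneg (hN : 16 ≤ N) (m : ZMod N → ℝ) : 0 ≤ En2 m m :=
  div_nonneg (Finset.sum_nonneg fun _ _ => mul_self_nonneg _) (sin_dl_pos hN).le

/-- upper bound of the area by the formal area plus half the energy -/
theorem vol_le_V_add (hN : 16 ≤ N) {e0 : ℂ} (he : ‖e0‖ = 1) (m : ZMod N → ℝ) :
    volume.real (K e0 m) ≤ V m + En2 m m / 2 := by
  have h1 := S_sq_le hN m
  have hp := pN_pos hN
  rw [V_eq]
  rcases (K e0 m).eq_empty_or_nonempty with h | h
  · rw [h, measureReal_empty]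
    have : 0 ≤ S m ^ 2 / (4 * pN N) := by positivity
    linarith
  · obtain ⟨m', hle, hK, ht⟩ := exists_tight hN he h
    obtain ⟨x, hx, -⟩ := ht 0
    have a := vol_le_V_of_tight hN he ht
    have b := V_le_sq hN m'
    have c := S_mono hN hle
    have d := S_nonneg_of_mem hN hx
    have e : S m' ^ 2 / (4 * pN N) ≤ S m ^ 2 / (4 * pN N) := by gcongr
    rw [hK] at a
    linarith

/-- area of the inner layer of a polygon -/
theorem vol_inner (hN : 16 ≤ N) {e0 : ℂ} (he : ‖e0‖ = 1) {m : ZMod N → ℝ} (hS : 0 ≤ S m)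
    {ε : ℝ} (hε : 0 ≤ ε) :
    volume.real (K e0 m) - ε * S m ≤ volume.real (K e0 (fun j => m j - ε)) := by
  have hp := pN_pos hN
  rcases (K e0 m).eq_empty_or_nonempty with h | h
  · rw [h, measureReal_empty]
    have := mul_nonneg hε hS
    have : 0 ≤ volume.real (K e0 (fun j => m j - ε)) := measureReal_nonneg
    linarith
  obtain ⟨m', hle, hK, ht⟩ := exists_tight hN he h
  obtain ⟨x, hx, -⟩ := ht 0
  have a := vol_le_V_of_tight hN he ht
  have c := mul_le_mul_of_nonneg_left (S_mono hN hle) hε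
  have d := S_nonneg_of_mem hN hx
  have e : volume.real (K e0 (fun j => m' j - ε)) ≤ volume.real (K e0 (fun j => m j - ε)) :=
    measureReal_mono (K_mono e0 fun j => by linarith [hle j]) (vol_K_ne_top hN he _)
  rw [hK] at a
  rcases le_total 0 (S (fun j => m' j - ε)) with h1 | h1
  · have b := V_le_vol hN he h1
    rw [V_sub_const] at b
    have : 0 ≤ pN N * ε ^ 2 := by positivity
    linarith
  · rw [S_sub_const] at h1
    have b := V_le_sq hN m'
    have : S m' ^ 2 / (4 * pN N) ≤ ε * S m' := by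
      rw [div_le_iff₀ (by positivity)]; nlinarith
    have : 0 ≤ volume.real (K e0 (fun j => m j - ε)) := measureReal_nonneg
    linarith

/-- lower bound for the area of the inner layer -/
theorem vol_inner_le (hN : 16 ≤ N) {e0 : ℂ} (he : ‖e0‖ = 1) {h : ZMod N → ℝ} (ht : Tight e0 h)
    {x0 : ℂ} {r ε : ℝ} (hr : ∀ j, dot (dir e0 j) x0 + r ≤ h j) (hε : 0 < ε) (hεr : ε ≤ r) :
    volume.real (K e0 (fun j => h j - ε)) + ε * ((1 - ε / r) * S h) ≤ V h := by
  have hp := pN_pos hN
  have hr0 : 0 < r := by linarith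
  obtain ⟨m', hle, hK, ht'⟩ := exists_tight hN he (m := fun j => h j - ε)
    ⟨x0, fun j => by linarith [hr j]⟩
  obtain ⟨x, hx, -⟩ := ht' 0
  have a := vol_le_V_of_tight hN he ht'
  have d := S_nonneg_of_mem hN hx
  have b := V_le_vol hN he (m := fun j => m' j + ε) (by rw [S_add_const]; positivity)
  rw [V_add_const] at b
  have c : volume.real (K e0 (fun j => m' j + ε)) ≤ volume.real (K e0 h) :=
    measureReal_mono (K_mono e0 fun j => by linarith [hle j]) (vol_K_ne_top hN he _)
  rw [vol_eq_V_of_tight hN he ht] at c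
  rw [hK] at a
  set q := ε / r with hq
  have hq0 : 0 ≤ q := by positivity
  have hq1 : q ≤ 1 := (div_le_one hr0).2 hεr
  have hqr : q * r = ε := by rw [hq]; field_simp
  have f : ∀ j, (1 - q) * h j + dot (dir e0 j) ((q : ℂ) * x0) ≤ m' j := by
    intro j
    obtain ⟨p, hp, hj⟩ := ht j
    have hmem : (((1 - q : ℝ) : ℂ) * p + (q : ℂ) * x0) ∈ K e0 m' := by
      rw [hK]
      intro i
      rw [dot_add, dot_smul, dot_smul]
      nlinarith [mul_le_mul_of_nonneg_left (hp i) (sub_nonneg.2 hq1),
        mul_le_mul_of_nonneg_left (hr i) hq0]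
    have := hmem j
    rwa [dot_add, dot_smul, hj] at this
  have g := S_mono hN f
  rw [S_add, S_lin, S_mul] at g
  have : 0 ≤ pN N * ε ^ 2 := by positivity
  nlinarith [mul_le_mul_of_nonneg_left g hε.le]

end Pool.Agent.P.MP_342f9e_an
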