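import Pool.Agent.P.MP_342f9e_an.Disc

set_option autoImplicit false

open Real MeasureTheory Set Filter Topology
open scoped Pointwise

namespace Pool.Agent.P.MP_342f9e_an

lemma exists_softmax {N : ℕ} [NeZero N] {e0 : ℂ} (he : ‖e0‖ = 1) (g : ZMod N → ℝ) {τ : ℝ}
    (hτ : 0 < τ) : ∃ s : ℂ → ℝ, ContDiff ℝ (⊤ : ℕ∞) s ∧ (∀ x y, s x ≤ s y + ‖x - y‖) ∧
      ∀ x, rho e0 g x ≤ s x ∧ s x ≤ rho e0 g x + τ := by
  have hN : (0 : ℝ) < N := by exact_mod_cast Nat.pos_of_ne_zero (NeZero.ne N)
  set β := N / τ with hβ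
  have hβ0 : 0 < β := by positivity
  set P : ℂ → ℝ := fun x => 1 + ∑ j : ZMod N, exp (β * (dot (dir e0 j) x - g j)) with hP
  have hP1 : ∀ x, 1 ≤ P x := fun x =>
    le_add_of_nonneg_right (Finset.sum_nonneg fun j _ => (exp_pos _).le)
  have hP0 : ∀ x, 0 < P x := fun x => by linarith [hP1 x]
  refine ⟨fun x => log (P x) / β, ?_, fun x y => ?_, fun x => ⟨?_, ?_⟩⟩
  · refine ContDiff.div_const (ContDiff.log ?_ fun x => (hP0 x).ne') _
    simp only [hP, dot]
    have h1 : ContDiff ℝ (⊤ : ℕ∞) fun x : ℂ => x.re := Complex.reCLM.contDiff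
    have h2 : ContDiff ℝ (⊤ : ℕ∞) fun x : ℂ => x.im := Complex.imCLM.contDiff
    fun_prop
  · have h1 : P x ≤ P y * exp (β * ‖x - y‖) := by
      simp only [hP]
      rw [add_mul, one_mul, Finset.sum_mul]
      refine add_le_add (one_le_exp (by positivity)) (Finset.sum_le_sum fun j _ => ?_)
      rw [← exp_add]
      have b := dot_le (dir e0 j) (x - y)
      rw [norm_dir he, dot_sub, one_mul] at b
      exact exp_le_exp.2 (by nlinarith)
    have h2 := log_le_log (hP0 x) h1
    rw [log_mul (hP0 y).ne' (exp_pos _).ne', log_exp] at h2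
    simp only
    rw [div_add' _ _ _ hβ0.ne']
    exact div_le_div_of_nonneg_right (by linarith) hβ0.le
  · rw [rho_le_iff _ _ _ (div_nonneg (log_nonneg (hP1 x)) hβ0.le)]
    intro j
    have h1 : exp (β * (dot (dir e0 j) x - g j)) ≤ P x := by
      have := Finset.single_le_sum (f := fun j : ZMod N => exp (β * (dot (dir e0 j) x - g j)))
        (fun j _ => (exp_pos _).le) (Finset.mem_univ j)
      simp only [hP]; linarith
    have h2 := (le_log_iff_exp_le (hP0 x)).2 h1
    simp only
    rw [← sub_le_iff_le_add', le_div_iff₀ hβ0]; linarith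
  · have h1 : P x ≤ (N + 1) * exp (β * rho e0 g x) := by
      have a : 1 ≤ exp (β * rho e0 g x) := one_le_exp (mul_nonneg hβ0.le (rho_nonneg _ _ _))
      have b := Finset.sum_le_card_nsmul Finset.univ
        (fun j : ZMod N => exp (β * (dot (dir e0 j) x - g j))) (exp (β * rho e0 g x))
        (fun j _ => exp_le_exp.2 (mul_le_mul_of_nonneg_left (le_rho e0 g x j) hβ0.le))
      rw [Finset.card_univ, ZMod.card, nsmul_eq_mul] at b
      simp only [hP]; linarith
    have h2 := log_le_log (hP0 x) h1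
    rw [log_mul (by positivity) (exp_pos _).ne', log_exp] at h2
    have h3 := log_le_sub_one_of_pos (by positivity : (0 : ℝ) < N + 1)
    have h4 : τ * β = N := by rw [hβ]; field_simp
    simp only
    rw [div_le_iff₀ hβ0]; linarith

lemma Ff_lip {a b T : ℝ} (ha : 0 ≤ a) (hab : a ≤ b) (hT : b ≤ T) :
    Ff b - Ff a ≤ (b - a) * (2 * Ff T) := by
  have h := le_of_deriv (f := fun t => t * (2 * Ff T) - nf 0 t)
    (f' := fun t => 2 * Ff T - nd 0 t) hab
    (fun t _ => (((hasDerivAt_id t).mul_const _).sub (hasDerivAt_nf 0 t)).congr_deriv (by ring))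
    (fun t ht => by
      have a := (Jd_le_Ff t).trans (Ff_mono (ha.trans ht.1) (ht.2.trans hT))
      have b := mul_nonneg (I1_nonneg (ha.trans ht.1)) (Gf_pos t).le
      unfold Jd at a; unfold nd; linarith)
  have e : ∀ x, nf 0 x = Ff x := fun x => by unfold nf Ff; ring
  simp only [e] at h
  linarith

lemma transport {μ : Measure ℂ} (T : ℂ ≃ₜ ℂ) {c : ℝ} (hc : 0 ≤ c)
    (h : ∀ s, μ (T '' s) = ENNReal.ofReal c * μ s) (s : Set ℂ) (f : ℂ → ℝ) :
    ∫ x in T '' s, f x ∂μ = c * ∫ x in s, f (T x) ∂μ := by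
  have h1 : Measure.map T.symm μ = ENNReal.ofReal c • μ := by
    ext t ht
    rw [Measure.map_apply T.symm.continuous.measurable ht, T.preimage_symm, h,
      Measure.smul_apply, smul_eq_mul]
  have h2 := T.symm.measurableEmbedding.setIntegral_map (μ := μ) (fun x => f (T x)) s
  rw [h1, Measure.restrict_smul, integral_smul_measure, ENNReal.toReal_ofReal hc, smul_eq_mul,
    T.preimage_symm] at h2
  simpa using h2.symm

theorem exists_test {Ω : Set ℂ} (hc : Convex ℝ Ω) (ho : IsOpen Ω) (hbd : Bornology.IsBounded Ω)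
    {R k : ℝ} (hR : 0 < R) (hk : 0 < k) (hA : π * R ^ 2 = volume.real Ω) {τ : ℝ} (hτ : 0 < τ) :
    ∃ u : ℂ → ℝ, ContDiff ℝ (⊤ : ℕ∞) u ∧ HasCompactSupport u ∧ (∀ x ∈ Ω, 1 ≤ u x ^ 2) ∧
      (∫ x in Ω, ‖fderiv ℝ u x‖ ^ 2) + k ^ 2 * (∫ x in Ω, u x ^ 2)
        - k * pf (k * R) * ∫ x in frontier Ω, u x ^ 2 ∂μH[1] ≤ τ := by
  have hA0 : 0 < volume.real Ω := by rw [← hA]; positivity
  have hne : Ω.Nonempty := by
    rcases Ω.eq_empty_or_nonempty with h | h
    · rw [h] at hA0; simp at hA0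
    · exact h
  have hf := frontier_finite hc ho hne hbd
  obtain ⟨e0, y, c, he, hsq⟩ := exists_square hbd hne
  set T : ℂ ≃ₜ ℂ := (Homeomorph.addRight (-y)).trans (Homeomorph.smulOfNeZero k hk.ne') with hT
  have hTx : ∀ x, T x = (k : ℂ) * (x - y) := fun x => by
    simp [hT, sub_eq_add_neg, mul_add]
  have hTs : ∀ s, T '' s = k • ((· + y) ⁻¹' s) := fun s => by
    rw [← image_add_right', ← image_smul, image_image]; rfl
  have hvol : ∀ s, volume (T '' s) = ENNReal.ofReal (k ^ 2) * volume s := fun s => by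
    rw [hTs, Measure.addHaar_smul, measure_preimage_add_right, Complex.finrank_real_complex,
      abs_of_nonneg (sq_nonneg k)]
  have hlen : ∀ s, μH[1] (T '' s) = ENNReal.ofReal k * μH[1] s := fun s => by
    rw [hTs, Measure.hausdorffMeasure_smul₀ zero_le_one hk.ne', measure_preimage_add_right,
      NNReal.rpow_one, ENNReal.smul_def, smul_eq_mul, ← Real.toNNReal_eq_nnnorm_of_nonneg hk.le]
    rfl
  have hlipT : ∀ x z, ‖T x - T z‖ = k * ‖x - z‖ := fun x z => by
    rw [hTx, hTx, ← mul_sub, norm_mul, Complex.norm_real, Real.norm_of_nonneg hk.le]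
    congr 2; ring
  have hTc : ContDiff ℝ (⊤ : ℕ∞) T := by
    have : (T : ℂ → ℂ) = fun x => (k : ℂ) * (x - y) := funext hTx
    rw [this]; fun_prop
  have hbd' : Bornology.IsBounded (T '' Ω) :=
    (hbd.isCompact_closure.image T.continuous).isBounded.subset (image_mono subset_closure)
  obtain ⟨n, g, hq⟩ := core he (Ω := T '' Ω) (c := k * c) (R := k * R)
    (by rw [hTs]; exact (hc.translate_preimage_left y).smul k) (T.isOpenMap _ ho) hbd'
    (fun q => by
      obtain ⟨h1, p, hp, h2⟩ := hsq q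
      unfold Sup
      rw [← T.image_closure]
      refine ⟨?_, T p, mem_image_of_mem _ hp, by rw [hTx, dot_smul, dot_sub, h2]; ring⟩
      rintro _ ⟨x, hx, rfl⟩
      rw [hTx, dot_smul, dot_sub]
      exact mul_le_mul_of_nonneg_left (by linarith [h1 x hx]) hk.le)
    (by positivity)
    (by rw [Measure.real, hvol, ENNReal.toReal_mul, ENNReal.toReal_ofReal (sq_nonneg k),
      ← Measure.real, ← hA]; ring) (half_pos hτ)
  rw [← T.image_frontier, transport T (sq_nonneg k) hvol, transport T hk.le hlen] at hq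
  have hρ : Continuous fun x => rho e0 g (T x) := (continuous_rho he g).comp T.continuous
  obtain ⟨B, hB⟩ := hbd.isCompact_closure.exists_bound_of_continuousOn hρ.continuousOn
  have hF : 0 < Ff (B + 1) := lt_of_lt_of_le one_pos ((one_le_J _).trans (J_le_Ff _))
  set t := min 1 (τ / 2 / (k ^ 2 * (2 * Ff (B + 1)) * volume.real Ω)) with ht
  have ht0 : 0 < t := by positivity
  have ht1 : t ≤ 1 := min_le_left _ _
  have ht2 : t * (k ^ 2 * (2 * Ff (B + 1)) * volume.real Ω) ≤ τ / 2 :=
    (le_div_iff₀ (by positivity)).1 (min_le_right _ _)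
  obtain ⟨s, hs, hsl, hsρ⟩ := exists_softmax he g ht0
  obtain ⟨C, hC0, hC⟩ := hbd.closure.exists_pos_norm_le
  let b : ContDiffBump (0 : ℂ) := ⟨C + 1, C + 2, by linarith, by linarith⟩
  have hb1 : ∀ x ∈ Metric.ball (0 : ℂ) (C + 1), b x = 1 := fun x hx =>
    b.one_of_mem_closedBall (Metric.ball_subset_closedBall hx)
  have hball : closure Ω ⊆ Metric.ball (0 : ℂ) (C + 1) := fun x hx =>
    mem_ball_zero_iff.2 (by linarith [hC x hx])
  have hsT : ContDiff ℝ (⊤ : ℕ∞) fun x => s (T x) := hs.comp hTc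
  have hu : ContDiff ℝ (⊤ : ℕ∞) fun x => b x * I0 (s (T x)) :=
    b.contDiff.mul (contDiff_I0.comp hsT)
  have hs0 : ∀ x, 0 ≤ s x := fun x => (rho_nonneg _ _ _).trans (hsρ x).1
  have hΩ : volume Ω < ⊤ := hbd.measure_lt_top
  have iΩ : ∀ f : ℂ → ℝ, Continuous f → IntegrableOn f Ω := fun f hf =>
    integrableOn_of_cont hΩ ho.measurableSet hbd hf
  have iF : ∀ f : ℂ → ℝ, Continuous f → IntegrableOn f (frontier Ω) μH[1] := fun f hf' =>
    integrableOn_of_cont hf isClosed_frontier.measurableSet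
      (hbd.closure.subset frontier_subset_closure) hf'
  have hcu := hu.continuous
  have hcd : Continuous (fderiv ℝ fun x => b x * I0 (s (T x))) := hu.continuous_fderiv (by simp)
  refine ⟨fun x => b x * I0 (s (T x)), hu, b.hasCompactSupport.mul_right, fun x hx => by
    simp only [hb1 x (hball (subset_closure hx)), one_mul]; exact one_le_J _, ?_⟩
  have m1 := setIntegral_mono_on (μ := volume)
    (f := fun x => ‖fderiv ℝ (fun x => b x * I0 (s (T x))) x‖ ^ 2 + k ^ 2 * (b x * I0 (s (T x))) ^ 2)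
    (g := fun x => k ^ 2 * Ff (rho e0 g (T x)) + t * (k ^ 2 * (2 * Ff (B + 1))))
    (iΩ _ (by fun_prop)) (iΩ _ (by fun_prop)) ho.measurableSet (fun x hx => by
      have hx' := hball (subset_closure hx)
      have e1 : (fun x => b x * I0 (s (T x))) =ᶠ[𝓝 x] fun x => I0 (s (T x)) := by
        filter_upwards [Metric.isOpen_ball.mem_nhds hx'] with z hz
        rw [hb1 z hz, one_mul]
      have e2 := ((hasDerivAt_I0 (s (T x))).comp_hasFDerivAt x
        (hsT.differentiable (by simp) x).hasFDerivAt).fderiv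
      have e3 : ‖fderiv ℝ (fun x => s (T x)) x‖ ≤ k := by
        have := norm_fderiv_le_of_lipschitz ℝ (x₀ := x)
          (LipschitzWith.of_le_add_mul' k (f := fun x => s (T x)) fun x z => by
            rw [dist_eq_norm, ← hlipT]; exact hsl _ _)
        rwa [Real.coe_toNNReal _ hk.le] at this
      have e4 : ‖fderiv ℝ (fun x => b x * I0 (s (T x))) x‖ ≤ I1 (s (T x)) * k := by
        rw [e1.fderiv_eq]
        refine (le_of_eq (congrArg norm e2)).trans ?_
        rw [norm_smul, Real.norm_of_nonneg (I1_nonneg (hs0 _))]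
        exact mul_le_mul_of_nonneg_left e3 (I1_nonneg (hs0 _))
      have e5 := pow_le_pow_left₀ (norm_nonneg _) e4 2
      have e6 := hB x (subset_closure hx)
      rw [Real.norm_of_nonneg (rho_nonneg _ _ _)] at e6
      have e7 := Ff_lip (T := B + 1) (rho_nonneg e0 g (T x)) (hsρ (T x)).1
        (by linarith [(hsρ (T x)).2])
      have e8 := mul_le_mul_of_nonneg_right (show s (T x) - rho e0 g (T x) ≤ t by
        linarith [(hsρ (T x)).2]) (by positivity : 0 ≤ 2 * Ff (B + 1))
      have e9 := mul_le_mul_of_nonneg_left (e7.trans e8) (sq_nonneg k)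
      have e10 : Ff (s (T x)) = I0 (s (T x)) ^ 2 + I1 (s (T x)) ^ 2 := rfl
      simp only [hb1 x hx', one_mul]
      rw [e10] at e9
      linarith)
  rw [integral_add (iΩ _ (by fun_prop)) (iΩ _ (by fun_prop)), integral_const_mul,
    integral_add (iΩ _ (by fun_prop)) (iΩ _ (by fun_prop)), integral_const_mul,
    setIntegral_const, smul_eq_mul] at m1
  have m2 := setIntegral_mono_on (μ := μH[1]) (f := fun x => I0 (rho e0 g (T x)) ^ 2)
    (g := fun x => (b x * I0 (s (T x))) ^ 2) (iF _ (by fun_prop)) (iF _ (by fun_prop))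
    isClosed_frontier.measurableSet (fun x hx => by
      simp only [hb1 x (hball (frontier_subset_closure hx)), one_mul]
      exact pow_le_pow_left₀ (I0_pos _).le (I0_mono (rho_nonneg _ _ _) (hsρ _).1) 2)
  have m3 := mul_le_mul_of_nonneg_left m2 (mul_nonneg hk.le (pf_nonneg (mul_pos hk hR).le))
  linarith

end Pool.Agent.P.MP_342f9e_an
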